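import Mathlib

/-!
# The Lie algebra that kills the Tate forms with values in a representation
-/

set_option autoImplicit false
set_option linter.unusedSectionVars false

namespace Pool.Agent.NH33.Qz

noncomputable section

variable {Ω : Type*} [Field Ω] {V : Type*} [AddCommGroup V] [Module Ω V]
  {H : Type*} [AddCommGroup H] [Module Ω H]
  {Γ : Type*} [Group Γ] (ρ : Representation Ω Γ V) (χ : Γ →* Ω) (τ : Representation Ω Γ H)

/-- A multilinear form with values in `H` on which a subgroup of finite index acts through the `c`-th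
power of the character `χ` and `τ`. -/
def IsTateC {κ : Type} (c : ℤ) (f : MultilinearMap Ω (fun _ : κ => V) H) : Prop :=
  ∃ Δ : Subgroup Γ, Δ.FiniteIndex ∧ ∀ s ∈ Δ, ∀ v, f (fun l => ρ s (v l)) = χ s ^ c • τ s (f v)

/-- The endomorphism `X` kills the form `f` (as an element of the Lie algebra). -/
def Kills {κ : Type} [Fintype κ] [DecidableEq κ] (X : Module.End Ω V)
    (f : MultilinearMap Ω (fun _ : κ => V) H) : Prop :=
  ∀ v : κ → V, ∑ k, f (Function.update v k (X (v k))) = 0

/-- The endomorphisms that kill all Tate forms with values in `H`. -/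
def lieH : Submodule Ω (Module.End Ω V) where
  carrier := {X | ∀ (κ : Type) [Fintype κ] [DecidableEq κ] (c : ℤ)
    (f : MultilinearMap Ω (fun _ : κ => V) H), IsTateC ρ χ τ c f → Kills X f}
  zero_mem' := by
    intro κ _ _ c f _ v
    refine Finset.sum_eq_zero fun k _ => ?_
    rw [LinearMap.zero_apply]
    exact f.map_coord_zero k (Function.update_self _ _ _)
  add_mem' := by
    intro X Y hX hY κ _ _ c f hf v
    have h1 := hX κ c f hf v
    have h2 := hY κ c f hf v
    have h3 := congrArg₂ (fun x y : H => x + y) h1 h2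
    simp only [add_zero] at h3
    rw [← h3, ← Finset.sum_add_distrib]
    refine Finset.sum_congr rfl fun k _ => ?_
    rw [LinearMap.add_apply, MultilinearMap.map_update_add]
  smul_mem' := by
    intro a X hX κ _ _ c f hf v
    have h1 := hX κ c f hf v
    rw [← smul_zero a, ← h1, Finset.smul_sum]
    refine Finset.sum_congr rfl fun k _ => ?_
    rw [LinearMap.smul_apply, MultilinearMap.map_update_smul]

theorem kills_bracket {κ : Type} [Fintype κ] [DecidableEq κ] {X Y : Module.End Ω V}
    {φ : MultilinearMap Ω (fun _ : κ => V) H} (hX : Kills X φ) (hY : Kills Y φ) :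
    Kills (X * Y - Y * X) φ := by
  intro v
  have key : ∀ (A B : Module.End Ω V), Kills B φ →
      ∑ j, φ (Function.update v j (B (A (v j)))) =
        -∑ j, ∑ k ∈ Finset.univ.erase j,
          φ (Function.update (Function.update v j (A (v j))) k (B (v k))) := by
    intro A B hB
    rw [← Finset.sum_neg_distrib]
    refine Finset.sum_congr rfl fun j _ => ?_
    have h1 := hB (Function.update v j (A (v j)))
    rw [← Finset.add_sum_erase _ _ (Finset.mem_univ j), Function.update_self,
      Function.update_idem] at h1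
    rw [eq_neg_iff_add_eq_zero, ← h1]
    congr 1
    refine Finset.sum_congr rfl fun k hk => ?_
    rw [Function.update_of_ne (Finset.ne_of_mem_erase hk)]
  have h1 : ∀ k, φ (Function.update v k ((X * Y - Y * X) (v k))) =
      φ (Function.update v k (X (Y (v k)))) - φ (Function.update v k (Y (X (v k)))) := by
    intro k
    rw [LinearMap.sub_apply, MultilinearMap.map_update_sub]
    rfl
  rw [Finset.sum_congr rfl (fun k _ => h1 k), Finset.sum_sub_distrib, key Y X hX, key X Y hY]
  have h2 : ∑ j, ∑ k ∈ Finset.univ.erase j,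
      φ (Function.update (Function.update v j (Y (v j))) k (X (v k))) =
      ∑ j, ∑ k ∈ Finset.univ.erase j,
      φ (Function.update (Function.update v j (X (v j))) k (Y (v k))) := by
    have h3 : ∀ (A B : Module.End Ω V), ∑ j, ∑ k ∈ Finset.univ.erase j,
        φ (Function.update (Function.update v j (A (v j))) k (B (v k))) =
        ∑ j, ∑ k, if k ≠ j then
          φ (Function.update (Function.update v j (A (v j))) k (B (v k))) else 0 := by
      intro A B
      refine Finset.sum_congr rfl fun j _ => ?_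
      rw [← Finset.sum_filter]
      refine Finset.sum_congr ?_ fun _ _ => rfl
      ext k
      simp
    rw [h3, h3, Finset.sum_comm]
    refine Finset.sum_congr rfl fun j _ => Finset.sum_congr rfl fun k _ => ?_
    by_cases h : k = j
    · subst h
      simp
    · rw [if_pos (Ne.symm h), if_pos h, Function.update_comm (Ne.symm h)]
  rw [h2, sub_self]

theorem lieH_bracket {X Y : Module.End Ω V} (hX : X ∈ lieH ρ χ τ) (hY : Y ∈ lieH ρ χ τ) :
    X * Y - Y * X ∈ lieH ρ χ τ :=
  fun κ _ _ c φ hφ => kills_bracket (hX κ c φ hφ) (hY κ c φ hφ)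

theorem rho_inv {W : Type*} [AddCommGroup W] [Module Ω W] (ρ : Representation Ω Γ W) (s : Γ)
    (v : W) : ρ s⁻¹ (ρ s v) = v := by
  rw [← Module.End.mul_apply, ← map_mul, inv_mul_cancel, map_one]
  rfl

theorem rho_inv' {W : Type*} [AddCommGroup W] [Module Ω W] (ρ : Representation Ω Γ W) (s : Γ)
    (v : W) : ρ s (ρ s⁻¹ v) = v := by
  rw [← Module.End.mul_apply, ← map_mul, mul_inv_cancel, map_one]
  rfl

theorem lieH_conj (s : Γ) {X : Module.End Ω V} (hX : X ∈ lieH ρ χ τ) :
    ρ s * X * ρ s⁻¹ ∈ lieH ρ χ τ := by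
  intro κ _ _ c φ hφ v
  obtain ⟨Δ, hΔ, hφ⟩ := hφ
  let φ' : MultilinearMap Ω (fun _ : κ => V) H :=
    (τ s⁻¹).compMultilinearMap (φ.compLinearMap (fun _ => ρ s))
  have hφ' : IsTateC ρ χ τ c φ' := by
    refine ⟨Δ.comap (MulAut.conj s).toMonoidHom, ⟨by
      rw [Subgroup.index_comap_of_surjective _ (MulAut.conj s).surjective]
      exact hΔ.index_ne_zero⟩, fun t ht v => ?_⟩
    have h1 : s * t * s⁻¹ ∈ Δ := by
      rw [Subgroup.mem_comap] at ht
      exact ht
    have h2 := hφ _ h1 (fun k => ρ s (v k))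
    change τ s⁻¹ (φ (fun k => ρ s (ρ t (v k)))) = χ t ^ c • τ t (τ s⁻¹ (φ (fun k => ρ s (v k))))
    have h3 : ∀ k, ρ (s * t * s⁻¹) (ρ s (v k)) = ρ s (ρ t (v k)) := by
      intro k
      rw [map_mul, map_mul, Module.End.mul_apply, Module.End.mul_apply, rho_inv]
    have h4 : χ (s * t * s⁻¹) = χ t := by
      rw [map_mul, map_mul, mul_right_comm, ← map_mul, mul_inv_cancel, map_one, one_mul]
    simp only [h3, h4] at h2
    rw [h2, map_smul, map_mul, map_mul, Module.End.mul_apply, Module.End.mul_apply, rho_inv]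
  have h1 := hX κ c φ' hφ' (fun k => ρ s⁻¹ (v k))
  have h2 := congrArg (τ s) h1
  rw [map_zero, map_sum] at h2
  rw [← h2]
  refine Finset.sum_congr rfl fun k _ => ?_
  change _ = τ s (τ s⁻¹
    (φ (fun l => ρ s (Function.update (fun k => ρ s⁻¹ (v k)) k (X (ρ s⁻¹ (v k))) l))))
  rw [rho_inv']
  congr 1
  funext l
  by_cases h : l = k
  · subst h
    rw [Function.update_self, Function.update_self]
    rfl
  · rw [Function.update_of_ne h, Function.update_of_ne h, rho_inv']

/-- A bilinear form as a multilinear form. -/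
def bil2 {W : Type*} [AddCommGroup W] [Module Ω W] (ω : W →ₗ[Ω] W →ₗ[Ω] Ω) :
    MultilinearMap Ω (fun _ : Fin 2 => W) Ω where
  toFun v := ω (v 0) (v 1)
  map_update_add' := by
    intro _ v i x y
    fin_cases i
    · have h : ∀ z : W, Function.update v 0 z 1 = v 1 := fun z =>
        Function.update_of_ne Fin.zero_ne_one.symm _ _
      have h0 : ∀ z : W, Function.update v 0 z 0 = z := fun z => Function.update_self _ _ _
      convert! (show ω (Function.update v 0 (x + y) 0) (Function.update v 0 (x + y) 1) =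
        ω (Function.update v 0 x 0) (Function.update v 0 x 1) +
        ω (Function.update v 0 y 0) (Function.update v 0 y 1) from ?_)
      rw [h, h, h, h0, h0, h0, map_add, LinearMap.add_apply]
    · have h : ∀ z : W, Function.update v 1 z 0 = v 0 := fun z =>
        Function.update_of_ne Fin.zero_ne_one _ _
      have h0 : ∀ z : W, Function.update v 1 z 1 = z := fun z => Function.update_self _ _ _
      convert! (show ω (Function.update v 1 (x + y) 0) (Function.update v 1 (x + y) 1) =
        ω (Function.update v 1 x 0) (Function.update v 1 x 1) +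
        ω (Function.update v 1 y 0) (Function.update v 1 y 1) from ?_)
      rw [h, h, h, h0, h0, h0, map_add]
  map_update_smul' := by
    intro _ v i c x
    fin_cases i
    · have h : ∀ z : W, Function.update v 0 z 1 = v 1 := fun z =>
        Function.update_of_ne Fin.zero_ne_one.symm _ _
      have h0 : ∀ z : W, Function.update v 0 z 0 = z := fun z => Function.update_self _ _ _
      convert! (show ω (Function.update v 0 (c • x) 0) (Function.update v 0 (c • x) 1) =
        c • ω (Function.update v 0 x 0) (Function.update v 0 x 1) from ?_)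
      rw [h, h, h0, h0, map_smul, LinearMap.smul_apply]
    · have h : ∀ z : W, Function.update v 1 z 0 = v 0 := fun z =>
        Function.update_of_ne Fin.zero_ne_one _ _
      have h0 : ∀ z : W, Function.update v 1 z 1 = z := fun z => Function.update_self _ _ _
      convert! (show ω (Function.update v 1 (c • x) 0) (Function.update v 1 (c • x) 1) =
        c • ω (Function.update v 1 x 0) (Function.update v 1 x 1) from ?_)
      rw [h, h, h0, h0, map_smul]

theorem bil2_apply {W : Type*} [AddCommGroup W] [Module Ω W] (ω : W →ₗ[Ω] W →ₗ[Ω] Ω)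
    (v : Fin 2 → W) : bil2 ω v = ω (v 0) (v 1) := rfl

/-- A scalar form with values in the line of an invariant vector. -/
theorem kills_scalar {h0 : H} (hh : h0 ≠ 0) (hh0 : ∀ s, τ s h0 = h0) {κ : Type} [Fintype κ]
    [DecidableEq κ] {c : ℤ} {φ : MultilinearMap Ω (fun _ : κ => V) Ω}
    (hφ : ∃ Δ : Subgroup Γ, Δ.FiniteIndex ∧ ∀ s ∈ Δ, ∀ v,
      φ (fun l => ρ s (v l)) = χ s ^ c * φ v) {X : Module.End Ω V} (hX : X ∈ lieH ρ χ τ) :
    Kills X φ := by
  obtain ⟨Δ, hΔ, hφ⟩ := hφ
  have h1 := hX κ c (((LinearMap.id : Ω →ₗ[Ω] Ω).smulRight h0).compMultilinearMap φ)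
    ⟨Δ, hΔ, fun s hs v => by
      change φ (fun l => ρ s (v l)) • h0 = χ s ^ c • τ s (φ v • h0)
      rw [map_smul, hh0, hφ s hs, mul_smul]⟩
  intro v
  have h2 := h1 v
  change ∑ k, φ (Function.update v k (X (v k))) • h0 = 0 at h2
  rw [← Finset.sum_smul] at h2
  exact (smul_eq_zero.1 h2).resolve_right hh

theorem lie_bil {h0 : H} (hh : h0 ≠ 0) (hh0 : ∀ s, τ s h0 = h0) {c : ℤ}
    {B : V →ₗ[Ω] V →ₗ[Ω] Ω} (hB : ∃ Δ : Subgroup Γ, Δ.FiniteIndex ∧ ∀ s ∈ Δ, ∀ u v,
      B (ρ s u) (ρ s v) = χ s ^ c * B u v) {X : Module.End Ω V} (hX : X ∈ lieH ρ χ τ) (u w : V) :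
    B (X u) w + B u (X w) = 0 := by
  obtain ⟨Δ, hΔ, hB⟩ := hB
  have h1 := kills_scalar ρ χ τ hh hh0 (c := c) (φ := bil2 B) ⟨Δ, hΔ, fun s hs v => by
    rw [bil2_apply, bil2_apply, hB s hs]⟩ hX ![u, w]
  rw [Fin.sum_univ_two, bil2_apply, bil2_apply] at h1
  have e0 : ∀ z : V, Function.update ![u, w] 0 z 1 = w := fun z =>
    Function.update_of_ne Fin.zero_ne_one.symm _ _
  have e1 : ∀ z : V, Function.update ![u, w] 1 z 0 = u := fun z =>
    Function.update_of_ne Fin.zero_ne_one _ _
  rw [Function.update_self, Function.update_self, e0, e1] at h1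
  exact h1

/-- A representation with a decomposition into parts of different weights and pairings. -/
structure Pol {ι : Type} [Fintype ι] (ρ : Representation Ω Γ V) (χ : Γ →* Ω) (w : ι → ℕ)
    (P : ι → Module.End Ω V) (ω : V →ₗ[Ω] V →ₗ[Ω] Ω) : Prop where
  idem : ∀ i v, P i (P i v) = P i v
  orth : ∀ i j, i ≠ j → ∀ v, P i (P j v) = 0
  sum : ∀ v, ∑ i, P i v = v
  comm : ∀ i s v, P i (ρ s v) = ρ s (P i v)
  adj : ∀ i u v, ω (P i u) v = ω u (P i v)
  symm : ∀ i u v, ω (P i u) v = (-1) ^ w i * ω v (P i u)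
  sim : ∀ i s u v, ω (P i (ρ s u)) (ρ s v) = χ s ^ w i * ω (P i u) v
  nondeg : ∀ u, (∀ v, ω u v = 0) → u = 0

section pol

variable {ρ χ τ} {ι : Type} [Fintype ι] {w : ι → ℕ} {P : ι → Module.End Ω V}
  {ω : V →ₗ[Ω] V →ₗ[Ω] Ω} (hP : Pol ρ χ w P ω)

include hP in
theorem Pol.part_bil (i : ι) (Q : Module.End Ω V) {Δ : Subgroup Γ} (hΔ : Δ.FiniteIndex)
    (hQ : ∀ s ∈ Δ, ∀ v, Q (ρ s v) = ρ s (Q v)) :
    ∃ Δ : Subgroup Γ, Δ.FiniteIndex ∧ ∀ s ∈ Δ, ∀ u v,
      (ω.comp (P i * Q)) (ρ s u) (ρ s v) = χ s ^ ((w i : ℕ) : ℤ) * (ω.comp (P i * Q)) u v := by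
  refine ⟨Δ, hΔ, fun s hs u v => ?_⟩
  change ω (P i (Q (ρ s u))) (ρ s v) = χ s ^ ((w i : ℕ) : ℤ) * ω (P i (Q u)) v
  rw [hQ s hs, hP.sim, zpow_natCast]

variable {h0 : H} (hh : h0 ≠ 0) (hh0 : ∀ s, τ s h0 = h0)

include hP hh hh0 in
theorem lie_part (i : ι) {X : Module.End Ω V} (hX : X ∈ lieH ρ χ τ) (u v : V) :
    ω (P i (X u)) v + ω (P i u) (X v) = 0 :=
  lie_bil ρ χ τ hh hh0 (hP.part_bil i 1 (Δ := ⊤) inferInstance fun _ _ _ => rfl) hX u v

include hP hh hh0 in
theorem lie_comm_P {X : Module.End Ω V} (hX : X ∈ lieH ρ χ τ) (i : ι) (v : V) :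
    X (P i v) = P i (X v) := by
  classical
  have h1 : P i (X v) = P i (X (P i v)) := by
    rw [← sub_eq_zero]
    apply hP.nondeg
    intro u
    rw [map_sub, LinearMap.sub_apply]
    have h2 := lie_part hP hh hh0 i hX v u
    have h3 := lie_part hP hh hh0 i hX (P i v) u
    rw [hP.idem] at h3
    linear_combination h2 - h3
  have h2 : ∀ j, j ≠ i → P j (X (P i v)) = 0 := by
    intro j hj
    apply hP.nondeg
    intro u
    have h3 := lie_part hP hh hh0 j hX (P i v) u
    rw [hP.orth j i hj, map_zero, LinearMap.zero_apply, add_zero] at h3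
    exact h3
  rw [h1]
  conv_lhs => rw [← hP.sum (X (P i v))]
  rw [Finset.sum_eq_single i]
  · intro j _ hj
    exact h2 j hj
  · intro h
    exact absurd (Finset.mem_univ i) h

include hP hh hh0 in
theorem lie_skew {X : Module.End Ω V} (hX : X ∈ lieH ρ χ τ) (u v : V) :
    ω (X u) v + ω u (X v) = 0 := by
  have h1 : ∀ i, ω (P i (X u)) v + ω (P i u) (X v) = 0 := fun i => lie_part hP hh hh0 i hX u v
  have h2 := Finset.sum_eq_zero fun i (_ : i ∈ Finset.univ) => h1 i
  rw [Finset.sum_add_distrib] at h2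
  have h3 : ∀ x y, ∑ i, ω (P i x) y = ω x y := by
    intro x y
    conv_rhs => rw [← hP.sum x]
    rw [map_sum, LinearMap.sum_apply]
  rwa [h3, h3] at h2

include hP hh hh0 in
theorem lie_comm {X : Module.End Ω V} (hX : X ∈ lieH ρ χ τ) {Δ : Subgroup Γ}
    (hΔ : Δ.FiniteIndex) {Q : Module.End Ω V} (hQ : ∀ s ∈ Δ, ∀ v, Q (ρ s v) = ρ s (Q v)) (v : V) :
    X (Q v) = Q (X v) := by
  have h1 : ∀ i, P i (X (Q v)) = P i (Q (X v)) := by
    intro i
    rw [← sub_eq_zero]
    apply hP.nondeg
    intro u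
    rw [map_sub, LinearMap.sub_apply]
    have h2 := lie_bil ρ χ τ hh hh0 (hP.part_bil i Q hΔ hQ) hX v u
    have h3 := lie_part hP hh hh0 i hX (Q v) u
    change ω (P i (Q (X v))) u + ω (P i (Q v)) (X u) = 0 at h2
    linear_combination h3 - h2
  rw [← hP.sum (X (Q v)), ← hP.sum (Q (X v))]
  exact Finset.sum_congr rfl fun i _ => h1 i

end pol

end

end Pool.Agent.NH33.Qz
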