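import Pool.Agent.NH33.Qz.Reach
import Pool.Agent.NH33.Qz.Kill

/-!
# The classes are equivalence classes
-/

set_option autoImplicit false
set_option linter.unusedSectionVars false

namespace Pool.Agent.NH33.Qz

open Module Pool.Agent.H204R3.SP

noncomputable section

variable {R : Type*} [Fintype R] [DecidableEq R] {inv : R → R}
  {Ω : Type*} [Field Ω] {V : Type*} [AddCommGroup V] [Module Ω V]
  {e : Basis R Ω V} {jj eps : R → Ω} {ι : Type*} {idx : R → ι} {ω : V →ₗ[Ω] V →ₗ[Ω] Ω}
  {𝔤 : Submodule Ω (Module.End Ω V)}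
  [CharZero Ω] (F : Frame inv e jj eps idx ω) (G : LieData inv e idx ω 𝔤)
  {P : ι → Module.End Ω V} [DecidableEq ι] (hPe : ∀ i x, P i (e x) = if idx x = i then e x else 0)

include F G hPe in
theorem reach_mem {U : Submodule Ω V} (hU : Stab 𝔤 P U) {x z : R} (hx : e x ∈ U)
    (h : Reach e 𝔤 x z) : e z ∈ U := by
  induction h with
  | refl => exact hx
  | tail _ h2 ih =>
    obtain ⟨X, hX, hc⟩ := h2
    exact basis_mem F G hPe hU (hU.lie X hX _ ih) hc

include F G hPe in
theorem eq_span {U : Submodule Ω V} (hU : Stab 𝔤 P U) :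
    U = Submodule.span Ω (e '' {z | e z ∈ U}) := by
  apply le_antisymm
  · intro v hv
    rw [e.mem_span_image]
    intro z hz
    rw [Finset.mem_coe, Finsupp.mem_support_iff] at hz
    exact basis_mem F G hPe hU hv hz
  · rw [Submodule.span_le]
    rintro _ ⟨z, hz, rfl⟩
    exact hz

include hPe in
theorem span_stab {T : Set R} (hT : ∀ x ∈ T, ∀ z, Step e 𝔤 x z → z ∈ T) :
    Stab 𝔤 P (Submodule.span Ω (e '' T)) where
  lie := by
    intro X hX u hu
    induction hu using Submodule.span_induction with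
    | mem u hu =>
      obtain ⟨x, hx, rfl⟩ := hu
      rw [e.mem_span_image]
      intro b hb
      rw [Finset.mem_coe, Finsupp.mem_support_iff] at hb
      exact hT x hx b ⟨X, hX, hb⟩
    | zero => rw [map_zero]; exact Submodule.zero_mem _
    | add a b _ _ ha hb => rw [map_add]; exact Submodule.add_mem _ ha hb
    | smul c a _ ha => rw [map_smul]; exact Submodule.smul_mem _ _ ha
  part := by
    intro i u hu
    induction hu using Submodule.span_induction with
    | mem u hu =>
      obtain ⟨x, hx, rfl⟩ := hu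
      rw [hPe]
      split_ifs
      · exact Submodule.subset_span ⟨x, hx, rfl⟩
      · exact Submodule.zero_mem _
    | zero => rw [map_zero]; exact Submodule.zero_mem _
    | add a b _ _ ha hb => rw [map_add]; exact Submodule.add_mem _ ha hb
    | smul c a _ ha => rw [map_smul]; exact Submodule.smul_mem _ _ ha

theorem mem_of_span {T : Set R} {x : R} (h : e x ∈ Submodule.span Ω (e '' T)) : x ∈ T := by
  rw [e.mem_span_image, e.repr_self] at h
  exact h (by
    rw [Finset.mem_coe, Finsupp.mem_support_iff, Finsupp.single_eq_same]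
    exact one_ne_zero)

theorem exists_minimal (x : R) :
    ∃ y, Reach e 𝔤 x y ∧ ∀ z, Reach e 𝔤 y z → Reach e 𝔤 z y := by
  classical
  let f : R → ℕ := fun y => (Finset.univ.filter (fun z => Reach e 𝔤 y z)).card
  obtain ⟨y, hy, hmin⟩ := Finset.exists_min_image (Finset.univ.filter (fun z => Reach e 𝔤 x z)) f
    ⟨x, by
      rw [Finset.mem_filter]
      exact ⟨Finset.mem_univ _, Relation.ReflTransGen.refl⟩⟩
  rw [Finset.mem_filter] at hy
  refine ⟨y, hy.2, fun z hz => ?_⟩
  have h1 := hmin z (by
    rw [Finset.mem_filter]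
    exact ⟨Finset.mem_univ _, hy.2.trans hz⟩)
  have h2 : (Finset.univ.filter (fun t => Reach e 𝔤 z t)) ⊆
      (Finset.univ.filter (fun t => Reach e 𝔤 y t)) := by
    intro t ht
    rw [Finset.mem_filter] at ht ⊢
    exact ⟨Finset.mem_univ _, hz.trans ht.2⟩
  have h3 := Finset.eq_of_subset_of_card_le h2 h1
  have h4 : y ∈ (Finset.univ.filter (fun t => Reach e 𝔤 z t)) := by
    rw [h3, Finset.mem_filter]
    exact ⟨Finset.mem_univ _, Relation.ReflTransGen.refl⟩
  rw [Finset.mem_filter] at h4
  exact h4.2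

section group

variable {Γ : Type*} [Group Γ] {ρ : Representation Ω Γ V}
  (hconj : ∀ (s : Γ) (X : Module.End Ω V), X ∈ 𝔤 → ρ s * X * ρ s⁻¹ ∈ 𝔤)
  (hPρ : ∀ i s v, P i (ρ s v) = ρ s (P i v))

include hconj hPρ in
theorem map_stab {U : Submodule Ω V} (hU : Stab 𝔤 P U) (s : Γ) : Stab 𝔤 P (U.map (ρ s)) where
  lie := by
    rintro X hX _ ⟨u, hu, rfl⟩
    refine ⟨(ρ s⁻¹ * X * ρ s⁻¹⁻¹) u, hU.lie _ (hconj s⁻¹ X hX) u hu, ?_⟩
    rw [inv_inv, Module.End.mul_apply, Module.End.mul_apply, rho_inv']
  part := by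
    rintro i _ ⟨u, hu, rfl⟩
    exact ⟨P i u, hU.part i u hu, (hPρ i s u).symm⟩

include F G hPe hconj hPρ in
/-- Stable subspaces are stable under a subgroup of finite index. -/
theorem exists_stabilizer {U : Submodule Ω V} (hU : Stab 𝔤 P U) :
    ∃ Δ : Subgroup Γ, Δ.FiniteIndex ∧ ∀ s ∈ Δ, ∀ u ∈ U, ρ s u ∈ U := by
  have hmm : ∀ s t : Γ, U.map (ρ (s * t)) = (U.map (ρ t)).map (ρ s) := by
    intro s t
    rw [map_mul]
    exact Submodule.map_comp (ρ t) (ρ s) U
  have hm1 : U.map (ρ (1 : Γ)) = U := by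
    rw [map_one]
    exact Submodule.map_id U
  let Δ : Subgroup Γ :=
    { carrier := {s | U.map (ρ s) = U}
      one_mem' := hm1
      mul_mem' := by
        intro s t hs ht
        change U.map (ρ (s * t)) = U
        rw [hmm, show U.map (ρ t) = U from ht, show U.map (ρ s) = U from hs]
      inv_mem' := by
        intro s hs
        change U.map (ρ s⁻¹) = U
        conv_lhs => rw [← show U.map (ρ s) = U from hs]
        rw [← hmm, inv_mul_cancel, hm1] }
  have hΔ : Δ.FiniteIndex := by
    let g : Γ → Set R := fun s => {z | e z ∈ U.map (ρ s)}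
    have hg : ∀ s t, g s = g t → U.map (ρ s) = U.map (ρ t) := by
      intro s t h
      rw [eq_span F G hPe (map_stab hconj hPρ hU s), eq_span F G hPe (map_stab hconj hPρ hU t)]
      change Submodule.span Ω (e '' g s) = Submodule.span Ω (e '' g t)
      rw [h]
    have hinj : Function.Injective (fun q : Γ ⧸ Δ => g q.out) := by
      intro q q' h
      have h1 := hg _ _ h
      have h2 : (q.out)⁻¹ * q'.out ∈ Δ := by
        change U.map (ρ ((q.out)⁻¹ * q'.out)) = U
        rw [hmm, ← h1, ← hmm, inv_mul_cancel, hm1]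
      rw [← QuotientGroup.out_eq' q, ← QuotientGroup.out_eq' q']
      exact QuotientGroup.eq.2 h2
    have _ : Finite (Γ ⧸ Δ) := Finite.of_injective _ hinj
    exact Subgroup.finiteIndex_of_finite_quotient
  refine ⟨Δ, hΔ, fun s hs u hu => ?_⟩
  have h1 : U.map (ρ s) = U := hs
  rw [← h1]
  exact ⟨u, hu, rfl⟩

variable [Fintype ι]
  (hss : ∀ U : Submodule Ω V, (∀ s, ∀ u ∈ U, ρ s u ∈ U) →
    ∃ Q : Module.End Ω V, (∀ v, Q v ∈ U) ∧ (∀ u ∈ U, Q u = u) ∧ ∀ s v, Q (ρ s v) = ρ s (Q v))
  (hcomm : ∀ Q : Module.End Ω V, (∀ s v, Q (ρ s v) = ρ s (Q v)) →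
    ∀ X ∈ 𝔤, ∀ v, X (Q v) = Q (X v))
  (hsum : ∀ v, ∑ i, P i v = v) (hidem : ∀ i v, P i (P i v) = P i v)
  (horth : ∀ i j, i ≠ j → ∀ v, P i (P j v) = 0)

include F G hPe hconj hPρ hss hcomm hsum hidem horth in
/-- Semisimplicity: the relation is symmetric. -/
theorem reach_symm {x z : R} (h : Reach e 𝔤 x z) : Reach e 𝔤 z x := by
  classical
  let M : Set R := {y | ∀ z, Reach e 𝔤 y z → Reach e 𝔤 z y}
  suffices hM : ∀ x, x ∈ M from hM x z h
  have hMstep : ∀ x ∈ M, ∀ z, Step e 𝔤 x z → z ∈ M := by
    intro x hx z hz w hw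
    have hz' : Reach e 𝔤 x z := Relation.ReflTransGen.single hz
    exact (hx w (hz'.trans hw)).trans hz'
  set Soc := Submodule.span Ω (e '' M) with hSoc
  have hSocS : Stab 𝔤 P Soc := span_stab hPe hMstep
  -- the socle is stable under the group
  have hg : ∀ s, ∀ u ∈ Soc, ρ s u ∈ Soc := by
    intro s u hu
    induction hu using Submodule.span_induction with
    | zero => rw [map_zero]; exact Submodule.zero_mem _
    | add a b _ _ ha hb => rw [map_add]; exact Submodule.add_mem _ ha hb
    | smul c a _ ha => rw [map_smul]; exact Submodule.smul_mem _ _ ha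
    | mem u hu =>
      obtain ⟨y, hy, rfl⟩ := hu
      -- the subspace of `y`
      let U := Submodule.span Ω (e '' {t | Reach e 𝔤 y t})
      have hU : Stab 𝔤 P U := span_stab hPe fun a ha b hb =>
        (show Reach e 𝔤 y a from ha).trans (Relation.ReflTransGen.single hb)
      have hUs := map_stab hconj hPρ hU s
      have hmem : ρ s (e y) ∈ U.map (ρ s) :=
        ⟨e y, Submodule.subset_span ⟨y, Relation.ReflTransGen.refl, rfl⟩, rfl⟩
      have hle : U.map (ρ s) ≤ Soc := by
        rw [eq_span F G hPe hUs, hSoc]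
        refine Submodule.span_mono (Set.image_mono ?_)
        intro t ht w hw
        -- `e w` is in `ρ s U`
        let U' := Submodule.span Ω (e '' {t | Reach e 𝔤 w t})
        have hU' : Stab 𝔤 P U' := span_stab hPe fun a ha b hb =>
          (show Reach e 𝔤 w a from ha).trans (Relation.ReflTransGen.single hb)
        have hew : e w ∈ U.map (ρ s) := reach_mem F G hPe hUs ht hw
        have hU'le : U' ≤ U.map (ρ s) := by
          rw [Submodule.span_le]
          rintro _ ⟨a, ha, rfl⟩
          exact reach_mem F G hPe hUs hew ha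
        have hU'' := map_stab hconj hPρ hU' s⁻¹
        have hmap : (U.map (ρ s)).map (ρ s⁻¹) = U := by
          rw [← Submodule.map_comp]
          have h1 : (ρ s⁻¹).comp (ρ s) = LinearMap.id := by
            ext v
            exact rho_inv ρ s v
          rw [h1, Submodule.map_id]
        have hle2 : U'.map (ρ s⁻¹) ≤ U := by
          conv_rhs => rw [← hmap]
          exact Submodule.map_mono hU'le
        -- it contains a basis vector
        have hne : ρ s⁻¹ (e w) ≠ 0 := by
          intro h0
          have h1 := congrArg (ρ s) h0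
          rw [rho_inv', map_zero] at h1
          exact e.ne_zero w h1
        obtain ⟨v, hv⟩ : ∃ v, e.repr (ρ s⁻¹ (e w)) v ≠ 0 := by
          by_contra hcon
          push Not at hcon
          apply hne
          rw [← LinearEquiv.map_eq_zero_iff e.repr]
          ext b
          exact hcon b
        have hev : e v ∈ U'.map (ρ s⁻¹) := basis_mem F G hPe hU''
          ⟨e w, Submodule.subset_span ⟨w, Relation.ReflTransGen.refl, rfl⟩, rfl⟩ hv
        have hyv : Reach e 𝔤 y v := mem_of_span (hle2 hev)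
        have hvy : Reach e 𝔤 v y := hy v hyv
        have hUle : U ≤ U'.map (ρ s⁻¹) := by
          rw [Submodule.span_le]
          rintro _ ⟨a, ha, rfl⟩
          exact reach_mem F G hPe hU'' hev (hvy.trans ha)
        have h1 := Submodule.map_mono (f := ρ s) hUle
        have h2 : (U'.map (ρ s⁻¹)).map (ρ s) = U' := by
          rw [← Submodule.map_comp]
          have h1 : (ρ s).comp (ρ s⁻¹) = LinearMap.id := by
            ext v
            exact rho_inv' ρ s v
          rw [h1, Submodule.map_id]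
        rw [h2] at h1
        exact mem_of_span (h1 ht)
      exact hle hmem
  obtain ⟨Q, hQ1, hQ2, hQ3⟩ := hss Soc hg
  -- make it commute with the projections
  let Q' : Module.End Ω V := ∑ i, P i * Q * P i
  have hQ'a : ∀ v, Q' v = ∑ i, P i (Q (P i v)) := by
    intro v
    change (∑ i, P i * Q * P i) v = _
    rw [LinearMap.sum_apply]
    rfl
  have hQ'1 : ∀ v, Q' v ∈ Soc := by
    intro v
    rw [hQ'a]
    exact Submodule.sum_mem _ fun i _ => hSocS.part i _ (hQ1 _)
  have hQ'2 : ∀ u ∈ Soc, Q' u = u := by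
    intro u hu
    rw [hQ'a]
    conv_rhs => rw [← hsum u]
    refine Finset.sum_congr rfl fun i _ => ?_
    rw [hQ2 _ (hSocS.part i u hu), hidem]
  have hQ'3 : ∀ s v, Q' (ρ s v) = ρ s (Q' v) := by
    intro s v
    rw [hQ'a, hQ'a, map_sum]
    refine Finset.sum_congr rfl fun i _ => ?_
    rw [hPρ, hQ3, hPρ]
  have hQ'P : ∀ j v, Q' (P j v) = P j (Q' v) := by
    intro j v
    rw [hQ'a, hQ'a, map_sum, Finset.sum_eq_single j, Finset.sum_eq_single j]
    · rw [hidem, hidem]
    · intro i _ hi
      rw [horth j i (Ne.symm hi)]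
    · intro h
      exact absurd (Finset.mem_univ _) h
    · intro i _ hi
      rw [horth i j hi, map_zero, map_zero]
    · intro h
      exact absurd (Finset.mem_univ _) h
  have hcQ := hcomm Q' hQ'3
  let K := LinearMap.ker Q'
  have hK : Stab 𝔤 P K :=
    { lie := by
        intro X hX u hu
        rw [LinearMap.mem_ker] at hu ⊢
        rw [← hcQ X hX, hu, map_zero]
      part := by
        intro i u hu
        rw [LinearMap.mem_ker] at hu ⊢
        rw [hQ'P, hu, map_zero] }
  intro x
  by_contra hx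
  have hxK : e x ∈ K := by
    have h1 : e x - Q' (e x) ∈ K := by
      rw [LinearMap.mem_ker, map_sub, hQ'2 _ (hQ'1 _), sub_self]
    refine basis_mem F G hPe hK h1 ?_
    have h2 : e.repr (Q' (e x)) x = 0 := by
      by_contra h3
      apply hx
      have h4 := hQ'1 (e x)
      rw [hSoc, e.mem_span_image] at h4
      exact h4 (by
        rw [Finset.mem_coe, Finsupp.mem_support_iff]
        exact h3)
    rw [map_sub, Finsupp.sub_apply, e.repr_self, Finsupp.single_eq_same, h2, sub_zero]
    exact one_ne_zero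
  obtain ⟨y, hxy, hy⟩ := exists_minimal (e := e) (𝔤 := 𝔤) x
  have h1 : e y ∈ K := reach_mem F G hPe hK hxK hxy
  have h2 : e y ∈ Soc := Submodule.subset_span ⟨y, hy, rfl⟩
  rw [LinearMap.mem_ker, hQ'2 _ h2] at h1
  exact e.ne_zero y h1

end group

end

end Pool.Agent.NH33.Qz
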