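import Pool.Agent.NH33.Qz.Main

/-!
# The general theorem, in terms of the summands
-/

set_option autoImplicit false
set_option linter.unusedSectionVars false
set_option linter.deprecated false

namespace Pool.Agent.NH33.Qz

open Module Polynomial TensorProduct Pool.Agent.H204R3.SP Pool.Agent.H204R3.GP

noncomputable section

variable {k : Type*} [Field k] [CharZero k] {Γ : Type*} [Group Γ] {H : Type*} [AddCommGroup H]
  [Module k H] [FiniteDimensional k H] {ι : Type} [Fintype ι] {V : ι → Type*}
  [∀ i, AddCommGroup (V i)] [∀ i, Module k (V i)] [∀ i, FiniteDimensional k (V i)]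
  {ρ : ∀ i, Representation k Γ (V i)} {χ : Γ →* k} {Ψ : Set (Γ →* k)} {w : ι → ℕ}
  {τ : Representation k Γ H}
  {ω : ∀ i, V i →ₗ[k] V i →ₗ[k] k} {γ : Γ}

theorem semi_of_free (hV : ∀ i, IsRealization (ρ i) χ Ψ (w i) (ω i)) (hfree : IsFree ρ χ Ψ w τ γ)
    (i : ι) : IsSemi (ρ i) := by
  classical
  rcases (hV i).semi with h | h
  · exact h
  · refine semi_of_det (K := AlgebraicClosure k) (hV i).symm (hV i).sim (hV i).nondeg γ
      (hfree.separable i) h ?_
    intro n c ψ hψ hrel x hx
    have h1 := hfree.free (fun j => if j = i then n else fun _ => 0) c 1 _ one_ne_zero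
      (Or.inr (Or.inl ⟨ψ, hψ, rfl⟩)) (by
        rw [pow_one, pow_one, ← hrel, Finset.prod_eq_single i]
        · rw [if_pos rfl]
        · intro j _ hj
          rw [if_neg hj]
          simp only [pow_zero, Multiset.map_const', Multiset.prod_replicate, one_pow]
        · intro h
          exact absurd (Finset.mem_univ i) h) i x hx
    simp only [if_true] at h1
    exact h1

theorem generated_of_span [DecidableEq ι] {κ : Type}
    {f : MultilinearMap k (fun _ : κ => ∀ i, V i) H}
    (hf : (fun v => f v) ∈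
      Submodule.span k (ProdF (total ρ) χ τ w (prj (k := k) (V := V)) κ)) :
    IsGenerated ρ χ w τ f := by
  unfold IsGenerated
  refine Submodule.span_mono ?_ hf
  rintro _ ⟨J, _, d, σ, Φ, h, hΦ, hh, rfl⟩
  choose hT i hi halt using hΦ
  let Φ' : ∀ j, MultilinearMap k (fun _ : Fin (d j) => V (i j)) k := fun j =>
    (Φ j).compLinearMap (fun _ => LinearMap.single k V (i j))
  have hΦ' : ∀ (j : J) (v : Fin (d j) → ∀ i, V i), Φ j v = Φ' j (fun a => v a (i j)) := by
    intro j v
    rw [← hi j v]
    rfl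
  refine ⟨J, inferInstance, i, d, σ, Φ', h, fun j => ⟨?_, ?_⟩, hh, ?_⟩
  · obtain ⟨c, Δ, hΔ, h1⟩ := hT j
    refine ⟨c, Δ, hΔ, fun s hs v => ?_⟩
    have h2 := h1 s hs (fun a => Pi.single (i j) (v a))
    rw [hΦ', hΦ'] at h2
    simp only [total_apply, Pi.single_eq_same] at h2
    exact h2
  · rcases halt j with h1 | ⟨h1, h2⟩
    · exact Or.inl h1
    · refine Or.inr ⟨h1, fun v a b hab hne => ?_⟩
      have h3 := h2 (fun a => Pi.single (i j) (v a)) a b (by simp only [hab]) hne
      rw [hΦ'] at h3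
      simp only [Pi.single_eq_same] at h3
      exact h3
  · funext v
    congr 1
    exact Finset.prod_congr rfl fun j _ => hΦ' j _

/-- **The general theorem.** -/
theorem main (hV : ∀ i, IsRealization (ρ i) χ Ψ (w i) (ω i)) (hfree : IsFree ρ χ Ψ w τ γ) :
    (∀ i, IsSemi (ρ i)) ∧
    ∀ (κ : Type) [Finite κ] (f : MultilinearMap k (fun _ : κ => ∀ i, V i) H),
      IsTateForm (total ρ) χ τ f → IsGenerated ρ χ w τ f := by
  classical
  refine ⟨semi_of_free hV hfree, fun κ _ f hf => ?_⟩
  have _ : Fintype κ := Fintype.ofFinite κ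
  obtain ⟨c, Δ, hΔ, h1⟩ := hf
  exact generated_of_span (main_span hV (semi_of_free hV hfree) hfree (c := c) ⟨Δ, hΔ, h1⟩)

end

end Pool.Agent.NH33.Qz
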