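import Pool.Agent.NH33.Qz.Defs2
import Pool.Agent.NH33.Qz.Main2
import Pool.Agent.NH33.Ir.Final

/-!
# Good Frobenius elements have no unexpected relations
-/

set_option autoImplicit false
set_option linter.unusedSectionVars false
set_option linter.deprecated false

namespace Pool.Agent.NH33.Qz

open Module Polynomial NumberField Pool.Agent.TH121.KT Pool.Agent.Y103.Hk Pool.Agent.Y103.Sh
  Pool.Agent.NH33.Ir

noncomputable section

section num

variable {E : Type} [Field E] [NumberField E] {k : Type*} [Field k] [CharZero k] {K : Type*}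
  [Field K] [Algebra k K] [IsAlgClosed K] [CharZero K]

theorem hom_ext_of_gen {π : E} (hπ : IntermediateField.adjoin ℚ {π} = ⊤) {A : Type*} [Field A]
    [CharZero A] {σ τ : E →+* A} (h : σ π = τ π) : σ = τ := by
  let L : IntermediateField ℚ E :=
    { RingHom.eqLocusField σ τ with
      algebraMap_mem' := fun x => by
        change σ (algebraMap ℚ E x) = τ (algebraMap ℚ E x)
        rw [eq_ratCast (algebraMap ℚ E) x, map_ratCast, map_ratCast] }
  have h1 : IntermediateField.adjoin ℚ {π} ≤ L := by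
    rw [IntermediateField.adjoin_simple_le_iff]
    exact h
  rw [hπ] at h1
  ext x
  exact h1 (IntermediateField.mem_top (x := x))

theorem aroots_minpoly {π : E} (hπ : IntermediateField.adjoin ℚ {π} = ⊤) :
    ((minpoly ℚ π).map (algebraMap ℚ k)).aroots K =
      (Finset.univ : Finset (E →+* K)).val.map (fun σ => σ π) := by
  have hint : IsIntegral ℚ π := Algebra.IsIntegral.isIntegral π
  have h1 : ((minpoly ℚ π).map (algebraMap ℚ k)).aroots K =
      ((minpoly ℚ π).map (algebraMap ℚ K)).roots := by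
    rw [aroots, Polynomial.map_map]
    congr 2
    exact Subsingleton.elim _ _
  have hnod1 : ((minpoly ℚ π).map (algebraMap ℚ K)).roots.Nodup :=
    nodup_roots (minpoly.irreducible hint).separable.map
  have hnod2 : ((Finset.univ : Finset (E →+* K)).val.map (fun σ => σ π)).Nodup :=
    Finset.univ.nodup.map fun σ τ h => hom_ext_of_gen hπ h
  rw [h1, Multiset.Nodup.ext hnod1 hnod2]
  intro x
  have h2 := Embeddings.range_eval_eq_rootSet_minpoly E K π
  have h3 : x ∈ ((minpoly ℚ π).map (algebraMap ℚ K)).roots ↔ x ∈ (minpoly ℚ π).rootSet K := by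
    rw [mem_rootSet, mem_roots (Polynomial.map_ne_zero (minpoly.ne_zero hint)), IsRoot,
      eval_map_algebraMap]
    exact ⟨fun h => ⟨minpoly.ne_zero hint, h⟩, fun h => h.2⟩
  rw [h3, ← h2, Multiset.mem_map]
  constructor
  · rintro ⟨σ, hσ⟩
    exact ⟨σ, Finset.mem_univ σ, hσ⟩
  · rintro ⟨σ, _, hσ⟩
    exact ⟨σ, hσ⟩

end num

/-- Two numbers with the same minimal polynomial generate fields with the same Galois closure. -/
theorem closure_eq_of_minpoly {E E' : Type} [Field E] [NumberField E] [Field E'] [NumberField E']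
    {π : E} {π' : E'} (hπ : IntermediateField.adjoin ℚ {π} = ⊤)
    (hπ' : IntermediateField.adjoin ℚ {π'} = ⊤) (h : minpoly ℚ π = minpoly ℚ π') :
    galoisClosure E = galoisClosure E' := by
  have key : ∀ {E E' : Type} [Field E] [NumberField E] [Field E'] [NumberField E']
      {π : E} {π' : E'}, IntermediateField.adjoin ℚ {π} = ⊤ →
      IntermediateField.adjoin ℚ {π'} = ⊤ → minpoly ℚ π = minpoly ℚ π' →
      galoisClosure E ≤ galoisClosure E' := by
    intro E E' _ _ _ _ π π' hπ hπ' h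
    refine iSup_le fun σ => ?_
    have h1 : σ π ∈ (minpoly ℚ π').rootSet (AlgebraicClosure ℚ) := by
      rw [← h, mem_rootSet]
      refine ⟨minpoly.ne_zero (Algebra.IsIntegral.isIntegral π), ?_⟩
      rw [aeval_algHom_apply, minpoly.aeval, map_zero]
    rw [← Embeddings.range_eval_eq_rootSet_minpoly E' (AlgebraicClosure ℚ) π'] at h1
    obtain ⟨σ', hσ'⟩ := h1
    let σ'' : E' →ₐ[ℚ] AlgebraicClosure ℚ := σ'.toRatAlgHom
    have h2 : σ.fieldRange = σ''.fieldRange := by
      rw [AlgHom.fieldRange_eq_map, AlgHom.fieldRange_eq_map, ← hπ, ← hπ',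
        IntermediateField.adjoin_map, IntermediateField.adjoin_map, Set.image_singleton,
        Set.image_singleton]
      congr 2
      exact hσ'.symm
    rw [h2]
    exact le_iSup (fun σ : E' →ₐ[ℚ] AlgebraicClosure ℚ => σ.fieldRange) σ''
  exact le_antisymm (key hπ hπ' h) (key hπ' hπ h.symm)

/-- Foreign numbers are preserved by homomorphisms of fields. -/
theorem IsForeign.map' {Ω Ω' : Type*} [Field Ω] [CharZero Ω] [Field Ω'] [CharZero Ω'] {p : ℕ}
    [Fact p.Prime] {place : AlgebraicClosure ℚ →+* PadicAlgCl p} {r : ℕ} {E : Fin r → Type}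
    [∀ j, Field (E j)] [∀ j, NumberField (E j)] {β : Ω} (h : IsForeign place E β) (φ : Ω →+* Ω') :
    IsForeign place E (φ β) := by
  have key : ∀ Q : Polynomial ℚ, aeval β Q = 0 → aeval (φ β) Q = 0 := by
    intro Q hQ
    have h1 := Polynomial.aeval_algHom_apply φ.toRatAlgHom β Q
    rw [hQ, map_zero] at h1
    exact h1
  rcases h with ⟨L, h1, h2, Q, hQ, h3, h4⟩ | ⟨Q, hQ, h1, h2⟩
  · exact Or.inl ⟨L, h1, h2, Q, hQ, h3, key Q h4⟩
  · exact Or.inr ⟨Q, hQ, key Q h1, h2⟩

theorem IsForeignWide.map {Ω Ω' : Type*} [Field Ω] [CharZero Ω] [Field Ω'] [CharZero Ω'] {p : ℕ}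
    [Fact p.Prime] {place : AlgebraicClosure ℚ →+* PadicAlgCl p} {r : ℕ} {E : Fin r → Type}
    [∀ j, Field (E j)] [∀ j, NumberField (E j)] {β : Ω} (h : IsForeignWide place E β)
    (φ : Ω →+* Ω') : IsForeignWide place E (φ β) := by
  rcases h with ⟨Q, hQ, h1, h2⟩ | ⟨t, l, ht, h1, h2⟩
  · refine Or.inl ⟨Q, hQ, ?_, h2⟩
    have h3 := Polynomial.aeval_algHom_apply φ.toRatAlgHom β Q
    rw [h1, map_zero] at h3
    exact h3
  · refine Or.inr ⟨t, l.map φ, ht, ?_, fun δ hδ => ?_⟩
    · rw [← map_pow, h1, map_list_prod]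
    · obtain ⟨δ', hδ', rfl⟩ := List.mem_map.1 hδ
      exact IsForeign.map' (h2 δ' hδ') φ

section crit

variable {k : Type*} [Field k] [CharZero k] {Γ : Type*} [Group Γ] {H : Type*} [AddCommGroup H]
  [Module k H] [FiniteDimensional k H] {ι : Type} [Fintype ι] [DecidableEq ι] {V : ι → Type*}
  [∀ i, AddCommGroup (V i)] [∀ i, Module k (V i)] [∀ i, FiniteDimensional k (V i)]
  {ρ : ∀ i, Representation k Γ (V i)} {χ : Γ →* k} {w : ι → ℕ} {τ : Representation k Γ H} {γ : Γ}
  {p a : ℕ} [Fact p.Prime] {place : AlgebraicClosure ℚ →+* PadicAlgCl p}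
  {r : ℕ} {E : Fin r → Type} [∀ j, Field (E j)] [∀ j, NumberField (E j)]
  [∀ j, IsCMField (E j)] {own : Fin r → ι} {π : ∀ j, E j} {Ψ : Set (Γ →* k)}
  (G : IsGoodFrobenius ρ χ w γ p a place E own π)

/-- the normalised numbers -/
def alp (p a : ℕ) (w : ι → ℕ) (own : Fin r → ι) (π : ∀ j, E j) (j : Fin r) : E j :=
  π j ^ 2 / (p : E j) ^ (a * w (own j))

include G in
theorem alp_unit (j : Fin r) (φ : E j →+* ℂ) : ‖φ (alp p a w own π j)‖ = 1 := by
  have hp : (p : ℂ) ≠ 0 := by exact_mod_cast (Fact.out : p.Prime).ne_zero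
  have h1 := congrArg φ (G.weil j)
  rw [map_mul, IsCMField.complexEmbedding_complexConj, map_pow, map_natCast, Complex.mul_conj,
    Complex.normSq_eq_norm_sq] at h1
  have h2 := congrArg norm h1
  rw [Complex.norm_real, norm_pow, norm_pow, norm_norm] at h2
  unfold alp
  rw [map_div₀, map_pow, map_pow, map_natCast, norm_div, norm_pow, norm_pow, h2]
  exact div_self (pow_ne_zero _ (norm_ne_zero_iff.2 hp))

include G in
theorem pi_ne (j : Fin r) : π j ≠ 0 := by
  intro h0
  have h1 := G.weil j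
  rw [h0, zero_mul] at h1
  have hp : (p : E j) ≠ 0 := by exact_mod_cast (Fact.out : p.Prime).ne_zero
  exact pow_ne_zero _ hp h1.symm

include G in
theorem pi_sq_ne (j : Fin r) {A : Type*} [Field A] [CharZero A] (σ : E j →+* A) :
    (σ (π j)) ^ 2 ≠ (p : A) ^ (a * w (own j)) := by
  intro h
  have h1 : π j ^ 2 = (p : E j) ^ (a * w (own j)) := by
    apply σ.injective
    rw [map_pow, map_pow, map_natCast]
    exact h
  obtain ⟨σ', hσ'⟩ := G.slope j
  apply hσ'
  have hp : (p : E j) ≠ 0 := by exact_mod_cast (Fact.out : p.Prime).ne_zero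
  rw [h1, div_self (pow_ne_zero _ hp), map_one, map_one, norm_one]

include G in
theorem roots_char (i : ι) : ∃ Q : Polynomial k,
    (Q = 1 ∨ ∃ b, b ^ 2 = χ γ ^ w i ∧ Q = X - C b) ∧
    (ρ i γ).charpoly.aroots (AlgebraicClosure k) = (∑ j ∈ Finset.univ.filter (fun j => own j = i),
      (Finset.univ : Finset (E j →+* (AlgebraicClosure k))).val.map (fun σ => σ (π j))) + Q.aroots (AlgebraicClosure k) := by
  obtain ⟨Q, hQ, h⟩ := G.charpoly i
  refine ⟨Q, hQ, ?_⟩
  have hQ0 : Q ≠ 0 := by
    rcases hQ with h | ⟨b, _, h⟩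
    · rw [h]; exact one_ne_zero
    · rw [h]; exact X_sub_C_ne_zero b
  have hm : ∀ j, (minpoly ℚ (π j)).map (algebraMap ℚ k) ≠ 0 := fun j =>
    Polynomial.map_ne_zero (minpoly.ne_zero (Algebra.IsIntegral.isIntegral (π j)))
  have hprod : (∏ j ∈ Finset.univ.filter (fun j => own j = i),
      (minpoly ℚ (π j)).map (algebraMap ℚ k)) ≠ 0 := Finset.prod_ne_zero_iff.2 fun j _ => hm j
  rw [h, aroots_mul (mul_ne_zero hprod hQ0)]
  congr 1
  rw [aroots, Polynomial.map_prod, roots_prod]
  · change ∑ j ∈ Finset.univ.filter (fun j => own j = i),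
      ((minpoly ℚ (π j)).map (algebraMap ℚ k)).aroots (AlgebraicClosure k) = _
    exact Finset.sum_congr rfl fun j _ => aroots_minpoly (G.generates j)
  · rw [← Polynomial.map_prod]
    exact Polynomial.map_ne_zero hprod

/-- the eigenvalues -/
theorem mem_roots_cases (i : ι) {x : (AlgebraicClosure k)} (hx : x ∈ (ρ i γ).charpoly.aroots (AlgebraicClosure k))
    (G : IsGoodFrobenius ρ χ w γ p a place E own π) :
    (∃ j, own j = i ∧ ∃ σ : E j →+* (AlgebraicClosure k), σ (π j) = x) ∨ x ^ 2 = algebraMap k (AlgebraicClosure k) (χ γ) ^ w i := by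
  obtain ⟨Q, hQ, h⟩ := roots_char G i
  rw [h, Multiset.mem_add] at hx
  rcases hx with hx | hx
  · left
    rw [Multiset.mem_sum] at hx
    obtain ⟨j, hj, hx⟩ := hx
    rw [Multiset.mem_map] at hx
    obtain ⟨σ, _, hσ⟩ := hx
    exact ⟨j, (Finset.mem_filter.1 hj).2, σ, hσ⟩
  · right
    rcases hQ with h | ⟨b, hb, h⟩
    · rw [h, aroots_one] at hx
      exact absurd hx (Multiset.notMem_zero x)
    · rw [h, aroots_X_sub_C, Multiset.mem_singleton] at hx
      rw [hx, ← map_pow, hb, map_pow]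

include G in
theorem card_K : algebraMap k (AlgebraicClosure k) (χ γ) = (p : (AlgebraicClosure k)) ^ a := by
  rw [G.card, map_pow, map_natCast]

/-- the product over the eigenvalues, squared -/
theorem prod_sq (i : ι) (n : (AlgebraicClosure k) → ℕ) (G : IsGoodFrobenius ρ χ w γ p a place E own π) :
    ∃ A : ℕ, (((ρ i γ).charpoly.aroots (AlgebraicClosure k)).map (fun x => x ^ n x)).prod ^ 2 =
      (∏ j ∈ Finset.univ.filter (fun j => own j = i), ∏ σ : E j →+* (AlgebraicClosure k),
        (σ (alp p a w own π j)) ^ n (σ (π j))) * (p : (AlgebraicClosure k)) ^ A := by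
  have hp : (p : (AlgebraicClosure k)) ≠ 0 := by exact_mod_cast (Fact.out : p.Prime).ne_zero
  obtain ⟨Q, hQ, h⟩ := roots_char G i
  have h1 : ∃ A : ℕ, ((Q.aroots (AlgebraicClosure k)).map (fun x => x ^ n x)).prod ^ 2 = (p : (AlgebraicClosure k)) ^ A := by
    rcases hQ with h | ⟨b, hb, h⟩
    · refine ⟨0, ?_⟩
      rw [h, aroots_one, Multiset.map_zero, Multiset.prod_zero, one_pow, pow_zero]
    · refine ⟨a * w i * n (algebraMap k (AlgebraicClosure k) b), ?_⟩
      rw [h, aroots_X_sub_C, Multiset.map_singleton, Multiset.prod_singleton, ← pow_mul,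
        mul_comm (n _) 2, pow_mul, ← map_pow, hb, map_pow, card_K G, ← pow_mul, ← pow_mul,
        ← mul_assoc]
  obtain ⟨A, hA⟩ := h1
  refine ⟨(∑ j ∈ Finset.univ.filter (fun j => own j = i), ∑ σ : E j →+* (AlgebraicClosure k),
    a * w (own j) * n (σ (π j))) + A, ?_⟩
  rw [h, Multiset.map_add, Multiset.prod_add, mul_pow, hA, pow_add, ← mul_assoc]
  congr 1
  have h2 : ((∑ j ∈ Finset.univ.filter (fun j => own j = i),
      (Finset.univ : Finset (E j →+* (AlgebraicClosure k))).val.map (fun σ => σ (π j))).map (fun x => x ^ n x)).prod =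
      ∏ j ∈ Finset.univ.filter (fun j => own j = i), ∏ σ : E j →+* (AlgebraicClosure k), (σ (π j)) ^ n (σ (π j)) := by
    change (Multiset.mapAddMonoidHom (fun x : (AlgebraicClosure k) => x ^ n x) (∑ j ∈ Finset.univ.filter
      (fun j => own j = i), (Finset.univ : Finset (E j →+* (AlgebraicClosure k))).val.map (fun σ => σ (π j)))).prod = _
    rw [map_sum, Multiset.prod_sum]
    refine Finset.prod_congr rfl fun j _ => ?_
    rw [Multiset.coe_mapAddMonoidHom, Multiset.map_map]
    rfl
  rw [h2, ← Finset.prod_pow, ← Finset.prod_pow_eq_pow_sum, ← Finset.prod_mul_distrib]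
  refine Finset.prod_congr rfl fun j _ => ?_
  rw [← Finset.prod_pow, ← Finset.prod_pow_eq_pow_sum, ← Finset.prod_mul_distrib]
  refine Finset.prod_congr rfl fun σ _ => ?_
  unfold alp
  rw [map_div₀, map_pow, map_pow, map_natCast, div_pow, ← pow_mul, ← pow_mul, ← pow_mul,
    mul_comm (n _) 2, div_mul_cancel₀]
  exact pow_ne_zero _ hp

include G in
/-- **The relations.** -/
theorem free_rel (hH : ∀ β ∈ (τ γ).charpoly.aroots (AlgebraicClosure k), IsForeignWide place E β)
    (hΨ : ∀ ψ ∈ Ψ, IsForeignWide place E (ψ γ)) (n : ι → (AlgebraicClosure k) → ℕ) (c : ℤ) (N : ℕ) (β : (AlgebraicClosure k))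
    (hN : N ≠ 0)
    (hβ : β = 1 ∨ (∃ ψ ∈ Ψ, β = algebraMap k _ (ψ γ)) ∨ β ∈ (τ γ).charpoly.aroots (AlgebraicClosure k))
    (hrel : (∏ i, (((ρ i γ).charpoly.aroots (AlgebraicClosure k)).map (fun x => x ^ n i x)).prod) ^ N =
      (algebraMap k _ (χ γ) ^ c * β) ^ N) (j : Fin r) (σ : E j →+* (AlgebraicClosure k)) :
    n (own j) (σ (π j)) = n (own j) (cj σ (π j)) := by
  classical
  have hp : (p : (AlgebraicClosure k)) ≠ 0 := by exact_mod_cast (Fact.out : p.Prime).ne_zero
  choose A hA using fun i => prod_sq i (n i) G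
  let m : ∀ j, (E j →+* (AlgebraicClosure k)) → ℕ := fun j σ => n (own j) (σ (π j))
  have h1 : (∏ i, (((ρ i γ).charpoly.aroots (AlgebraicClosure k)).map (fun x => x ^ n i x)).prod) ^ 2 =
      (∏ j, ∏ σ : E j →+* (AlgebraicClosure k), (σ (alp p a w own π j)) ^ m j σ) * (p : (AlgebraicClosure k)) ^ (∑ i, A i) := by
    rw [← Finset.prod_pow, Finset.prod_congr rfl (fun i _ => hA i), Finset.prod_mul_distrib,
      Finset.prod_pow_eq_pow_sum]
    congr 1
    rw [← Finset.prod_fiberwise (s := Finset.univ) (g := own)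
      (f := fun j => ∏ σ : E j →+* (AlgebraicClosure k), (σ (alp p a w own π j)) ^ m j σ)]
    refine Finset.prod_congr rfl fun i _ => Finset.prod_congr rfl fun j hj => ?_
    refine Finset.prod_congr rfl fun σ _ => ?_
    have h2 : own j = i := (Finset.mem_filter.1 hj).2
    simp only [m]
    rw [h2]
  have hα0 : ∀ j (σ : E j →+* (AlgebraicClosure k)), σ (alp p a w own π j) ≠ 0 := fun j σ =>
    (map_ne_zero σ).2 (alpha_ne (alp_unit G j))
  set P := ∏ j, ∏ σ : E j →+* (AlgebraicClosure k), (σ (alp p a w own π j)) ^ m j σ with hP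
  have hP0 : P ≠ 0 := Finset.prod_ne_zero_iff.2 fun j _ => Finset.prod_ne_zero_iff.2 fun σ _ =>
    pow_ne_zero _ (hα0 j σ)
  have h2 : P ^ N * (p : (AlgebraicClosure k)) ^ ((∑ i, A i) * N) = (p : (AlgebraicClosure k)) ^ (a * c * (2 * N : ℕ) : ℤ) * β ^ (2 * N) := by
    have h3 : ((∏ i, (((ρ i γ).charpoly.aroots (AlgebraicClosure k)).map (fun x => x ^ n i x)).prod) ^ N) ^ 2 =
        ((algebraMap k (AlgebraicClosure k) (χ γ) ^ c * β) ^ N) ^ 2 := by rw [hrel]
    rw [← pow_mul, mul_comm N 2, pow_mul, h1, mul_pow, ← pow_mul, ← pow_mul, mul_comm N 2, mul_pow,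
      card_K G] at h3
    rw [h3]
    congr 1
    rw [← zpow_natCast (p : (AlgebraicClosure k)) a, ← zpow_natCast _ (2 * N), ← zpow_mul, ← zpow_mul, mul_assoc]
  have hβ0 : β ≠ 0 := by
    rintro rfl
    rw [zero_pow (mul_ne_zero two_ne_zero hN), mul_zero] at h2
    exact mul_ne_zero (pow_ne_zero _ hP0) (pow_ne_zero _ hp) h2
  -- the conjugate product
  let m' : ∀ j, (E j →+* (AlgebraicClosure k)) → ℕ := fun j σ => m j (cj σ)
  have h3 : (∏ j, ∏ σ : E j →+* (AlgebraicClosure k), (σ (alp p a w own π j)) ^ (N * m' j σ)) = (P ^ N)⁻¹ := by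
    rw [hP, ← Finset.prod_pow, ← Finset.prod_inv_distrib]
    refine Finset.prod_congr rfl fun j _ => ?_
    rw [← Finset.prod_pow, ← Finset.prod_inv_distrib]
    have hb : Function.Bijective (fun σ : E j →+* (AlgebraicClosure k) => cj σ) :=
      Function.Involutive.bijective (fun σ => cj_cj σ)
    refine Fintype.prod_equiv (Equiv.ofBijective _ hb) _ _ fun σ => ?_
    change _ = (((cj σ) (alp p a w own π j) ^ m j (cj σ)) ^ N)⁻¹
    rw [cj_val (alp_unit G j), ← pow_mul, inv_pow, inv_inv, mul_comm N]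
  have h4 : (∏ j, ∏ σ : E j →+* (AlgebraicClosure k), (σ (alp p a w own π j)) ^ (N * m' j σ)) * β ^ (2 * N) =
      (((p : ℚ) ^ ((∑ i, A i) * N : ℕ) * ((p : ℚ) ^ (a * c * (2 * N : ℕ) : ℤ))⁻¹ : ℚ) : (AlgebraicClosure k)) := by
    rw [h3]
    push_cast
    have h5 : (p : (AlgebraicClosure k)) ^ (a * c * (2 * N : ℕ) : ℤ) ≠ 0 := zpow_ne_zero _ hp
    rw [inv_mul_eq_iff_eq_mul₀ (pow_ne_zero _ hP0), ← mul_assoc, h2]
    push_cast
    push_cast at h5
    field_simp
  have hu : ∀ j (φ : E j →+* ℂ), ‖φ (alp p a w own π j)‖ = 1 := fun j φ => alp_unit G j φ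
  have T := (famOK_of_good G.field G.different hu G.slope).triv
  have h5 : m' j σ = m' j (cj σ) := by
    have hβw : β = 1 ∨ IsForeignWide place E β := by
      rcases hβ with h | ⟨ψ, hψ, rfl⟩ | h
      · exact Or.inl h
      · exact Or.inr ((hΨ ψ hψ).map (algebraMap k (AlgebraicClosure k)))
      · exact Or.inr (hH β h)
    rcases hβw with rfl | hβw
    · exact balanced_closed T (fun _ => Nat.pos_of_ne_zero hN)
        (ν := (1 : (AlgebraicClosure k))) ⟨1, [], Nat.one_pos, by simp, fun β hβ => absurd hβ List.not_mem_nil⟩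
        one_ne_zero h4 j σ
    · rcases hβw with hs | ⟨t, l, ht, hl, hf⟩
      · exact balanced_small_closed T (fun j => irreducible_of_good (G.field j))
          (fun _ => Nat.pos_of_ne_zero hN) hs hβ0 h4 j σ
      · refine balanced_closed T (fun _ => Nat.pos_of_ne_zero hN)
          (ν := β) ⟨t, l, ht, hl, fun δ hδ => ?_⟩ hβ0 h4 j σ
        rcases hf δ hδ with ⟨L, h1, h2, h3⟩ | ⟨Q, hQ, hQβ, hdeg⟩
        · exact ⟨L, ⟨h1, h2⟩, h3⟩
        · refine ⟨rootField Q, ⟨rootField_stable Q, fun i => ?_⟩, Q, hQ, ?_, hQβ⟩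
          · obtain ⟨ℓ, hℓ, h1, h2⟩ := hdeg i
            exact notContained_rootField hℓ h1 h2
          · intro h hh δ' hδ'
            rw [hh δ' (mem_rootField hQ hδ')]
  simp only [m', m, cj_cj] at h5
  exact h5.symm

include G in
/-- **Good Frobenius elements have no unexpected relations.** -/
theorem free_of_good (hH : ∀ β ∈ (τ γ).charpoly.aroots (AlgebraicClosure k), IsForeignWide place E β)
    (hΨ : ∀ ψ ∈ Ψ, IsForeignWide place E (ψ γ)) : IsFree ρ χ Ψ w τ γ where
  separable := fun i => by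
    obtain ⟨Q, hQ, h⟩ := G.charpoly i
    have hirr : ∀ j, Irreducible (minpoly ℚ (π j)) := fun j =>
      minpoly.irreducible (Algebra.IsIntegral.isIntegral (π j))
    rw [h]
    refine Separable.mul ?_ ?_ ?_
    · refine separable_prod' (fun j _ j' _ hne => ?_) (fun j _ => (hirr j).separable.map)
      rcases (hirr j).isCoprime_or_dvd (minpoly ℚ (π j')) with h1 | h1
      · exact h1.map (Polynomial.mapRingHom (algebraMap ℚ k))
      · exfalso
        apply G.different j j' hne
        apply closure_eq_of_minpoly (G.generates j) (G.generates j')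
        have h2 := (hirr j).associated_of_dvd (hirr j') h1
        exact eq_of_monic_of_associated (minpoly.monic (Algebra.IsIntegral.isIntegral (π j)))
          (minpoly.monic (Algebra.IsIntegral.isIntegral (π j'))) h2
    · rcases hQ with h | ⟨b, _, h⟩
      · rw [h]; exact separable_one
      · rw [h]; exact separable_X_sub_C
    · rcases hQ with h | ⟨b, hb, h⟩
      · rw [h]; exact isCoprime_one_right
      · rw [h]
        apply IsCoprime.symm
        rcases (irreducible_X_sub_C b).isCoprime_or_dvd (∏ j ∈ Finset.univ.filter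
          (fun j => own j = i), (minpoly ℚ (π j)).map (algebraMap ℚ k)) with h1 | h1
        · exact h1
        · exfalso
          rw [dvd_iff_isRoot, IsRoot, eval_prod, Finset.prod_eq_zero_iff] at h1
          obtain ⟨j, hj, h2⟩ := h1
          have hji : own j = i := (Finset.mem_filter.1 hj).2
          have h3 : algebraMap k (AlgebraicClosure k) b ∈ ((minpoly ℚ (π j)).map (algebraMap ℚ k)).aroots (AlgebraicClosure k) := by
            rw [mem_aroots]
            refine ⟨Polynomial.map_ne_zero (minpoly.ne_zero (Algebra.IsIntegral.isIntegral _)), ?_⟩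
            rw [aeval_algebraMap_apply, coe_aeval_eq_eval, h2, map_zero]
          rw [aroots_minpoly (G.generates j), Multiset.mem_map] at h3
          obtain ⟨σ, _, hσ⟩ := h3
          apply pi_sq_ne G j σ
          rw [hσ, ← map_pow, hb, map_pow, card_K G, ← pow_mul, hji]
  one := fun i x hx y hy hx2 hy2 => by
    obtain ⟨Q, hQ, h⟩ := roots_char G i
    have key : ∀ z ∈ (ρ i γ).charpoly.aroots (AlgebraicClosure k), z ^ 2 = algebraMap k (AlgebraicClosure k) (χ γ) ^ w i →
        z ∈ Q.aroots (AlgebraicClosure k) := by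
      intro z hz hz2
      rw [h, Multiset.mem_add] at hz
      rcases hz with hz | hz
      · exfalso
        rw [Multiset.mem_sum] at hz
        obtain ⟨j, hj, hz⟩ := hz
        rw [Multiset.mem_map] at hz
        obtain ⟨σ, _, hσ⟩ := hz
        have hji : own j = i := (Finset.mem_filter.1 hj).2
        apply pi_sq_ne G j σ
        rw [hσ, hz2, card_K G, ← pow_mul, hji]
      · exact hz
    have h1 := key x hx hx2
    have h2 := key y hy hy2
    rcases hQ with h | ⟨b, hb, h⟩
    · rw [h, aroots_one] at h1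
      exact absurd h1 (Multiset.notMem_zero x)
    · rw [h, aroots_X_sub_C, Multiset.mem_singleton] at h1 h2
      rw [h1, h2]
  free := fun n c N β hN hβ hrel i x hx => by
    have hq : algebraMap k (AlgebraicClosure k) (χ γ) ≠ 0 := (map_ne_zero (algebraMap k (AlgebraicClosure k))).2 (chi_ne χ γ)
    rcases mem_roots_cases i hx G with ⟨j, hji, σ, hσ⟩ | hx2
    · subst hji
      have h1 := free_rel G hH hΨ n c N β hN hβ hrel j σ
      have h2 : algebraMap k (AlgebraicClosure k) (χ γ) ^ w (own j) / x = cj σ (π j) := by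
        have h3 := congrArg σ (G.weil j)
        rw [map_mul, map_pow, map_natCast] at h3
        have h4 : σ (π j) ≠ 0 := (map_ne_zero σ).2 (pi_ne G j)
        rw [card_K G, ← pow_mul, ← h3, hσ, cj_apply]
        rw [hσ] at h4
        exact mul_div_cancel_left₀ _ h4
      rw [h2, ← h1, hσ]
    · have hx0 : x ≠ 0 := by
        rintro rfl
        rw [zero_pow two_ne_zero] at hx2
        exact pow_ne_zero _ hq hx2.symm
      rw [← hx2, pow_two, mul_div_cancel_right₀ _ hx0]

end crit

end

end Pool.Agent.NH33.Qz
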