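import Mathlib

/-!
# One Frobenius and the Tate classes on products of several varieties: definitions
-/

set_option autoImplicit false

namespace Pool.Agent.NH33.Qz

noncomputable section

open Module Polynomial

/-- Every stable subspace has a stable complement (the representation is semisimple). -/
def IsSemi {k V Γ : Type*} [Field k] [AddCommGroup V] [Module k V] [Group Γ]
    (ρ : Representation k Γ V) : Prop :=
  ∀ U : Submodule k V, (∀ s, ∀ u ∈ U, ρ s u ∈ U) →
    ∃ U' : Submodule k V, (∀ s, ∀ u ∈ U', ρ s u ∈ U') ∧ IsCompl U U'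

/-- The determinants of the stable subspaces are, up to characters of finite order, products of powers
of `χ` and of characters in the set `Ψ`: some power of the determinant is a product of a power of `χ`
and of a character in `Ψ`. -/
def HasDeterminants {k V Γ : Type*} [Field k] [AddCommGroup V] [Module k V] [Group Γ]
    (ρ : Representation k Γ V) (χ : Γ →* k) (Ψ : Set (Γ →* k)) : Prop :=
  ∀ (U : Submodule k V) (hU : ∀ s, ∀ u ∈ U, ρ s u ∈ U), ∃ (N : ℕ) (c : ℤ), N ≠ 0 ∧
    ∃ ψ ∈ Ψ, ∀ s, LinearMap.det ((ρ s).restrict (hU s)) ^ N = χ s ^ c * ψ s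

/-- The `ℓ`-adic realization of (a summand of) the cohomology of degree `w` of a smooth projective
variety: a nondegenerate pairing `ω`, symmetric or alternating according to the parity of `w`, whose
values are multiplied by `χ ^ w`, and semisimplicity, or the weaker condition on determinants. -/
structure IsRealization {k V Γ : Type*} [Field k] [AddCommGroup V] [Module k V] [Group Γ]
    (ρ : Representation k Γ V) (χ : Γ →* k) (Ψ : Set (Γ →* k)) (w : ℕ)
    (ω : V →ₗ[k] V →ₗ[k] k) : Prop where
  symm : ∀ u v, ω u v = (-1) ^ w * ω v u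
  sim : ∀ s u v, ω (ρ s u) (ρ s v) = χ s ^ w * ω u v
  nondeg : ∀ u, (∀ v, ω u v = 0) → u = 0
  semi : IsSemi ρ ∨ HasDeterminants ρ χ Ψ

/-- The direct sum of representations. -/
def total {k Γ : Type*} [Field k] [Group Γ] {ι : Type*} {V : ι → Type*}
    [∀ i, AddCommGroup (V i)] [∀ i, Module k (V i)]
    (ρ : ∀ i, Representation k Γ (V i)) : Representation k Γ (∀ i, V i) where
  toFun s := LinearMap.pi fun i => (ρ i s).comp (LinearMap.proj i)
  map_one' := by
    ext v i
    rw [LinearMap.pi_apply, map_one]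
    rfl
  map_mul' s t := by
    ext v i
    rw [LinearMap.pi_apply, map_mul]
    rfl

/-- `f` is a *Tate form* on the representation `ρ` with values in `τ`: for some integer `c` a subgroup
of finite index satisfies `f (s v) = χ(s) ^ c • s f (v)`. -/
def IsTateForm {k V H Γ : Type*} [Field k] [AddCommGroup V] [Module k V] [AddCommGroup H]
    [Module k H] [Group Γ] (ρ : Representation k Γ V) (χ : Γ →* k) (τ : Representation k Γ H)
    {κ : Type} (f : MultilinearMap k (fun _ : κ => V) H) : Prop :=
  ∃ (c : ℤ) (Δ : Subgroup Γ), Δ.FiniteIndex ∧ ∀ s ∈ Δ, ∀ v,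
    f (fun l => ρ s (v l)) = χ s ^ c • τ s (f v)

/-- `h` is a *Tate vector* of the representation `τ`. -/
def IsTateVector {k H Γ : Type*} [Field k] [AddCommGroup H] [Module k H] [Group Γ]
    (χ : Γ →* k) (τ : Representation k Γ H) (h : H) : Prop :=
  ∃ (c : ℤ) (Δ : Subgroup Γ), Δ.FiniteIndex ∧ ∀ s ∈ Δ, τ s h = χ s ^ c • h

/-- A *basic Tate form* on a realization of weight `w`: a Tate form with values in `k` which is
bilinear, or alternating, if the weight is even. -/
def IsBasic {k V Γ : Type*} [Field k] [AddCommGroup V] [Module k V] [Group Γ]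
    (ρ : Representation k Γ V) (χ : Γ →* k) (w : ℕ) {d : ℕ}
    (Φ : MultilinearMap k (fun _ : Fin d => V) k) : Prop :=
  IsTateForm ρ χ (1 : Representation k Γ k) Φ ∧
    (d = 2 ∨ (Even w ∧ ∀ (v : Fin d → V) (a b : Fin d), v a = v b → a ≠ b → Φ v = 0))

/-- The form `f` is *generated by basic Tate forms*: it is a linear combination of products
`v ↦ (∏ j, Φ j (v on the j-th block)) • h` of basic Tate forms `Φ j`, each on one of the realizations,
and Tate vectors `h`, for partitions of the set of variables into blocks. -/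
def IsGenerated {k Γ H : Type*} [Field k] [Group Γ] [AddCommGroup H] [Module k H] {ι : Type}
    {V : ι → Type*} [∀ i, AddCommGroup (V i)] [∀ i, Module k (V i)]
    (ρ : ∀ i, Representation k Γ (V i)) (χ : Γ →* k) (w : ι → ℕ) (τ : Representation k Γ H)
    {κ : Type} (f : MultilinearMap k (fun _ : κ => ∀ i, V i) H) : Prop :=
  (fun v => f v) ∈ Submodule.span k
    {g : (κ → ∀ i, V i) → H | ∃ (J : Type) (_ : Fintype J) (i : J → ι) (d : J → ℕ)
      (σ : (Σ j, Fin (d j)) ≃ κ)
      (Φ : ∀ j, MultilinearMap k (fun _ : Fin (d j) => V (i j)) k) (h : H),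
      (∀ j, IsBasic (ρ (i j)) χ (w (i j)) (Φ j)) ∧ IsTateVector χ τ h ∧
      g = fun v => (∏ j, Φ j (fun a => v (σ ⟨j, a⟩) (i j))) • h}

/-- The Frobenius element `γ` has *no unexpected relations*: its eigenvalues on each `V i` are
distinct, at most one of them satisfies `x ^ 2 = χ(γ) ^ w`, and if a product of powers of the
eigenvalues on the `V i` is equal, up to a root of unity, to the product of a power of `χ(γ)` and of
a number `β` which is `1`, or the value `ψ(γ)` of a character in `Ψ`, or an eigenvalue on `H`, then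
the exponents of `x` and `χ(γ) ^ w / x` are equal for all eigenvalues `x`. -/
structure IsFree {k Γ H : Type*} [Field k] [Group Γ] [AddCommGroup H] [Module k H]
    [FiniteDimensional k H] {ι : Type} [Fintype ι] {V : ι → Type*} [∀ i, AddCommGroup (V i)]
    [∀ i, Module k (V i)] [∀ i, FiniteDimensional k (V i)]
    (ρ : ∀ i, Representation k Γ (V i)) (χ : Γ →* k) (Ψ : Set (Γ →* k)) (w : ι → ℕ)
    (τ : Representation k Γ H) (γ : Γ) : Prop where
  separable : ∀ i, (ρ i γ).charpoly.Separable
  one : ∀ i, ∀ x ∈ (ρ i γ).charpoly.aroots (AlgebraicClosure k),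
    ∀ y ∈ (ρ i γ).charpoly.aroots (AlgebraicClosure k),
    x ^ 2 = algebraMap k _ (χ γ) ^ w i → y ^ 2 = algebraMap k _ (χ γ) ^ w i → x = y
  free : ∀ (n : ι → AlgebraicClosure k → ℕ) (c : ℤ) (N : ℕ) (β : AlgebraicClosure k), N ≠ 0 →
    (β = 1 ∨ (∃ ψ ∈ Ψ, β = algebraMap k _ (ψ γ)) ∨
      β ∈ (τ γ).charpoly.aroots (AlgebraicClosure k)) →
    (∏ i, (((ρ i γ).charpoly.aroots (AlgebraicClosure k)).map (fun x => x ^ n i x)).prod) ^ N =
      (algebraMap k _ (χ γ) ^ c * β) ^ N →
    ∀ i, ∀ x ∈ (ρ i γ).charpoly.aroots (AlgebraicClosure k),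
      n i x = n i (algebraMap k _ (χ γ) ^ w i / x)

end

end Pool.Agent.NH33.Qz
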