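import Pool.Agent.NH33.Qz.Defs
import Pool.Agent.NH33.Ir.Defs

/-!
# Frobenius elements given by CM fields with irreducible odd part: definitions
-/

set_option autoImplicit false

namespace Pool.Agent.NH33.Qz

noncomputable section

open Module Polynomial NumberField Pool.Agent.NH33.Ir

/-- The element `γ` behaves like the Frobenius element at a closed point of good reduction whose
residue field has `p ^ a` elements, and its characteristic polynomials on the realizations `V i` are
given by the Weil numbers `π j` (of weight `w (own j)`) in the CM fields `E j`: the characteristic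
polynomial on `V i` is the product of the minimal polynomials of the `π j` with `own j = i`, and
possibly of one linear factor `X - b` with `b ^ 2 = χ(γ) ^ w`. The fields `E j` are good in the sense of
`IsGoodField` and have different Galois closures, and `(π j) ^ 2 / p ^ (a w)` has a conjugate which is
not a unit at the `p`-adic place `place`. -/
structure IsGoodFrobenius {k Γ : Type*} [Field k] [CharZero k] [Group Γ] {ι : Type} [DecidableEq ι]
    {V : ι → Type*} [∀ i, AddCommGroup (V i)] [∀ i, Module k (V i)]
    [∀ i, FiniteDimensional k (V i)] (ρ : ∀ i, Representation k Γ (V i)) (χ : Γ →* k)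
    (w : ι → ℕ) (γ : Γ) (p a : ℕ) [Fact p.Prime] (place : AlgebraicClosure ℚ →+* PadicAlgCl p)
    {r : ℕ} (E : Fin r → Type) [∀ j, Field (E j)] [∀ j, NumberField (E j)]
    [∀ j, IsCMField (E j)] (own : Fin r → ι) (π : ∀ j, E j) : Prop where
  card : χ γ = (p : k) ^ a
  field : ∀ j, IsGoodField (E j)
  different : ∀ j j', j ≠ j' → Y103.Sh.galoisClosure (E j) ≠ Y103.Sh.galoisClosure (E j')
  generates : ∀ j, IntermediateField.adjoin ℚ {π j} = ⊤
  weil : ∀ j, π j * IsCMField.complexConj (E j) (π j) = (p : E j) ^ (a * w (own j))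
  slope : ∀ j, ∃ σ : E j →+* AlgebraicClosure ℚ,
    ‖place (σ (π j ^ 2 / (p : E j) ^ (a * w (own j))))‖ ≠ 1
  charpoly : ∀ i, ∃ Q : Polynomial k, (Q = 1 ∨ ∃ b, b ^ 2 = χ γ ^ w i ∧ Q = X - C b) ∧
    (ρ i γ).charpoly =
      (∏ j ∈ Finset.univ.filter (fun j => own j = i), (minpoly ℚ (π j)).map (algebraMap ℚ k)) * Q

/-- The number `β` is *foreign* to the fields `E j` in the wide sense: it has a degree smaller than the
degrees of the fields `E j`, or is, up to a power, a product of numbers which are foreign to the
fields. -/
def IsForeignWide {Ω : Type*} [Field Ω] [CharZero Ω] {p : ℕ} [Fact p.Prime]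
    (place : AlgebraicClosure ℚ →+* PadicAlgCl p) {r : ℕ} (E : Fin r → Type)
    [∀ j, Field (E j)] [∀ j, NumberField (E j)] (β : Ω) : Prop :=
  HasSmallDegree E β ∨
    ∃ (t : ℕ) (l : List Ω), 0 < t ∧ β ^ t = l.prod ∧ ∀ δ ∈ l, IsForeign place E δ

end

end Pool.Agent.NH33.Qz
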