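import Pool.Agent.NH33.Qz.Span
import Pool.Agent.H204R3.SP.Descent

/-!
# Descent from a finite extension
-/

set_option autoImplicit false
set_option linter.unusedSectionVars false
set_option linter.deprecated false

namespace Pool.Agent.NH33.Qz

open Module TensorProduct Pool.Agent.H204R3.SP

noncomputable section

variable {k Ω : Type*} [Field k] [Field Ω] [Algebra k Ω] {V : Type*} [AddCommGroup V] [Module k V]
  {H : Type*} [AddCommGroup H] [Module k H]
  {ν : Type*} [Fintype ν] [DecidableEq ν] (b : Basis ν k V)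
  {Γ : Type*} [Group Γ] (ρ : Representation k Γ V) (χ : Γ →* k) (τ : Representation k Γ H)

/-- The base change of a multilinear form with values in `H`. -/
def bcmH {κ : Type} [Fintype κ] [DecidableEq κ] (f : MultilinearMap k (fun _ : κ => V) H) :
    MultilinearMap Ω (fun _ : κ => Ω ⊗[k] V) (Ω ⊗[k] H) :=
  ∑ I : κ → ν, ((MultilinearMap.mkPiAlgebra Ω κ Ω).compLinearMap
    (fun l => (b.baseChange Ω).coord (I l))).smulRight ((1 : Ω) ⊗ₜ[k] f (fun l => b (I l)))

theorem bcmH_basis {κ : Type} [Fintype κ] [DecidableEq κ]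
    (f : MultilinearMap k (fun _ : κ => V) H) (J : κ → ν) :
    bcmH (Ω := Ω) b f (fun l => b.baseChange Ω (J l)) = (1 : Ω) ⊗ₜ[k] f (fun l => b (J l)) := by
  unfold bcmH
  rw [MultilinearMap.sum_apply]
  have h1 : ∀ I : κ → ν, (((MultilinearMap.mkPiAlgebra Ω κ Ω).compLinearMap
      (fun l => (b.baseChange Ω).coord (I l))).smulRight ((1 : Ω) ⊗ₜ[k] f (fun l => b (I l))))
      (fun l => b.baseChange Ω (J l)) =
      if I = J then (1 : Ω) ⊗ₜ[k] f (fun l => b (I l)) else 0 := by
    intro I
    rw [MultilinearMap.smulRight_apply, MultilinearMap.compLinearMap_apply,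
      MultilinearMap.mkPiAlgebra_apply]
    have h2 : ∀ l, ((b.baseChange Ω).coord (I l)) (b.baseChange Ω (J l)) =
        if I l = J l then 1 else 0 := by
      intro l
      rw [Basis.coord_apply, Basis.repr_self, Finsupp.single_apply]
      by_cases h : I l = J l
      · rw [if_pos h, if_pos h.symm]
      · rw [if_neg h, if_neg (fun h' => h h'.symm)]
    rw [Finset.prod_congr rfl (fun l _ => h2 l)]
    by_cases h : I = J
    · rw [if_pos h, h, Finset.prod_eq_one fun l _ => if_pos rfl, one_smul]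
    · rw [if_neg h]
      obtain ⟨l, hl⟩ := Function.ne_iff.1 h
      rw [Finset.prod_eq_zero (Finset.mem_univ l) (if_neg hl), zero_smul]
  rw [Finset.sum_congr rfl (fun I _ => h1 I), Finset.sum_ite_eq', if_pos (Finset.mem_univ _)]

theorem bcmH_one {κ : Type} [Fintype κ] [DecidableEq κ]
    (f : MultilinearMap k (fun _ : κ => V) H) (v : κ → V) :
    bcmH (Ω := Ω) b f (fun l => (1 : Ω) ⊗ₜ[k] v l) = (1 : Ω) ⊗ₜ[k] f v := by
  let inc : V →ₗ[k] Ω ⊗[k] V := TensorProduct.mk k Ω V 1
  let A : MultilinearMap k (fun _ : κ => V) (Ω ⊗[k] H) :=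
    ((bcmH (Ω := Ω) b f).restrictScalars k).compLinearMap (fun _ => inc)
  let B : MultilinearMap k (fun _ : κ => V) (Ω ⊗[k] H) :=
    (TensorProduct.mk k Ω H 1).compMultilinearMap f
  have h : A = B := by
    refine Basis.ext_multilinear (fun _ => b) fun I => ?_
    have h1 := bcmH_basis (Ω := Ω) b f I
    change (bcmH (Ω := Ω) b f) (fun l => (1 : Ω) ⊗ₜ[k] b (I l)) = (1 : Ω) ⊗ₜ[k] f (fun l => b (I l))
    rw [← h1]
    congr 1
    funext l
    rw [Basis.baseChange_apply]
  exact congrArg (fun F : MultilinearMap k (fun _ : κ => V) (Ω ⊗[k] H) => F v) h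

theorem bcmH_tate {κ : Type} [Fintype κ] [DecidableEq κ] {c : ℤ}
    {f : MultilinearMap k (fun _ : κ => V) H} (hf : IsTateC ρ χ τ c f) :
    IsTateC (bcr ρ Ω) (bcc χ Ω) (bcr τ Ω) c (bcmH (Ω := Ω) b f) := by
  obtain ⟨Δ, hΔ, h⟩ := hf
  refine ⟨Δ, hΔ, fun s hs => ?_⟩
  have h1 : (bcmH (Ω := Ω) b f).compLinearMap (fun _ => bcr ρ Ω s) =
      ((bcc χ Ω s ^ c) • bcr τ Ω s).compMultilinearMap (bcmH (Ω := Ω) b f) := by
    refine Basis.ext_multilinear (fun _ => b.baseChange Ω) fun I => ?_
    change (bcmH (Ω := Ω) b f) (fun l => bcr ρ Ω s (b.baseChange Ω (I l))) =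
      bcc χ Ω s ^ c • bcr τ Ω s ((bcmH (Ω := Ω) b f) (fun l => b.baseChange Ω (I l)))
    rw [bcmH_basis]
    have h2 : ∀ l, bcr ρ Ω s (b.baseChange Ω (I l)) = (1 : Ω) ⊗ₜ[k] ρ s (b (I l)) := by
      intro l
      rw [Basis.baseChange_apply, bcr_tmul]
    simp only [h2]
    rw [bcmH_one, h s hs, bcr_tmul, bcc_apply, ← map_zpow₀ (algebraMap k Ω), algebraMap_smul,
      TensorProduct.tmul_smul]
  intro v
  exact congrArg (fun F : MultilinearMap Ω (fun _ : κ => Ω ⊗[k] V) (Ω ⊗[k] H) => F v) h1

/-- Linear independence of scalar extensions, in the form needed. -/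
theorem span_descent_H {X : Type*} (S : Set (X → H)) (f : X → H)
    (hf : (fun x => (1 : Ω) ⊗ₜ[k] f x) ∈
      Submodule.span Ω {g : X → Ω ⊗[k] H | ∃ s ∈ S, g = fun x => (1 : Ω) ⊗ₜ[k] s x}) :
    f ∈ Submodule.span k S := by
  have key : ∀ g ∈ Submodule.span Ω {g : X → Ω ⊗[k] H | ∃ s ∈ S, g = fun x => (1 : Ω) ⊗ₜ[k] s x},
      ∀ π : Ω →ₗ[k] k, (fun x => TensorProduct.lid k H (π.rTensor H (g x))) ∈
        Submodule.span k S := by
    intro g hg
    induction hg using Submodule.span_induction with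
    | mem g hg =>
      obtain ⟨s, hs, rfl⟩ := hg
      intro π
      have h1 : (fun x => TensorProduct.lid k H (π.rTensor H ((1 : Ω) ⊗ₜ[k] s x))) = π 1 • s := by
        funext x
        rw [LinearMap.rTensor_tmul, TensorProduct.lid_tmul]
        rfl
      rw [h1]
      exact Submodule.smul_mem _ _ (Submodule.subset_span hs)
    | zero =>
      intro π
      simp only [Pi.zero_apply, map_zero]
      exact Submodule.zero_mem _
    | add a b _ _ ha hb =>
      intro π
      simp only [Pi.add_apply, map_add]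
      exact Submodule.add_mem _ (ha π) (hb π)
    | smul c a _ ha =>
      intro π
      have h1 : (fun x => TensorProduct.lid k H (π.rTensor H ((c • a) x))) =
          fun x => TensorProduct.lid k H ((π.comp (LinearMap.mulLeft k c)).rTensor H (a x)) := by
        funext x
        rw [Pi.smul_apply]
        induction a x with
        | zero => rw [smul_zero, map_zero, map_zero, map_zero, map_zero]
        | add y z hy hz =>
          rw [smul_add, map_add, map_add, map_add, map_add, hy, hz]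
        | tmul y z =>
          rw [TensorProduct.smul_tmul', LinearMap.rTensor_tmul, LinearMap.rTensor_tmul]
          rfl
      rw [h1]
      exact ha (π.comp (LinearMap.mulLeft k c))
  obtain ⟨π, hπ⟩ := LinearMap.exists_leftInverse_of_injective
    ((Algebra.linearMap k Ω)) (LinearMap.ker_eq_bot.2 (algebraMap k Ω).injective)
  have h1 := key _ hf π
  have h2 : (fun x => TensorProduct.lid k H (π.rTensor H ((1 : Ω) ⊗ₜ[k] f x))) = f := by
    funext x
    have h3 := LinearMap.congr_fun hπ (1 : k)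
    rw [LinearMap.comp_apply, Algebra.linearMap_apply, map_one, LinearMap.id_apply] at h3
    rw [LinearMap.rTensor_tmul, TensorProduct.lid_tmul, h3, one_smul]
  rwa [h2] at h1

/-- A component of a multilinear form over a finite extension. -/
def compM {n d : ℕ} (u : Basis (Fin n) k Ω)
    (Φ : MultilinearMap Ω (fun _ : Fin d => Ω ⊗[k] V) Ω) (i : Fin n) :
    MultilinearMap k (fun _ : Fin d => V) k :=
  (u.coord i).compMultilinearMap
    ((Φ.restrictScalars k).compLinearMap (fun _ => TensorProduct.mk k Ω V 1))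

theorem compM_apply {n d : ℕ} (u : Basis (Fin n) k Ω)
    (Φ : MultilinearMap Ω (fun _ : Fin d => Ω ⊗[k] V) Ω) (i : Fin n) (v : Fin d → V) :
    compM u Φ i v = u.repr (Φ (fun l => (1 : Ω) ⊗ₜ[k] v l)) i := rfl

theorem compM_sum {n d : ℕ} (u : Basis (Fin n) k Ω)
    (Φ : MultilinearMap Ω (fun _ : Fin d => Ω ⊗[k] V) Ω) (v : Fin d → V) :
    Φ (fun l => (1 : Ω) ⊗ₜ[k] v l) = ∑ i, u i * algebraMap k Ω (compM u Φ i v) := by
  conv_lhs => rw [← u.sum_repr (Φ (fun l => (1 : Ω) ⊗ₜ[k] v l))]
  refine Finset.sum_congr rfl fun i _ => ?_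
  rw [compM_apply, Algebra.smul_def, mul_comm]

variable {ρ χ τ} {ι : Type} {w : ι → ℕ} {P : ι → Module.End k V}

theorem compM_basic {n d : ℕ} (u : Basis (Fin n) k Ω)
    {Φ : MultilinearMap Ω (fun _ : Fin d => Ω ⊗[k] V) Ω}
    (hΦ : IsBasicF (bcr ρ Ω) (bcc χ Ω) w (fun i => (P i).baseChange Ω) Φ) (i : Fin n) :
    IsBasicF ρ χ w P (compM u Φ i) := by
  obtain ⟨⟨c, Δ, hΔ, h1⟩, j, h2, h3⟩ := hΦ
  refine ⟨⟨c, Δ, hΔ, fun s hs v => ?_⟩, j, fun v => ?_, ?_⟩
  · rw [compM_apply, compM_apply]
    have h4 := h1 s hs (fun l => (1 : Ω) ⊗ₜ[k] v l)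
    have h5 : (fun l => bcr ρ Ω s ((1 : Ω) ⊗ₜ[k] v l)) = fun l => (1 : Ω) ⊗ₜ[k] ρ s (v l) := by
      funext l
      rw [bcr_tmul]
    rw [h5] at h4
    rw [h4, bcc_apply, ← map_zpow₀ (algebraMap k Ω), ← Algebra.smul_def, map_smul, Finsupp.smul_apply, smul_eq_mul]
  · rw [compM_apply, compM_apply]
    have h4 := h2 (fun l => (1 : Ω) ⊗ₜ[k] v l)
    have h5 : (fun l => (P j).baseChange Ω ((1 : Ω) ⊗ₜ[k] v l)) =
        fun l => (1 : Ω) ⊗ₜ[k] P j (v l) := by
      funext l
      rw [LinearMap.baseChange_tmul]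
    rw [h5] at h4
    rw [h4]
  · rcases h3 with h3 | ⟨h3, h4⟩
    · exact Or.inl h3
    · refine Or.inr ⟨h3, fun v a b hab hne => ?_⟩
      rw [compM_apply, h4 _ a b (by rw [hab]) hne, map_zero, Finsupp.zero_apply]

/-- A component of a vector. -/
def compV {n : ℕ} (u : Basis (Fin n) k Ω) (i : Fin n) : (Ω ⊗[k] H) →ₗ[k] H :=
  (TensorProduct.lid k H).toLinearMap ∘ₗ (u.coord i).rTensor H

theorem compV_tmul {n : ℕ} (u : Basis (Fin n) k Ω) (i : Fin n) (a : Ω) (h : H) :
    compV u i (a ⊗ₜ[k] h) = u.repr a i • h := by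
  unfold compV
  rw [LinearMap.comp_apply, LinearMap.rTensor_tmul]
  exact TensorProduct.lid_tmul _ _

theorem compV_sum {n : ℕ} (u : Basis (Fin n) k Ω) (h : Ω ⊗[k] H) :
    h = ∑ i, u i • ((1 : Ω) ⊗ₜ[k] compV u i h) := by
  induction h with
  | zero =>
    symm
    refine Finset.sum_eq_zero fun i _ => ?_
    rw [map_zero, TensorProduct.tmul_zero, smul_zero]
  | add a b ha hb =>
    conv_lhs => rw [ha, hb]
    rw [← Finset.sum_add_distrib]
    refine Finset.sum_congr rfl fun i _ => ?_
    rw [map_add, TensorProduct.tmul_add, smul_add]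
  | tmul a h =>
    conv_lhs => rw [← u.sum_repr a]
    rw [TensorProduct.sum_tmul]
    refine Finset.sum_congr rfl fun i _ => ?_
    rw [compV_tmul, TensorProduct.tmul_smul, TensorProduct.smul_tmul', TensorProduct.smul_tmul',
      smul_eq_mul, mul_smul_comm, mul_one]

theorem compV_tate {n : ℕ} (u : Basis (Fin n) k Ω) {h : Ω ⊗[k] H}
    (hh : IsTateV (bcc χ Ω) (bcr τ Ω) h) (i : Fin n) : IsTateV χ τ (compV u i h) := by
  obtain ⟨c, Δ, hΔ, h1⟩ := hh
  refine ⟨c, Δ, hΔ, fun s hs => ?_⟩
  have h2 : ∀ h : Ω ⊗[k] H, compV u i (bcr τ Ω s h) = τ s (compV u i h) := by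
    intro h
    induction h with
    | zero => rw [map_zero, map_zero, map_zero]
    | add a b ha hb => rw [map_add, map_add, map_add, map_add, ha, hb]
    | tmul a h => rw [bcr_tmul, compV_tmul, compV_tmul, map_smul]
  rw [← h2, h1 s hs, bcc_apply, ← map_zpow₀ (algebraMap k Ω), algebraMap_smul, map_smul]

include b in
/-- **Descent.** -/
theorem descent [FiniteDimensional k Ω] {κ : Type} [Fintype κ] [DecidableEq κ] {c : ℤ}
    (hall : ∀ f : MultilinearMap Ω (fun _ : κ => Ω ⊗[k] V) (Ω ⊗[k] H),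
      IsTateC (bcr ρ Ω) (bcc χ Ω) (bcr τ Ω) c f → (fun v => f v) ∈ Submodule.span Ω
        (ProdF (bcr ρ Ω) (bcc χ Ω) (bcr τ Ω) w (fun i => (P i).baseChange Ω) κ))
    {f : MultilinearMap k (fun _ : κ => V) H} (hf : IsTateC ρ χ τ c f) :
    (fun v => f v) ∈ Submodule.span k (ProdF ρ χ τ w P κ) := by
  classical
  have h1 := hall _ (bcmH_tate (Ω := Ω) b ρ χ τ hf)
  let u := Module.finBasis k Ω
  let res : ((κ → Ω ⊗[k] V) → Ω ⊗[k] H) →ₗ[Ω] ((κ → V) → Ω ⊗[k] H) :=
    { toFun := fun F v => F (fun l => (1 : Ω) ⊗ₜ[k] v l)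
      map_add' := fun _ _ => rfl
      map_smul' := fun _ _ => rfl }
  have h2 : res (fun v => bcmH (Ω := Ω) b f v) = fun v => (1 : Ω) ⊗ₜ[k] f v := by
    funext v
    exact bcmH_one b f v
  apply span_descent_H (Ω := Ω)
  rw [← h2]
  have h4 : (Submodule.span Ω (ProdF (bcr ρ Ω) (bcc χ Ω) (bcr τ Ω) w
      (fun i => (P i).baseChange Ω) κ)).map res ≤ Submodule.span Ω
      {g : (κ → V) → Ω ⊗[k] H | ∃ s ∈ ProdF ρ χ τ w P κ, g = fun x => (1 : Ω) ⊗ₜ[k] s x} := by
    rw [Submodule.map_span, Submodule.span_le]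
    rintro _ ⟨_, ⟨J, _, d, σ, Φ, h, hΦ, hh, rfl⟩, rfl⟩
    have h5 : res (fun v => (∏ j, Φ j (fun a => v (σ ⟨j, a⟩))) • h) =
        ∑ g : J → Fin (finrank k Ω), ∑ i, ((∏ j, u (g j)) * u i) •
          (fun v => (1 : Ω) ⊗ₜ[k] ((∏ j, compM u (Φ j) (g j) (fun a => v (σ ⟨j, a⟩))) •
            compV u i h)) := by
      funext v
      rw [Finset.sum_apply]
      change (∏ j, Φ j (fun a => (1 : Ω) ⊗ₜ[k] v (σ ⟨j, a⟩))) • h = _
      rw [Finset.prod_congr rfl (fun j _ => compM_sum u (Φ j) (fun a => v (σ ⟨j, a⟩))),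
        Finset.prod_univ_sum, Fintype.piFinset_univ, Finset.sum_smul]
      refine Finset.sum_congr rfl fun g _ => ?_
      rw [Finset.sum_apply]
      conv_lhs => rw [compV_sum u h]
      rw [Finset.smul_sum]
      refine Finset.sum_congr rfl fun i _ => ?_
      rw [Pi.smul_apply, Finset.prod_mul_distrib, ← map_prod (algebraMap k Ω), TensorProduct.tmul_smul,
        ← algebraMap_smul Ω (∏ j, compM u (Φ j) (g j) (fun a => v (σ ⟨j, a⟩))), smul_smul,
        smul_smul]
      congr 1
      ring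
    rw [h5]
    refine Submodule.sum_mem _ fun g _ => Submodule.sum_mem _ fun i _ =>
      Submodule.smul_mem _ _ (Submodule.subset_span ?_)
    exact ⟨_, ⟨J, inferInstance, d, σ, fun j => compM u (Φ j) (g j), compV u i h,
      fun j => compM_basic u (hΦ j) (g j), compV_tate u hh i, rfl⟩, rfl⟩
  exact h4 (Submodule.mem_map_of_mem h1)

/-! ### The structures over the larger field -/

include b in
theorem bcb_nondeg (ω : V →ₗ[k] V →ₗ[k] k) (hnd : ∀ u, (∀ v, ω v u = 0) → u = 0)
    (hnd' : ∀ u, (∀ v, ω u v = 0) → u = 0)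
    (u : Ω ⊗[k] V) (hu : ∀ v, bcb Ω ω v u = 0) : u = 0 := by
  have hB : LinearMap.BilinForm.Nondegenerate ω := ⟨hnd', hnd⟩
  let d := LinearMap.BilinForm.dualBasis ω hB b
  have h1 : u = ∑ i, (b.baseChange Ω).repr u i • (b.baseChange Ω i) :=
    ((b.baseChange Ω).sum_repr u).symm
  rw [← LinearEquiv.map_eq_zero_iff (b.baseChange Ω).repr]
  ext i
  rw [Finsupp.zero_apply]
  have h2 := hu ((1 : Ω) ⊗ₜ[k] d i)
  rw [h1, map_sum] at h2
  have h3 : ∀ l, bcb Ω ω ((1 : Ω) ⊗ₜ[k] d i) ((b.baseChange Ω).repr u l • (b.baseChange Ω l)) =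
      if l = i then (b.baseChange Ω).repr u l else 0 := by
    intro l
    rw [map_smul, Basis.baseChange_apply, bcb_one, LinearMap.BilinForm.apply_dualBasis_left,
      smul_eq_mul]
    split_ifs
    · rw [map_one, mul_one]
    · rw [map_zero, mul_zero]
  rw [Finset.sum_congr rfl (fun l _ => h3 l), Finset.sum_ite_eq', if_pos (Finset.mem_univ _)] at h2
  exact h2

variable [Fintype ι] {ω : V →ₗ[k] V →ₗ[k] k}

theorem Pol.nondeg' (hP : Pol ρ χ w P ω) (u : V) (hu : ∀ v, ω v u = 0) : u = 0 := by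
  have h1 : ∀ i, P i u = 0 := by
    intro i
    apply hP.nondeg
    intro v
    rw [hP.symm, ← hP.adj, hu, mul_zero]
  rw [← hP.sum u]
  exact Finset.sum_eq_zero fun i _ => h1 i

include b in
theorem Pol.baseChange (hP : Pol ρ χ w P ω) :
    Pol (bcr ρ Ω) (bcc χ Ω) w (fun i => (P i).baseChange Ω) (bcb Ω ω) := by
  have hadj : ∀ i u v, bcb Ω ω ((P i).baseChange Ω u) v = bcb Ω ω u ((P i).baseChange Ω v) := by
    intro i u v
    induction u with
    | zero => simp only [map_zero, LinearMap.zero_apply]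
    | add u u' hu hu' => simp only [map_add, LinearMap.add_apply, hu, hu']
    | tmul a u =>
      induction v with
      | zero => simp only [map_zero]
      | add v v' hv hv' => simp only [map_add, hv, hv']
      | tmul c v =>
        rw [LinearMap.baseChange_tmul, LinearMap.baseChange_tmul, bcb_tmul, bcb_tmul, hP.adj]
  have hsymm : ∀ i u v, bcb Ω ω ((P i).baseChange Ω u) v =
      (-1) ^ w i * bcb Ω ω v ((P i).baseChange Ω u) := by
    intro i u v
    induction u with
    | zero => simp only [map_zero, LinearMap.zero_apply, mul_zero]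
    | add u u' hu hu' => simp only [map_add, LinearMap.add_apply, hu, hu', mul_add]
    | tmul a u =>
      induction v with
      | zero => simp only [map_zero, LinearMap.zero_apply, mul_zero]
      | add v v' hv hv' => simp only [map_add, LinearMap.add_apply, hv, hv', mul_add]
      | tmul c v =>
        rw [LinearMap.baseChange_tmul, bcb_tmul, bcb_tmul, hP.symm, mul_comm a c]
        rcases neg_one_pow_eq_or k (w i) with h | h
        · rcases neg_one_pow_eq_or Ω (w i) with h' | h'
          · rw [h, h', one_mul, one_mul]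
          · have h2 : algebraMap k Ω ((-1) ^ w i) = (-1) ^ w i := by
              rw [map_pow, map_neg, map_one]
            rw [h, h', map_one] at h2
            rw [h, h', ← h2, one_mul, one_mul]
        · rcases neg_one_pow_eq_or Ω (w i) with h' | h'
          · have h2 : algebraMap k Ω ((-1) ^ w i) = (-1) ^ w i := by
              rw [map_pow, map_neg, map_one]
            rw [h, h', map_neg, map_one] at h2
            rw [h, h', neg_one_mul, neg_smul, one_mul, ← neg_one_mul (ω v ((P i) u) • (c * a)),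
              h2, one_mul]
          · rw [h, h', neg_one_mul, neg_one_mul, neg_smul]
  have hsumP : ∀ v, ∑ i, (P i).baseChange Ω v = v := by
    intro v
    induction v with
    | zero => exact Finset.sum_eq_zero fun i _ => map_zero _
    | add v v' hv hv' =>
      conv_rhs => rw [← hv, ← hv']
      rw [← Finset.sum_add_distrib]
      exact Finset.sum_congr rfl fun i _ => map_add _ _ _
    | tmul a v =>
      conv_rhs => rw [← hP.sum v]
      rw [TensorProduct.tmul_sum]
      exact Finset.sum_congr rfl fun i _ => LinearMap.baseChange_tmul _ _ _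
  refine
    { idem := fun i v => ?_
      orth := fun i j hij v => ?_
      sum := hsumP
      comm := fun i s v => ?_
      adj := hadj
      symm := hsymm
      sim := fun i s u v => ?_
      nondeg := fun u hu => ?_ }
  · induction v with
    | zero => simp only [map_zero]
    | add v v' hv hv' => simp only [map_add, hv, hv']
    | tmul a v => rw [LinearMap.baseChange_tmul, LinearMap.baseChange_tmul, hP.idem]
  · induction v with
    | zero => simp only [map_zero]
    | add v v' hv hv' => simp only [map_add, hv, hv', add_zero]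
    | tmul a v =>
      rw [LinearMap.baseChange_tmul, LinearMap.baseChange_tmul, hP.orth i j hij,
        TensorProduct.tmul_zero]
  · induction v with
    | zero => simp only [map_zero]
    | add v v' hv hv' => simp only [map_add, hv, hv']
    | tmul a v => rw [LinearMap.baseChange_tmul, bcr_tmul, bcr_tmul, LinearMap.baseChange_tmul,
        hP.comm]
  · induction u with
    | zero => simp only [map_zero, LinearMap.zero_apply, mul_zero]
    | add u u' hu hu' => simp only [map_add, LinearMap.add_apply, hu, hu', mul_add]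
    | tmul a u =>
      induction v with
      | zero => simp only [map_zero, mul_zero]
      | add v v' hv hv' => simp only [map_add, hv, hv', mul_add]
      | tmul c v =>
        rw [bcr_tmul, bcr_tmul, LinearMap.baseChange_tmul, LinearMap.baseChange_tmul, bcb_tmul,
          bcb_tmul, hP.sim, bcc_apply, mul_smul, Algebra.smul_def (χ s ^ w i), map_pow]
  · have h1 : ∀ i, (P i).baseChange Ω u = 0 := by
      intro i
      apply bcb_nondeg b ω hP.nondeg' hP.nondeg
      intro v
      have h2 := hsymm i u v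
      rw [hadj, hu] at h2
      have h3 : ((-1 : Ω) ^ w i) ≠ 0 := pow_ne_zero _ (neg_ne_zero.2 one_ne_zero)
      exact (mul_eq_zero.1 h2.symm).resolve_left h3
    rw [← hsumP u]
    exact Finset.sum_eq_zero fun i _ => h1 i

end

end Pool.Agent.NH33.Qz
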