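import Pool.Agent.NH33.Qz.Desc

/-!
# The eigenbasis of one Frobenius
-/

set_option autoImplicit false
set_option linter.unusedSectionVars false
set_option linter.deprecated false

namespace Pool.Agent.NH33.Qz

open Module Polynomial Pool.Agent.H204R3.SP

noncomputable section

section eig

variable {Ω : Type*} [Field Ω] [DecidableEq Ω] {W : Type*} [AddCommGroup W] [Module Ω W]
  [FiniteDimensional Ω W]

/-- The type of the roots of a polynomial. -/
abbrev Rt (f : Polynomial Ω) : Type _ := {x : Ω // x ∈ f.roots.toFinset}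

/-- An eigenbasis indexed by the eigenvalues. -/
theorem exists_eigenbasisR (T : Module.End Ω W) (hsep : T.charpoly.Separable)
    (hspl : T.charpoly.Splits) :
    ∃ e : Basis (Rt T.charpoly) Ω W, ∀ x, T (e x) = (x : Ω) • e x := by
  have h1 : ∀ x : Rt T.charpoly, T.HasEigenvalue (x : Ω) := by
    intro x
    rw [Module.End.hasEigenvalue_iff_isRoot_charpoly]
    have h2 := x.2
    rw [Multiset.mem_toFinset, mem_roots (LinearMap.charpoly_monic T).ne_zero] at h2
    exact h2
  choose v hv using fun x => (h1 x).exists_hasEigenvector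
  have hli := Module.End.eigenvectors_linearIndependent' T
    (fun x : Rt T.charpoly => (x : Ω)) Subtype.val_injective v hv
  have hfin : Fintype.card (Rt T.charpoly) = finrank Ω W := by
    rw [Fintype.card_coe, Multiset.toFinset_card_of_nodup (nodup_roots hsep),
      ← hspl.natDegree_eq_card_roots, LinearMap.charpoly_natDegree]
  by_cases hne : Nonempty (Rt T.charpoly)
  · refine ⟨basisOfLinearIndependentOfCardEqFinrank hli hfin, fun x => ?_⟩
    rw [coe_basisOfLinearIndependentOfCardEqFinrank]
    exact (hv x).apply_eq_smul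
  · have hemp : IsEmpty (Rt T.charpoly) := not_nonempty_iff.1 hne
    have h0 : finrank Ω W = 0 := by rw [← hfin, Fintype.card_eq_zero_iff]; exact hemp
    have _ : Subsingleton W := finrank_zero_iff.1 h0
    exact ⟨Basis.empty W, fun x => hemp.elim x⟩

end eig

section frame

variable {Ω : Type*} [Field Ω] [CharZero Ω] {W : Type*} [AddCommGroup W]
  [Module Ω W] {Γ : Type*} [Group Γ] {ρ : Representation Ω Γ W}
  {χ : Γ →* Ω} {ι : Type} [Fintype ι] [DecidableEq ι] {w : ι → ℕ} {P : ι → Module.End Ω W}
  {ω : W →ₗ[Ω] W →ₗ[Ω] Ω} (hP : Pol ρ χ w P ω) (γ : Γ)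
  {R : Type*} [Fintype R] [DecidableEq R] {val : R → Ω} {e : Basis R Ω W}
  (he : ∀ x, ρ γ (e x) = val x • e x)
  {idx : R → ι} (hPe : ∀ i x, P i (e x) = if idx x = i then e x else 0)

include hP he hPe in
theorem om_ne {x y : R} (h : ω (e x) (e y) ≠ 0) :
    idx y = idx x ∧ val x * val y = χ γ ^ w (idx x) := by
  have h1 : P (idx x) (e x) = e x := by rw [hPe, if_pos rfl]
  constructor
  · by_contra h2
    apply h
    rw [← h1, hP.adj, hPe, if_neg h2, map_zero]
  · have h2 := hP.sim (idx x) γ (e x) (e y)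
    rw [he, he, map_smul, map_smul, map_smul, LinearMap.smul_apply, h1, smul_eq_mul,
      smul_eq_mul] at h2
    have h3 : (val x * val y - χ γ ^ w (idx x)) * ω (e x) (e y) = 0 := by linear_combination h2
    exact sub_eq_zero.1 ((mul_eq_zero.1 h3).resolve_right h)

include hP he hPe in
theorem exists_inv : ∃ inv : R → R, ∀ x, ω (e x) (e (inv x)) ≠ 0 := by
  have h1 : ∀ x, ∃ y, ω (e x) (e y) ≠ 0 := by
    intro x
    by_contra h
    push Not at h
    apply e.ne_zero x
    apply hP.nondeg
    intro v
    rw [← e.sum_repr v, map_sum]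
    refine Finset.sum_eq_zero fun y _ => ?_
    rw [map_smul, h, smul_zero]
  exact ⟨fun x => (h1 x).choose, fun x => (h1 x).choose_spec⟩

include he in
theorem root_ne_zero (x : R) : val x ≠ 0 := by
  intro h
  have h1 := he x
  rw [h, zero_smul] at h1
  apply e.ne_zero x
  rw [← rho_inv ρ γ (e x), h1, map_zero]

include hP he hPe in
theorem exists_frame (hinj : ∀ x y, idx x = idx y → val x = val y → x = y)
    (hfix : ∀ x y, idx x = idx y → val x * val x = χ γ ^ w (idx x) →
      val y * val y = χ γ ^ w (idx x) → x = y) :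
    ∃ (inv : R → R) (jj : R → Ω),
      (∀ x, val x * val (inv x) = χ γ ^ w (idx x)) ∧
      Frame inv e jj (fun x => (-1) ^ w (idx x)) idx ω := by
  obtain ⟨inv, hinv⟩ := exists_inv hP γ he hPe
  have hmul : ∀ x, val x * val (inv x) = χ γ ^ w (idx x) :=
    fun x => (om_ne hP γ he hPe (hinv x)).2
  have hidx : ∀ x, idx (inv x) = idx x := fun x => (om_ne hP γ he hPe (hinv x)).1
  have hne : ∀ x, val x ≠ 0 := fun x => root_ne_zero γ he x
  have huniq : ∀ x y : R, ω (e x) (e y) ≠ 0 → y = inv x := by
    intro x y h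
    obtain ⟨h0, h1⟩ := om_ne hP γ he hPe h
    rw [← hmul x] at h1
    exact hinj _ _ (by rw [h0, hidx]) (mul_left_cancel₀ (hne x) h1)
  have hii : ∀ x, inv (inv x) = x := by
    intro x
    have h1 := hmul (inv x)
    rw [hidx, ← hmul x, mul_comm (val x)] at h1
    exact hinj _ _ (by rw [hidx, hidx]) (mul_left_cancel₀ (hne (inv x)) h1)
  refine ⟨inv, fun x => ω (e x) (e (inv x)), hmul, ?_⟩
  refine
    { hinv := hii
      eps_one := fun x => neg_one_pow_eq_or Ω _
      jj_inv := fun x => ?_
      jj_ne := hinv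
      idx_inv := hidx
      eps_idx := fun x y h => by rw [h]
      fix := fun x y hx hy hxy => ?_
      om := fun x y => ?_ }
  · rw [hii]
    have h1 : P (idx x) (e (inv x)) = e (inv x) := by rw [hPe, if_pos (hidx x)]
    have h2 := hP.symm (idx x) (e (inv x)) (e x)
    rw [h1] at h2
    exact h2
  · have h1 := hmul x
    have h2 := hmul y
    rw [hx] at h1
    rw [hy, ← hxy] at h2
    exact hfix x y hxy h1 h2
  · unfold JJ
    split_ifs with h
    · rw [h]
    · by_contra h1
      exact h (huniq x y h1)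

end frame

section torus

variable {Ω : Type*} [Field Ω] [CharZero Ω] [DecidableEq Ω] {W : Type*} [AddCommGroup W]
  [Module Ω W] [FiniteDimensional Ω W] {H : Type*} [AddCommGroup H] [Module Ω H]
  [FiniteDimensional Ω H] {Γ : Type*} [Group Γ] {ρ : Representation Ω Γ W}
  {χ : Γ →* Ω} {τ : Representation Ω Γ H} {ι : Type} [Fintype ι] [DecidableEq ι] {w : ι → ℕ}
  {P : ι → Module.End Ω W} {ω : W →ₗ[Ω] W →ₗ[Ω] Ω}

theorem kills_of_basisH {R : Type*} [Fintype R] [DecidableEq R] (e : Basis R Ω W)
    {κ : Type} [Fintype κ] [DecidableEq κ] (X : Module.End Ω W)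
    (φ : MultilinearMap Ω (fun _ : κ => W) H)
    (h : ∀ I : κ → R, ∑ k, φ (Function.update (fun l => e (I l)) k (X (e (I k)))) = 0) :
    Kills X φ := by
  let D : MultilinearMap Ω (fun _ : κ => W) H :=
    ∑ k, φ.compLinearMap (fun l => if l = k then X else LinearMap.id)
  have hD : ∀ v, D v = ∑ k, φ (Function.update v k (X (v k))) := by
    intro v
    change (∑ k, φ.compLinearMap (fun l => if l = k then X else LinearMap.id)) v = _
    rw [MultilinearMap.sum_apply]
    refine Finset.sum_congr rfl fun k _ => ?_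
    rw [MultilinearMap.compLinearMap_apply]
    congr 1
    funext l
    by_cases hl : l = k
    · subst hl
      rw [Function.update_self, if_pos rfl]
    · rw [Function.update_of_ne hl, if_neg hl]
      rfl
  have h0 : D = 0 := by
    refine Basis.ext_multilinear (fun _ => e) fun I => ?_
    rw [hD, MultilinearMap.zero_apply]
    exact h I
  intro v
  rw [← hD, h0, MultilinearMap.zero_apply]

variable {R : Type*} [Fintype R] [DecidableEq R] {val : R → Ω} {e : Basis R Ω W} {inv : R → R}

/-- Powers of elements of a subgroup of finite index. -/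
theorem exists_pow_mem {Δ : Subgroup Γ} (hΔ : Δ.FiniteIndex) (γ : Γ) :
    ∃ N : ℕ, N ≠ 0 ∧ γ ^ N ∈ Δ := by
  obtain ⟨n, hn, -, h⟩ := Subgroup.exists_pow_mem_of_index_ne_zero hΔ.index_ne_zero γ
  exact ⟨n, hn.ne', h⟩

theorem apply_pow (T : Module.End Ω W) (v : W) (c : Ω) (h : T v = c • v) (N : ℕ) :
    (T ^ N) v = c ^ N • v := by
  induction N with
  | zero => rw [pow_zero, pow_zero, one_smul, Module.End.one_apply]
  | succ N ih => rw [pow_succ, Module.End.mul_apply, h, map_smul, ih, smul_smul, pow_succ']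

/-- If no value of the form on the eigenbasis is unbalanced, the torus kills the form. -/
theorem torus_mem (γ : Γ) (he : ∀ x, ρ γ (e x) = val x • e x)
    (hbal : ∀ (n : R → ℕ) (c : ℤ) (N : ℕ), N ≠ 0 → ∀ h : H, h ≠ 0 →
      (τ (γ ^ N)) h = ((χ γ ^ c)⁻¹ * ∏ x, val x ^ n x) ^ N • h → ∀ x, n x = n (inv x)) (y : R) :
    DD e inv y ∈ lieH ρ χ τ := by
  intro κ _ _ c φ hφ
  refine kills_of_basisH e _ _ fun I => ?_
  have h1 : ∀ k, φ (Function.update (fun l => e (I l)) k (DD e inv y (e (I k)))) =
      (dd inv y (I k) : Ω) • φ (fun l => e (I l)) := by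
    intro k
    rw [DD_basis, MultilinearMap.map_update_smul]
    congr 2
    exact Function.update_eq_self k (fun l => e (I l))
  rw [Finset.sum_congr rfl (fun k _ => h1 k), ← Finset.sum_smul]
  by_cases h0 : φ (fun l => e (I l)) = 0
  · rw [h0, smul_zero]
  · obtain ⟨Δ, hΔ, hφ⟩ := hφ
    obtain ⟨N, hN, hγ⟩ := exists_pow_mem hΔ γ
    have h2 := hφ _ hγ (fun l => e (I l))
    have h3 : (fun l => ρ (γ ^ N) (e (I l))) = fun l => (val (I l) ^ N) • e (I l) := by
      funext l
      rw [map_pow]
      exact apply_pow _ _ _ (he _) N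
    rw [h3, MultilinearMap.map_smul_univ] at h2
    have hprod : ∏ l, val (I l) = ∏ x, val x ^ (Finset.univ.filter (fun l => I l = x)).card := by
      rw [← Finset.prod_fiberwise (s := Finset.univ) (g := I) (f := fun l => val (I l))]
      refine Finset.prod_congr rfl fun x _ => ?_
      rw [Finset.prod_congr rfl (g := fun _ => val x), Finset.prod_const]
      intro l hl
      rw [(Finset.mem_filter.1 hl).2]
    have hx : ((χ γ ^ c)⁻¹) ^ N * χ (γ ^ N) ^ c = 1 := by
      have h5 : χ (γ ^ N) ^ c = (χ γ ^ c) ^ N := by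
        rw [map_pow, ← zpow_natCast, ← zpow_natCast, ← zpow_mul, ← zpow_mul, mul_comm]
      rw [h5, ← mul_pow, inv_mul_cancel₀ (zpow_ne_zero _ (chi_ne χ γ)), one_pow]
    have h4 := hbal (fun x => (Finset.univ.filter (fun l => I l = x)).card) c N hN _ h0 (by
      rw [← hprod, mul_pow, ← Finset.prod_pow, mul_smul, h2, smul_smul, hx, one_smul]) y
    have h5 : ∑ k, (dd inv y (I k) : Ω) =
        ((Finset.univ.filter (fun l => I l = y)).card : Ω) -
          ((Finset.univ.filter (fun l => I l = inv y)).card : Ω) := by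
      unfold dd
      rw [Finset.sum_sub_distrib, Finset.sum_boole, Finset.sum_boole]
    rw [h5, h4, sub_self, zero_smul]

variable {jj eps : R → Ω} {idx : R → ι}

/-- The data of the Lie algebra. -/
theorem lieData (γ : Γ) (he : ∀ x, ρ γ (e x) = val x • e x)
    (hPe : ∀ i x, P i (e x) = if idx x = i then e x else 0)
    (hbal : ∀ (n : R → ℕ) (c : ℤ) (N : ℕ), N ≠ 0 → ∀ h : H, h ≠ 0 →
      (τ (γ ^ N)) h = ((χ γ ^ c)⁻¹ * ∏ x, val x ^ n x) ^ N • h → ∀ x, n x = n (inv x))
    (hP : Pol ρ χ w P ω) {h0 : H} (hh : h0 ≠ 0) (hh0 : ∀ s, τ s h0 = h0) :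
    LieData inv e idx ω (lieH ρ χ τ) where
  bracket := fun X hX Y hY => lieH_bracket ρ χ τ hX hY
  torus := fun y => torus_mem γ he hbal y
  skew := fun X hX u v => lie_skew hP hh hh0 hX u v
  block := fun X hX x z hz => by
    have h1 := lie_comm_P hP hh hh0 hX (idx x) (e x)
    rw [hPe, if_pos rfl] at h1
    have h2 : e.repr (P (idx x) (X (e x))) z = if idx z = idx x then e.repr (X (e x)) z else 0 := by
      conv_lhs => rw [← e.sum_repr (X (e x))]
      rw [map_sum, map_sum, Finsupp.finsetSum_apply]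
      have h3 : ∀ y, (e.repr (P (idx x) (e.repr (X (e x)) y • e y))) z =
          if y = z then (if idx y = idx x then e.repr (X (e x)) y else 0) else 0 := by
        intro y
        rw [map_smul, hPe]
        by_cases h : idx y = idx x
        · rw [if_pos h, if_pos h, map_smul, e.repr_self, Finsupp.smul_apply, Finsupp.single_apply,
            smul_eq_mul]
          split_ifs <;> simp
        · rw [if_neg h, if_neg h, smul_zero, map_zero]
          simp
      rw [Finset.sum_congr rfl (fun y _ => h3 y), Finset.sum_ite_eq',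
        if_pos (Finset.mem_univ _)]
    by_contra h3
    rw [← h1, if_neg h3] at h2
    exact hz h2

end torus

end

end Pool.Agent.NH33.Qz
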