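import Mathlib

/-!
# Products of basic functions
-/

set_option autoImplicit false
set_option linter.unusedSectionVars false

namespace Pool.Agent.NH33.Qz

noncomputable section

variable {R : Type*} {Ω : Type*} [Field Ω] (B : ∀ d : ℕ, ((Fin d → R) → Ω) → Prop)

/-- The span of the products of basic functions of disjoint sets of variables. -/
def GenB (κ : Type) : Submodule Ω ((κ → R) → Ω) :=
  Submodule.span Ω {F | ∃ (J : Type) (_ : Fintype J) (d : J → ℕ) (σ : (Σ j, Fin (d j)) ≃ κ)
    (φ : ∀ j, (Fin (d j) → R) → Ω), (∀ j, B (d j) (φ j)) ∧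
    F = fun I => ∏ j, φ j (fun a => I (σ ⟨j, a⟩))}

variable {B}

theorem gen_empty {κ : Type} [IsEmpty κ] (F : (κ → R) → Ω) : F ∈ GenB B κ := by
  have h1 : F = F isEmptyElim • (fun _ => (1 : Ω)) := by
    funext I
    have h2 : I = isEmptyElim := Subsingleton.elim _ _
    rw [h2, Pi.smul_apply, smul_eq_mul, mul_one]
  rw [h1]
  refine Submodule.smul_mem _ _ (Submodule.subset_span
    ⟨Empty, inferInstance, fun j => j.elim, Equiv.equivOfIsEmpty _ _, fun j => j.elim,
      fun j => j.elim, ?_⟩)
  funext I
  rw [Finset.univ_eq_empty, Finset.prod_empty]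

/-- Add a block. -/
theorem gen_cons {κ : Type} {S : κ → Prop} {N : ℕ} (a : Fin N ≃ {l // ¬ S l})
    {φ : (Fin N → R) → Ω} (hφ : B N φ) {F : ({l // S l} → R) → Ω}
    (hF : F ∈ GenB B {l // S l}) :
    (fun I : κ → R => φ (fun i => I (a i).1) * F (fun l => I l.1)) ∈ GenB B κ := by
  induction hF using Submodule.span_induction with
  | zero =>
    simp only [Pi.zero_apply, mul_zero]
    exact Submodule.zero_mem _
  | add f g _ _ hf hg =>
    simp only [Pi.add_apply, mul_add]
    exact Submodule.add_mem _ hf hg
  | smul c f _ hf =>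
    have h5 := Submodule.smul_mem _ c hf
    convert h5 using 1
    funext I
    simp only [Pi.smul_apply, smul_eq_mul]
    ring
  | mem F hF =>
    obtain ⟨J, hJ, d, σ, ψ, hψ, rfl⟩ := hF
    let d' : Option J → ℕ := fun o => o.elim N d
    let g : (Σ o : Option J, Fin (d' o)) → κ := fun x =>
      match x with
      | ⟨none, i⟩ => (a i).1
      | ⟨some j, i⟩ => (σ ⟨j, i⟩).1
    have hg : Function.Bijective g := by
      constructor
      · rintro ⟨o, i⟩ ⟨o', i'⟩ h
        cases o with
        | none =>
          cases o' with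
          | none =>
            have h1 : (a i).1 = (a i').1 := h
            have h2 := a.injective (Subtype.ext h1)
            rw [h2]
          | some j' =>
            exfalso
            have h1 : (a i).1 = (σ ⟨j', i'⟩).1 := h
            exact (a i).2 (h1 ▸ (σ ⟨j', i'⟩).2)
        | some j =>
          cases o' with
          | none =>
            exfalso
            have h1 : (σ ⟨j, i⟩).1 = (a i').1 := h
            exact (a i').2 (h1 ▸ (σ ⟨j, i⟩).2)
          | some j' =>
            have h1 : (σ ⟨j, i⟩).1 = (σ ⟨j', i'⟩).1 := h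
            have h2 := σ.injective (Subtype.ext h1)
            obtain ⟨h3, h4⟩ := Sigma.mk.inj_iff.1 h2
            subst h3
            rw [eq_of_heq h4]
      · intro l
        by_cases hl : S l
        · obtain ⟨⟨j, i⟩, h1⟩ := σ.surjective ⟨l, hl⟩
          refine ⟨⟨some j, i⟩, ?_⟩
          change (σ ⟨j, i⟩).1 = l
          rw [h1]
        · obtain ⟨i, h1⟩ := a.surjective ⟨l, hl⟩
          refine ⟨⟨none, i⟩, ?_⟩
          change (a i).1 = l
          rw [h1]
    let ψ' : ∀ o : Option J, (Fin (d' o) → R) → Ω := fun o =>
      match o with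
      | none => φ
      | some j => ψ j
    refine Submodule.subset_span ⟨Option J, inferInstance, d', Equiv.ofBijective g hg, ψ',
      fun o => ?_, ?_⟩
    · cases o with
      | none => exact hφ
      | some j => exact hψ j
    · funext I
      rw [Fintype.prod_option]
      rfl

end

end Pool.Agent.NH33.Qz
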