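import Pool.Agent.NH33.Qz.Inv
import Pool.Agent.NH33.Qz.Gen
import Pool.Agent.NH33.Qz.Anti

/-!
# The first fundamental theorem for products of orthogonal, symplectic and general linear groups
-/

set_option autoImplicit false
set_option linter.unusedSectionVars false

namespace Pool.Agent.NH33.Qz

open Equiv Pool.Agent.H204R3.SP Pool.Agent.H204R3.GP

noncomputable section

variable {R : Type*} [Fintype R] [DecidableEq R] {Ω : Type*} [Field Ω]
  {Q : Type*} [DecidableEq Q] (cls : R → Q) (inv : R → R) (jj : R → Ω) (sg : Q → Ω)

/-- The basic functions: the form of a class and the determinant of a class on which the form is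
symmetric. -/
inductive Basic : ∀ d : ℕ, ((Fin d → R) → Ω) → Prop
  | pair (c : Q) : Basic 2 (fun I => if cls (I 0) = c then JJ inv jj (I 0) (I 1) else 0)
  | det (c : Q) (d : ℕ) (E : Fin d ≃ {x // cls x = c}) (h1 : ∀ x, cls x = c → cls (inv x) = c)
      (h2 : sg c = 1) :
      Basic d (fun I => Matrix.det (Matrix.of fun i j => if I i = (E j).1 then (1 : Ω) else 0))

variable {cls inv jj sg} (D : CData cls inv jj sg)

section sign

variable [CharZero Ω] {κ : Type*} [Fintype κ] [DecidableEq κ]
  {X : Type*} [AddCommGroup X] [Module Ω X] (a : Representation Ω (Perm κ) X)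

theorem anti_sign (F : X) (σ : Perm κ) :
    a σ (anti a Finset.univ F) = ((Perm.sign σ : ℤ) : Ω) • anti a Finset.univ F := by
  induction σ using Perm.swap_induction_on with
  | one =>
    rw [map_one, Perm.sign_one, Units.val_one, Int.cast_one, one_smul]
    rfl
  | swap_mul σ x y hxy ih =>
    rw [map_mul, Module.End.mul_apply, ih, map_smul, anti_swap a Finset.univ F
      (Finset.mem_univ x) (Finset.mem_univ y) hxy, map_mul, Perm.sign_swap hxy]
    push_cast
    rw [smul_neg, neg_one_mul, neg_smul]

end sign

section det

variable [CharZero Ω] {κ : Type} [Fintype κ] [DecidableEq κ] {t : κ → Q} {C : Q}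

/-- Fill in a bijection of the positions of type `C` with the class `C`. -/
def glue (T : {k // t k = C} ≃ {x // cls x = C}) (I : {l // t l ≠ C} → R) : κ → R :=
  fun l => if h : t l = C then (T ⟨l, h⟩).1 else I ⟨l, h⟩

theorem glue_in (T : {k // t k = C} ≃ {x // cls x = C}) (I : {l // t l ≠ C} → R)
    (k : {k // t k = C}) : glue T I k.1 = (T k).1 := by
  unfold glue
  rw [dif_pos k.2]

theorem glue_out (T : {k // t k = C} ≃ {x // cls x = C}) (I : {l // t l ≠ C} → R)
    (k : {l // t l ≠ C}) : glue T I k.1 = I k := by
  unfold glue
  rw [dif_neg k.2]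

theorem glue_update (T : {k // t k = C} ≃ {x // cls x = C}) (I : {l // t l ≠ C} → R)
    (k : {l // t l ≠ C}) (c : R) :
    glue T (Function.update I k c) = Function.update (glue T I) k.1 c := by
  funext l
  by_cases hl : t l = C
  · have h1 : l ≠ k.1 := fun h => k.2 (h ▸ hl)
    rw [Function.update_of_ne h1]
    unfold glue
    rw [dif_pos hl, dif_pos hl]
  · by_cases h1 : l = k.1
    · subst h1
      rw [Function.update_self]
      unfold glue
      rw [dif_neg hl]
      exact Function.update_self _ _ _
    · rw [Function.update_of_ne h1]
      unfold glue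
      rw [dif_neg hl, dif_neg hl, Function.update_of_ne]
      intro h2
      exact h1 (congrArg Subtype.val h2)

/-- Antisymmetric functions vanish if two values are equal. -/
theorem zero_of_eq {G : (κ → R) → Ω} (hG : ∀ p q : {k // t k = C}, p ≠ q →
    pactC t C (swap p q) G = -G) {I : κ → R} {p q : {k // t k = C}} (hpq : p ≠ q)
    (h : I p.1 = I q.1) : G I = 0 := by
  have h2 := congrFun (hG p q hpq) I
  rw [pactC_apply, Pi.neg_apply] at h2
  have h3 : (fun l => I (Perm.ofSubtype (swap p q) l)) = I := by
    funext l
    rw [ofSubtype_swap']
    by_cases h4 : l = p.1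
    · subst h4
      rw [swap_apply_left]
      exact h.symm
    · by_cases h' : l = q.1
      · subst h'
        rw [swap_apply_right]
        exact h
      · rw [swap_apply_of_ne_of_ne h4 h']
  rw [h3] at h2
  have h4 : (2 : Ω) * G I = 0 := by linear_combination h2
  exact (mul_eq_zero.1 h4).resolve_left two_ne_zero

/-- The formula with the determinant. -/
theorem det_formula {G : (κ → R) → Ω} (hsupp : ∀ I, G I ≠ 0 → ∀ k, cls (I k) = t k)
    (hG : ∀ σ : Perm {k // t k = C}, pactC t C σ G = ((Perm.sign σ : ℤ) : Ω) • G)
    (T : {k // t k = C} ≃ {x // cls x = C}) {d : ℕ} (E : Fin d ≃ {x // cls x = C}) (I : κ → R) :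
    G I = Matrix.det (Matrix.of fun i j => if I (T.symm (E i)).1 = (E j).1 then (1 : Ω) else 0) *
      G (glue T fun l => I l.1) := by
  have hG' : ∀ p q : {k // t k = C}, p ≠ q → pactC t C (swap p q) G = -G := by
    intro p q hpq
    rw [hG, Perm.sign_swap hpq]
    push_cast
    rw [neg_smul, one_smul]
  by_cases hout : ∃ k : {k // t k = C}, cls (I k.1) ≠ C
  · obtain ⟨k, hk⟩ := hout
    have h1 : G I = 0 := by
      by_contra h2
      exact hk ((hsupp I h2 k.1).trans k.2)
    rw [h1, Matrix.det_eq_zero_of_row_eq_zero (E.symm (T k)), zero_mul]
    intro j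
    rw [Matrix.of_apply, if_neg]
    rw [Equiv.apply_symm_apply, Equiv.symm_apply_apply]
    intro h2
    exact hk (h2 ▸ (E j).2)
  · push Not at hout
    by_cases hinj : Function.Injective (fun k : {k // t k = C} => I k.1)
    · -- a permutation
      let f : {k // t k = C} → {k // t k = C} := fun k => T.symm ⟨I k.1, hout k⟩
      have hf : Function.Injective f := by
        intro k k' h
        have h1 := T.symm.injective h
        exact hinj (congrArg Subtype.val h1)
      let σ : Perm {k // t k = C} := Equiv.ofBijective f (Finite.injective_iff_bijective.1 hf)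
      have hσ : ∀ k, (T (σ k)).1 = I k.1 := by
        intro k
        change (T (T.symm ⟨I k.1, hout k⟩)).1 = I k.1
        rw [Equiv.apply_symm_apply]
      have h1 : I = fun l => glue T (fun l => I l.1) (Perm.ofSubtype σ l) := by
        funext l
        by_cases hl : t l = C
        · rw [Perm.ofSubtype_apply_of_mem σ hl, glue_in, hσ]
        · rw [Perm.ofSubtype_apply_of_not_mem σ hl]
          exact (glue_out T (fun l => I l.1) ⟨l, hl⟩).symm
      have h2 : G I = ((Perm.sign σ : ℤ) : Ω) * G (glue T fun l => I l.1) := by
        have h3 := congrFun (hG σ) (glue T fun l => I l.1)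
        rw [pactC_apply, ← h1, Pi.smul_apply, smul_eq_mul] at h3
        exact h3
      have h3 : Matrix.det (Matrix.of fun i j => if I (T.symm (E i)).1 = (E j).1 then (1 : Ω)
          else 0) = ((Perm.sign σ : ℤ) : Ω) := by
        let π : Perm (Fin d) := (E.trans T.symm).trans (σ.trans (E.trans T.symm).symm)
        have h4 : (Matrix.of fun i j => if I (T.symm (E i)).1 = (E j).1 then (1 : Ω) else 0) =
            (1 : Matrix (Fin d) (Fin d) Ω).submatrix π id := by
          ext i j
          rw [Matrix.of_apply, Matrix.submatrix_apply, Matrix.one_apply]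
          have h5 : (I (T.symm (E i)).1 = (E j).1) ↔ (π i = id j) := by
            rw [← hσ, ← Subtype.ext_iff]
            change _ ↔ E.symm (T (σ (T.symm (E i)))) = j
            rw [Equiv.symm_apply_eq]
          simp only [h5]
        rw [h4, Matrix.det_permute, Matrix.det_one, mul_one]
        congr 2
        rw [show π = (E.trans T.symm).trans (σ.trans (E.trans T.symm).symm) from rfl]
        exact Perm.sign_trans_trans_symm σ (E.trans T.symm)
      rw [h2, h3]
    · simp only [Function.Injective, not_forall] at hinj
      obtain ⟨p, q, hpq, hne⟩ := hinj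
      rw [zero_of_eq hG' hne hpq, Matrix.det_zero_of_row_eq (i := E.symm (T p))
        (j := E.symm (T q)), zero_mul]
      · intro h1
        exact hne (T.injective (E.symm.injective h1))
      · funext j
        rw [Matrix.of_apply, Matrix.of_apply, Equiv.apply_symm_apply, Equiv.apply_symm_apply,
          Equiv.symm_apply_apply, Equiv.symm_apply_apply]
        have hpq' : I p.1 = I q.1 := hpq
        rw [hpq']

include D in
/-- The cofactor of the determinant is invariant. -/
theorem cofactor_mem {G : (κ → R) → Ω} (hGI : G ∈ InvS cls inv jj sg κ t)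
    (hG : ∀ σ : Perm {k // t k = C}, pactC t C σ G = ((Perm.sign σ : ℤ) : Ω) • G)
    (hC : ∀ x, cls x = C → cls (inv x) = C) (hsg : sg C = 1)
    (T : {k // t k = C} ≃ {x // cls x = C}) :
    (fun I => G (glue T I)) ∈ InvS cls inv jj sg {l // t l ≠ C} (fun l => t l.1) := by
  have hG' : ∀ p q : {k // t k = C}, p ≠ q → pactC t C (swap p q) G = -G := by
    intro p q hpq
    rw [hG, Perm.sign_swap hpq]
    push_cast
    rw [neg_smul, one_smul]
  obtain ⟨hrel, hsupp⟩ := hGI
  have hC' : ∀ x, cls (inv x) = C → cls x = C := by
    intro x hx
    have h1 := hC _ hx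
    rwa [D.hinv] at h1
  refine ⟨fun b c hbc I => ?_, fun I hI l => ?_⟩
  · have h1 := hrel b c hbc (glue T I)
    rw [← Finset.sum_add_sum_compl (Finset.univ.filter (fun k => t k = C))] at h1
    have h2 : ∑ k ∈ (Finset.univ.filter (fun k => t k = C))ᶜ,
        (JJ inv jj b (glue T I k) * G (Function.update (glue T I) k c) -
        sg (cls b) * (JJ inv jj c (glue T I k) * G (Function.update (glue T I) k b))) =
        ∑ l : {l // t l ≠ C}, (JJ inv jj b (I l) * G (glue T (Function.update I l c)) -
        sg (cls b) * (JJ inv jj c (I l) * G (glue T (Function.update I l b)))) := by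
      rw [Finset.sum_subtype (p := fun l => t l ≠ C) _ (fun l => by simp)]
      refine Finset.sum_congr rfl fun l _ => ?_
      rw [glue_out, glue_update, glue_update]
    have h3 : ∑ k ∈ Finset.univ.filter (fun k => t k = C),
        (JJ inv jj b (glue T I k) * G (Function.update (glue T I) k c) -
        sg (cls b) * (JJ inv jj c (glue T I k) * G (Function.update (glue T I) k b))) = 0 := by
      rw [Finset.sum_subtype (p := fun l => t l = C) _ (fun l => by simp)]
      have h4 : ∀ k : {k // t k = C}, glue T I k.1 = (T k).1 := fun k => glue_in T I k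
      by_cases hb : cls (inv b) = C
      · have hcC : cls c = C := by rw [← hbc, hb]
        have hbC : cls b = C := hC' b hb
        have hcC' : cls (inv c) = C := hC c hcC
        set k1 := T.symm ⟨inv b, hb⟩ with hk1
        set k2 := T.symm ⟨inv c, hcC'⟩ with hk2
        have hT1 : (T k1).1 = inv b := by rw [hk1, Equiv.apply_symm_apply]
        have hT2 : (T k2).1 = inv c := by rw [hk2, Equiv.apply_symm_apply]
        rw [hbC, hsg]
        simp only [one_mul]
        rw [Finset.sum_sub_distrib, Finset.sum_eq_single k1, Finset.sum_eq_single k2]
        · rw [h4, h4, hT1, hT2]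
          have e1 : JJ inv jj b (inv b) = jj b := by
            unfold JJ
            rw [if_pos rfl]
          have e2 : JJ inv jj c (inv c) = jj c := by
            unfold JJ
            rw [if_pos rfl]
          rw [e1, e2]
          by_cases hcb : c = inv b
          · have h5 : Function.update (glue T I) k1.1 c = glue T I := by
              rw [hcb, ← hT1, ← h4]
              exact Function.update_eq_self _ _
            have h6 : Function.update (glue T I) k2.1 b = glue T I := by
              have h7 : b = inv c := by rw [hcb, D.hinv]
              rw [h7, ← hT2, ← h4]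
              exact Function.update_eq_self _ _
            rw [h5, h6, hcb, D.jj_inv, hbC, hsg, one_mul, sub_self]
          · have h5 : G (Function.update (glue T I) k1.1 c) = 0 := by
              refine zero_of_eq hG' (p := k1) (q := T.symm ⟨c, hcC⟩) ?_ ?_
              · intro h6
                have h7 := congrArg T h6
                rw [hk1, Equiv.apply_symm_apply, Equiv.apply_symm_apply] at h7
                exact hcb (congrArg Subtype.val h7).symm
              · rw [Function.update_self, Function.update_of_ne, h4, Equiv.apply_symm_apply]
                intro h6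
                have h7 := congrArg T (Subtype.ext h6)
                rw [hk1, Equiv.apply_symm_apply, Equiv.apply_symm_apply] at h7
                exact hcb (congrArg Subtype.val h7)
            have h8 : G (Function.update (glue T I) k2.1 b) = 0 := by
              refine zero_of_eq hG' (p := k2) (q := T.symm ⟨b, hbC⟩) ?_ ?_
              · intro h6
                have h7 := congrArg T h6
                rw [hk2, Equiv.apply_symm_apply, Equiv.apply_symm_apply] at h7
                have h9 : inv c = b := congrArg Subtype.val h7
                exact hcb (by rw [← h9, D.hinv])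
              · rw [Function.update_self, Function.update_of_ne, h4, Equiv.apply_symm_apply]
                intro h6
                have h7 := congrArg T (Subtype.ext h6)
                rw [hk2, Equiv.apply_symm_apply, Equiv.apply_symm_apply] at h7
                have h9 : b = inv c := congrArg Subtype.val h7
                exact hcb (by rw [h9, D.hinv])
            rw [h5, h8, mul_zero, mul_zero, sub_zero]
        · intro k _ hk
          have h5 : JJ inv jj c (glue T I k.1) = 0 := by
            unfold JJ
            rw [if_neg]
            rw [h4]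
            intro h6
            apply hk
            apply T.injective
            rw [hk2, Equiv.apply_symm_apply]
            exact Subtype.ext h6
          rw [h5, zero_mul]
        · intro h
          exact absurd (Finset.mem_univ _) h
        · intro k _ hk
          have h5 : JJ inv jj b (glue T I k.1) = 0 := by
            unfold JJ
            rw [if_neg]
            rw [h4]
            intro h6
            apply hk
            apply T.injective
            rw [hk1, Equiv.apply_symm_apply]
            exact Subtype.ext h6
          rw [h5, zero_mul]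
        · intro h
          exact absurd (Finset.mem_univ _) h
      · refine Finset.sum_eq_zero fun k _ => ?_
        have h5 : JJ inv jj b (glue T I k.1) = 0 := by
          unfold JJ
          rw [if_neg]
          rw [h4]
          intro h6
          exact hb (h6 ▸ (T k).2)
        have h6 : JJ inv jj c (glue T I k.1) = 0 := by
          unfold JJ
          rw [if_neg]
          rw [h4]
          intro h6
          apply hb
          have h7 : cls (inv c) = C := h6 ▸ (T k).2
          rw [hbc]
          exact hC' c h7
        rw [h5, h6, zero_mul, zero_mul, mul_zero, sub_zero]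
    rw [h2, h3, zero_add] at h1
    exact h1
  · have h1 := hsupp _ hI l.1
    rwa [glue_out] at h1

end det

variable [CharZero Ω]

include D in
/-- **First fundamental theorem** for products of orthogonal, symplectic and general linear groups,
in coordinates. -/
theorem fftS (n : ℕ) : ∀ (κ : Type) [Fintype κ] [DecidableEq κ], Fintype.card κ = n →
    ∀ t : κ → Q, InvS cls inv jj sg κ t ≤ GenB (Basic cls inv jj sg) κ := by
  induction n using Nat.strong_induction_on with
  | _ n ih =>
  intro κ _ _ hκ t
  by_cases hemp : IsEmpty κ
  · exact fun F _ => gen_empty F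
  rw [not_isEmpty_iff] at hemp
  obtain ⟨p₀⟩ := hemp
  set C := t p₀ with hC
  by_cases hCe : ∃ x₀, cls x₀ = C
  swap
  · intro F hF
    have h1 : F = 0 := by
      funext I
      by_contra h2
      exact hCe ⟨I p₀, hF.2 I h2 p₀⟩
    rw [h1]
    exact Submodule.zero_mem _
  obtain ⟨x₀, hx₀⟩ := hCe
  set N := (Finset.univ.filter (fun x => cls x = C)).card with hN
  have hN1 : 1 ≤ N := Finset.card_pos.2 ⟨x₀, by
    rw [Finset.mem_filter]
    exact ⟨Finset.mem_univ _, hx₀⟩⟩
  -- the constant
  obtain ⟨c, hNc, hc, hcex⟩ : ∃ c : ℕ, N ≤ c + 1 ∧
      (∀ x, cls x = C → (N : Ω) - (if cls (inv x) = C then sg C else 0) = (c : Ω)) ∧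
      (N = c + 1 → sg C = 1 ∧ ∀ x, cls x = C → cls (inv x) = C) := by
    by_cases h : cls (inv x₀) = C
    · have hsd : ∀ x, cls x = C → cls (inv x) = C := fun x hx => by
        rw [← h]
        exact D.cls_inv x x₀ (by rw [hx, hx₀])
      rcases D.sg_one C with h1 | h1
      · refine ⟨N - 1, by omega, fun x hx => ?_, fun _ => ⟨h1, hsd⟩⟩
        rw [if_pos (hsd x hx), h1, Nat.cast_sub hN1, Nat.cast_one]
      · refine ⟨N + 1, by omega, fun x hx => ?_, fun h2 => by omega⟩
        rw [if_pos (hsd x hx), h1, Nat.cast_add, Nat.cast_one]
        ring
    · refine ⟨N, by omega, fun x hx => ?_, fun h2 => by omega⟩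
      rw [if_neg, sub_zero]
      intro h2
      apply h
      rw [← h2]
      exact D.cls_inv x₀ x (by rw [hx, hx₀])
  refine le_of_anti2 (pactC t C) (InvS cls inv jj sg κ t) (GenB (Basic cls inv jj sg) κ)
    (fun σ F hF => InvS_stable t C σ F hF) N c hNc ?_ ?_ ?_ ⟨p₀, rfl⟩
  · intro F hF p
    have h1 : ∑ k ∈ Finset.univ.erase p, pactC t C (swap p k) F + (c : Ω) • F =
        sg C • ∑ k ∈ Finset.univ.erase p.1,
          (fun I : κ → R => (if cls (I p.1) = C then JJ inv jj (I p.1) (I k) else 0) *
            contr inv jj p.1 k F (fun l => I l.1)) := by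
      funext I
      rw [Pi.add_apply, Finset.sum_apply, Pi.smul_apply, Pi.smul_apply, Finset.sum_apply,
        smul_eq_mul, smul_eq_mul]
      have h0 : ∑ k ∈ Finset.univ.erase p, pactC t C (swap p k) F I =
          ∑ k ∈ Finset.univ.erase p.1, (if t k = C then F (fun l => I (swap p.1 k l)) else 0) := by
        rw [← Finset.sum_filter]
        refine Finset.sum_bij (fun k _ => k.1) ?_ ?_ ?_ ?_
        · intro k hk
          rw [Finset.mem_filter, Finset.mem_erase]
          exact ⟨⟨fun h => (Finset.ne_of_mem_erase hk) (Subtype.ext h), Finset.mem_univ _⟩, k.2⟩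
        · intro k _ k' _ h
          exact Subtype.ext h
        · intro k hk
          rw [Finset.mem_filter, Finset.mem_erase] at hk
          refine ⟨⟨k, hk.2⟩, ?_, rfl⟩
          rw [Finset.mem_erase]
          exact ⟨fun h => hk.1.1 (congrArg Subtype.val h), Finset.mem_univ _⟩
        · intro k _
          rw [pactC_apply]
          congr 1
          funext l
          rw [ofSubtype_swap']
      rw [h0]
      have hp : t p.1 = C := p.2
      by_cases hI : cls (I p.1) = C
      · have h2 := contractionS D F hF p.1 I (by rw [hI, hp])
        rw [hp, ← hN, hc (I p.1) hI] at h2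
        have h4 : ∑ k ∈ Finset.univ.erase p.1, (fun I : κ → R =>
            (if cls (I p.1) = C then JJ inv jj (I p.1) (I k) else 0) *
            contr inv jj p.1 k F (fun l => I l.1)) I =
            ∑ k ∈ Finset.univ.erase p.1, JJ inv jj (I p.1) (I k) *
            ∑ x, (jj x)⁻¹ * F (Function.update (Function.update I p.1 (inv x)) k x) := by
          refine Finset.sum_congr rfl fun k hk => ?_
          have hkp := (Finset.ne_of_mem_erase hk).symm
          change (if cls (I p.1) = C then JJ inv jj (I p.1) (I k) else 0) *
            contr inv jj p.1 k F (fun l => I l.1) = _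
          rw [if_pos hI]
          simp only [contr]
          refine congrArg₂ (fun x y : Ω => x * y) rfl (Finset.sum_congr rfl fun x _ => ?_)
          rw [fill_restrict hkp]
        rw [h4]
        linear_combination h2
      · have h2 : F I = 0 := by
          by_contra h3
          exact hI (by rw [hF.2 I h3, hp])
        rw [h2, mul_zero, add_zero]
        have h3 : ∑ k ∈ Finset.univ.erase p.1, (if t k = C then F (fun l => I (swap p.1 k l))
            else 0) = 0 := by
          refine Finset.sum_eq_zero fun k _ => ?_
          split_ifs with hk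
          · by_contra h4
            apply hI
            have h5 := hF.2 _ h4 k
            simp only [swap_apply_right] at h5
            rw [h5, hk]
          · rfl
        rw [h3]
        symm
        rw [Finset.sum_eq_zero, mul_zero]
        intro k _
        rw [if_neg hI, zero_mul]
    rw [h1]
    refine Submodule.smul_mem _ _ (Submodule.sum_mem _ fun k hk => ?_)
    have hkp := (Finset.ne_of_mem_erase hk).symm
    have hcard : Fintype.card {l // l ≠ p.1 ∧ l ≠ k} < n := by
      rw [← hκ]
      exact Fintype.card_subtype_lt (x := p.1) (by simp)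
    have h3 := ih _ hcard {l // l ≠ p.1 ∧ l ≠ k} rfl (fun l => t l.1)
      (contr_memS D hkp F hF)
    -- the pair
    have hm : ∀ i : Fin 2, ¬ ((if i = 0 then p.1 else k) ≠ p.1 ∧ (if i = 0 then p.1 else k) ≠ k) := by
      intro i
      by_cases hi : i = 0
      · rw [if_pos hi]; exact fun h => h.1 rfl
      · rw [if_neg hi]; exact fun h => h.2 rfl
    let g : Fin 2 → {l // ¬ (l ≠ p.1 ∧ l ≠ k)} := fun i => ⟨if i = 0 then p.1 else k, hm i⟩
    have hg : Function.Bijective g := by
      constructor
      · intro i j h
        have h4 : (if i = 0 then p.1 else k) = (if j = 0 then p.1 else k) := congrArg Subtype.val h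
        fin_cases i <;> fin_cases j
        · rfl
        · exact absurd h4 hkp
        · exact absurd h4 hkp.symm
        · rfl
      · rintro ⟨l, hl⟩
        by_cases h4 : l = p.1
        · refine ⟨0, Subtype.ext ?_⟩
          change (if (0 : Fin 2) = 0 then p.1 else k) = l
          rw [if_pos rfl, h4]
        · have h5 : l = k := by
            by_contra h6
            exact hl ⟨h4, h6⟩
          refine ⟨1, Subtype.ext ?_⟩
          change (if (1 : Fin 2) = 0 then p.1 else k) = l
          rw [if_neg (by decide), h5]
    have h4 := gen_cons (B := Basic cls inv jj sg) (Equiv.ofBijective g hg)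
      (Basic.pair (jj := jj) (sg := sg) C) h3
    exact h4
  · intro A hA F hF
    rw [antiG_eq_zero t C A (by omega) F hF.2]
    exact Submodule.zero_mem _
  · intro hNc' hcard F hF
    obtain ⟨hsg, hsd⟩ := hcex hNc'
    set G := anti (pactC t C) Finset.univ F with hG
    have hGI : G ∈ InvS cls inv jj sg κ t :=
      Submodule.sum_mem _ fun σ _ => Submodule.smul_mem _ _ (InvS_stable t C σ F hF)
    have hGs : ∀ σ : Perm {k // t k = C}, pactC t C σ G = ((Perm.sign σ : ℤ) : Ω) • G :=
      fun σ => anti_sign (pactC t C) F σ
    have hcard' : Fintype.card {x // cls x = C} = N := by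
      rw [Fintype.card_subtype]
    let T : {k // t k = C} ≃ {x // cls x = C} := Fintype.equivOfCardEq (by rw [hcard, hcard'])
    let E : Fin N ≃ {x // cls x = C} := Fintype.equivOfCardEq (by rw [Fintype.card_fin, hcard'])
    have h1 := cofactor_mem D hGI hGs hsd hsg T
    have hlt : Fintype.card {l // t l ≠ C} < n := by
      rw [← hκ]
      exact Fintype.card_subtype_lt (x := p₀) (by simp [hC])
    have h2 := ih _ hlt {l // t l ≠ C} rfl (fun l => t l.1) h1
    let a : Fin N ≃ {l // ¬ (t l ≠ C)} :=
      (E.trans T.symm).trans (Equiv.subtypeEquivRight fun l => by rw [ne_eq, not_not])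
    have h3 := gen_cons (B := Basic cls inv jj sg) a
      (Basic.det (jj := jj) C N E hsd hsg) h2
    have h4 : G = fun I : κ → R => Matrix.det (Matrix.of fun i j =>
        if I (a i).1 = (E j).1 then (1 : Ω) else 0) * G (glue T fun l => I l.1) := by
      funext I
      exact det_formula hGI.2 hGs T E I
    rw [h4]
    exact h3

end

end Pool.Agent.NH33.Qz
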