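import Pool.Agent.NH33.Qz.Class
import Pool.Agent.NH33.Qz.Fft

/-!
# The forms of the classes
-/

set_option autoImplicit false
set_option linter.unusedSectionVars false

namespace Pool.Agent.NH33.Qz

open Module Pool.Agent.H204R3.SP

noncomputable section

theorem chi_ne {Γ Ω : Type*} [Group Γ] [Field Ω] (χ : Γ →* Ω) (s : Γ) : χ s ≠ 0 := by
  intro h
  have h1 : χ (s * s⁻¹) = 1 := by rw [mul_inv_cancel, map_one]
  rw [map_mul, h, zero_mul] at h1
  exact zero_ne_one h1

/-- The kernel of a sign has finite index. -/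
theorem sign_kernel {Γ Ω : Type*} [Group Γ] [Field Ω] {Δ : Subgroup Γ} (hΔ : Δ.FiniteIndex)
    (δ : Γ → Ω) (hmul : ∀ s ∈ Δ, ∀ t ∈ Δ, δ (s * t) = δ s * δ t)
    (hsq : ∀ s ∈ Δ, δ s * δ s = 1) :
    ∃ Δ' : Subgroup Γ, Δ'.FiniteIndex ∧ Δ' ≤ Δ ∧ ∀ s ∈ Δ', δ s = 1 := by
  classical
  have hone : δ 1 = 1 := by
    have h1 := hmul 1 Δ.one_mem 1 Δ.one_mem
    rw [mul_one] at h1
    have h2 := hsq 1 Δ.one_mem
    rw [h1]
    exact h2
  have hpm : ∀ s ∈ Δ, δ s = 1 ∨ δ s = -1 := fun s hs => mul_self_eq_one_iff.1 (hsq s hs)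
  let Δ' : Subgroup Γ :=
    { carrier := {s | s ∈ Δ ∧ δ s = 1}
      one_mem' := ⟨Δ.one_mem, hone⟩
      mul_mem' := by
        rintro s t ⟨hs, hs'⟩ ⟨ht, ht'⟩
        exact ⟨Δ.mul_mem hs ht, by rw [hmul s hs t ht, hs', ht', one_mul]⟩
      inv_mem' := by
        rintro s ⟨hs, hs'⟩
        refine ⟨Δ.inv_mem hs, ?_⟩
        have h1 := hmul s hs s⁻¹ (Δ.inv_mem hs)
        rw [mul_inv_cancel, hone, hs', one_mul] at h1
        exact h1.symm }
  have hmem : ∀ s, s ∈ Δ' ↔ s ∈ Δ ∧ δ s = 1 := fun s => Iff.rfl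
  refine ⟨Δ', ?_, fun s hs => hs.1, fun s hs => hs.2⟩
  have hle : Δ' ≤ Δ := fun s hs => hs.1
  have hidx : (Δ'.subgroupOf Δ).index ≠ 0 := by
    by_cases h : ∀ s ∈ Δ, δ s = 1
    · have h1 : Δ'.subgroupOf Δ = ⊤ := by
        rw [Subgroup.subgroupOf_eq_top]
        intro s hs
        exact ⟨hs, h s hs⟩
      rw [h1, Subgroup.index_top]
      exact one_ne_zero
    · push Not at h
      obtain ⟨a, ha, ha'⟩ := h
      have ha1 : δ a = -1 := (hpm a ha).resolve_left ha'
      have h2 : (Δ'.subgroupOf Δ).index = 2 := by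
        rw [Subgroup.index_eq_two_iff]
        refine ⟨⟨a, ha⟩, fun b => ?_⟩
        rw [Subgroup.mem_subgroupOf, Subgroup.mem_subgroupOf, hmem, hmem]
        have h3 : δ ((b : Γ) * a) = - δ b := by rw [hmul b b.2 a ha, ha1, mul_neg_one]
        by_cases h4 : δ (b : Γ) = 1
        · right
          refine ⟨⟨b.2, h4⟩, fun h5 => ha' ?_⟩
          have h6 : δ ((b : Γ) * a) = 1 := h5.2
          rw [h3, h4] at h6
          rw [ha1, h6]
        · left
          have h5 : δ (b : Γ) = -1 := (hpm b b.2).resolve_left h4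
          refine ⟨⟨Δ.mul_mem b.2 ha, ?_⟩, fun h6 => h4 h6.2⟩
          change δ ((b : Γ) * a) = 1
          rw [h3, h5, neg_neg]
      rw [h2]
      exact two_ne_zero
  refine ⟨?_⟩
  rw [← Subgroup.relIndex_mul_index hle]
  exact mul_ne_zero hidx hΔ.index_ne_zero

section scalar

variable {Ω : Type*} [Field Ω] {V : Type*} [AddCommGroup V] [Module Ω V]
  {Γ : Type*} [Group Γ] (ρ : Representation Ω Γ V) (χ : Γ →* Ω) {ι : Type} (w : ι → ℕ)
  (P : ι → Module.End Ω V)

/-- A scalar form on which a subgroup of finite index acts through a power of `χ`. -/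
def IsTateS {κ : Type} (φ : MultilinearMap Ω (fun _ : κ => V) Ω) : Prop :=
  ∃ (c : ℤ) (Δ : Subgroup Γ), Δ.FiniteIndex ∧ ∀ s ∈ Δ, ∀ v,
    φ (fun l => ρ s (v l)) = χ s ^ c * φ v

/-- The basic forms: Tate forms on one part, which are bilinear, or alternating on a part of even
weight. -/
def IsBasicF {d : ℕ} (Φ : MultilinearMap Ω (fun _ : Fin d => V) Ω) : Prop :=
  IsTateS ρ χ Φ ∧ ∃ i, (∀ v, Φ (fun l => P i (v l)) = Φ v) ∧
    (d = 2 ∨ (Even (w i) ∧ ∀ (v : Fin d → V) (a b : Fin d), v a = v b → a ≠ b → Φ v = 0))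

end scalar

section

variable {R : Type*} [Fintype R] [DecidableEq R] {inv : R → R}
  {Ω : Type*} [Field Ω] {V : Type*} [AddCommGroup V] [Module Ω V]
  {e : Basis R Ω V} {jj eps : R → Ω} {ι : Type} [Fintype ι] {idx : R → ι}
  {ω : V →ₗ[Ω] V →ₗ[Ω] Ω}
  {𝔤 : Submodule Ω (Module.End Ω V)}
  [CharZero Ω] (F : Frame inv e jj eps idx ω) (G : LieData inv e idx ω 𝔤)
  {P : ι → Module.End Ω V} [DecidableEq ι] (hPe : ∀ i x, P i (e x) = if idx x = i then e x else 0)
  {Γ : Type*} [Group Γ] {ρ : Representation Ω Γ V} {χ : Γ →* Ω} {w : ι → ℕ}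
  (hP : Pol ρ χ w P ω)
  {Q : Type*} [DecidableEq Q] {cls : R → Q} (hcls : ∀ x z, cls x = cls z ↔ Reach e 𝔤 x z)

/-- The projection to a class. -/
def PC (e : Basis R Ω V) (cls : R → Q) (c : Q) : Module.End Ω V :=
  e.constr Ω (fun x => if cls x = c then e x else 0)

theorem PC_basis (c : Q) (x : R) : PC e cls c (e x) = if cls x = c then e x else 0 := by
  unfold PC
  rw [Basis.constr_basis]

theorem PC_repr (c : Q) (v : V) (a : R) :
    e.repr (PC e cls c v) a = if cls a = c then e.repr v a else 0 := by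
  conv_lhs => rw [← e.sum_repr v]
  rw [map_sum, map_sum, Finsupp.finsetSum_apply, Finset.sum_eq_single a]
  · rw [map_smul, PC_basis, map_smul, Finsupp.smul_apply]
    split_ifs
    · rw [e.repr_self, Finsupp.single_eq_same, smul_eq_mul, mul_one]
    · rw [map_zero, Finsupp.zero_apply, smul_zero]
  · intro b _ hb
    rw [map_smul, PC_basis, map_smul, Finsupp.smul_apply]
    split_ifs
    · rw [e.repr_self, Finsupp.single_eq_of_ne hb.symm, smul_zero]
    · rw [map_zero, Finsupp.zero_apply, smul_zero]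
  · intro h
    exact absurd (Finset.mem_univ _) h

include G hcls in
theorem idx_of_cls {x z : R} (h : cls x = cls z) : idx x = idx z :=
  (reach_idx G ((hcls x z).1 h)).symm

include F G hPe hP hcls in
/-- The projections to the classes commute with a subgroup of finite index. -/
theorem PC_comm (hconj : ∀ (s : Γ) (X : Module.End Ω V), X ∈ 𝔤 → ρ s * X * ρ s⁻¹ ∈ 𝔤) :
    ∃ Δ : Subgroup Γ, Δ.FiniteIndex ∧ ∀ s ∈ Δ, ∀ c v,
      PC e cls c (ρ s v) = ρ s (PC e cls c v) := by
  have hst : ∀ x : R, Stab 𝔤 P (Submodule.span Ω (e '' {z | Reach e 𝔤 x z})) := fun x =>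
    span_stab hPe fun a ha b hb =>
      (show Reach e 𝔤 x a from ha).trans (Relation.ReflTransGen.single hb)
  choose Δx hΔx hΔx' using fun x : R => exists_stabilizer F G hPe hconj hP.comm (hst x)
  refine ⟨⨅ x, Δx x, Subgroup.finiteIndex_iInf hΔx, fun s hs c => ?_⟩
  have h2 : (PC e cls c).comp (ρ s) = (ρ s).comp (PC e cls c) := by
    refine e.ext fun y => ?_
    rw [LinearMap.comp_apply, LinearMap.comp_apply, PC_basis]
    have h3 := hΔx' y s ((Subgroup.mem_iInf.1 hs) y) (e y)
      (Submodule.subset_span ⟨y, Relation.ReflTransGen.refl, rfl⟩)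
    refine e.repr.injective (Finsupp.ext fun a => ?_)
    rw [PC_repr]
    by_cases ha : e.repr (ρ s (e y)) a = 0
    · rw [ha]
      split_ifs
      · rw [ha]
      · rw [map_zero, map_zero, Finsupp.zero_apply]
      · rw [ha]
      · rw [map_zero, map_zero, Finsupp.zero_apply]
    · rw [e.mem_span_image] at h3
      have h4 : Reach e 𝔤 y a := h3 (by
        rw [Finset.mem_coe, Finsupp.mem_support_iff]
        exact ha)
      have h5 : cls y = cls a := (hcls y a).2 h4
      rw [← h5]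
      split_ifs
      · rfl
      · rw [map_zero, map_zero, Finsupp.zero_apply]
  exact fun v => congrArg (fun T : Module.End Ω V => T v) h2

variable {Δ : Subgroup Γ} (hΔ : Δ.FiniteIndex)
  (hPC : ∀ s ∈ Δ, ∀ c v, PC e cls c (ρ s v) = ρ s (PC e cls c v))

include G hPe hP hcls hΔ hPC in
/-- The bilinear form of a class is basic. -/
theorem basic_pair (x₀ : R) : IsBasicF ρ χ w P (bil2 (ω.comp (PC e cls (cls x₀)))) := by
  have hPP : ∀ v, P (idx x₀) (PC e cls (cls x₀) v) = PC e cls (cls x₀) v := by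
    intro v
    refine e.repr.injective (Finsupp.ext fun a => ?_)
    rw [P_repr hPe, PC_repr]
    by_cases h : cls a = cls x₀
    · rw [if_pos h, if_pos (idx_of_cls G hcls h)]
    · rw [if_neg h]
      split_ifs <;> rfl
  have hPP' : ∀ v, PC e cls (cls x₀) (P (idx x₀) v) = PC e cls (cls x₀) v := by
    intro v
    refine e.repr.injective (Finsupp.ext fun a => ?_)
    rw [PC_repr, PC_repr, P_repr hPe]
    by_cases h : cls a = cls x₀
    · rw [if_pos h, if_pos h, if_pos (idx_of_cls G hcls h)]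
    · rw [if_neg h, if_neg h]
  refine ⟨⟨w (idx x₀), Δ, hΔ, fun s hs v => ?_⟩, idx x₀, fun v => ?_, Or.inl rfl⟩
  · rw [bil2_apply, bil2_apply]
    change ω (PC e cls (cls x₀) (ρ s (v 0))) (ρ s (v 1)) =
      χ s ^ ((w (idx x₀) : ℕ) : ℤ) * ω (PC e cls (cls x₀) (v 0)) (v 1)
    rw [hPC s hs, ← hPP (v 0), ← hP.comm, hP.sim, zpow_natCast]
  · rw [bil2_apply, bil2_apply]
    change ω (PC e cls (cls x₀) (P (idx x₀) (v 0))) (P (idx x₀) (v 1)) =
      ω (PC e cls (cls x₀) (v 0)) (v 1)
    rw [hPP', ← hP.adj, hPP]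

include F in
theorem pair_value (c : Q) (I : Fin 2 → R) :
    bil2 (ω.comp (PC e cls c)) (fun l => e (I l)) =
      if cls (I 0) = c then JJ inv jj (I 0) (I 1) else 0 := by
  rw [bil2_apply]
  change ω (PC e cls c (e (I 0))) (e (I 1)) = _
  rw [PC_basis]
  split_ifs
  · rw [F.om]
  · rw [map_zero, LinearMap.zero_apply]

/-- The coordinates of a class. -/
def LC (e : Basis R Ω V) {d : ℕ} {c : Q} (E : Fin d ≃ {x // cls x = c}) : V →ₗ[Ω] (Fin d → Ω) :=
  LinearMap.pi fun j => e.coord (E j).1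

/-- The determinant of a class. -/
def DC (e : Basis R Ω V) {d : ℕ} {c : Q} (E : Fin d ≃ {x // cls x = c}) :
    V [⋀^Fin d]→ₗ[Ω] Ω :=
  (Matrix.detRowAlternating (n := Fin d) (R := Ω)).compLinearMap (LC e E)

theorem DC_apply {d : ℕ} {c : Q} (E : Fin d ≃ {x // cls x = c}) (v : Fin d → V) :
    DC e E v = Matrix.det (Matrix.of fun i j => e.repr (v i) (E j).1) := rfl

theorem det_value {d : ℕ} {c : Q} (E : Fin d ≃ {x // cls x = c}) (I : Fin d → R) :
    DC e E (fun l => e (I l)) =
      Matrix.det (Matrix.of fun i j => if I i = (E j).1 then (1 : Ω) else 0) := by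
  rw [DC_apply]
  congr 1
  ext i j
  rw [Matrix.of_apply, Matrix.of_apply, e.repr_self, Finsupp.single_apply]

include F G hPe hP hcls hΔ hPC in
/-- The determinant of a class on which the form is symmetric is basic. -/
theorem basic_det {d : ℕ} {c : Q} (E : Fin d ≃ {x // cls x = c})
    (hsd : ∀ x, cls x = c → cls (inv x) = c) {x₀ : R} (hx₀ : cls x₀ = c)
    (hw : Even (w (idx x₀))) :
    IsBasicF ρ χ w P (DC e E).toMultilinearMap := by
  obtain ⟨m, hm⟩ := hw
  have hidx : ∀ x, cls x = c → idx x = idx x₀ := fun x hx =>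
    idx_of_cls G hcls (by rw [hx, hx₀])
  let A : Γ → Matrix (Fin d) (Fin d) Ω := fun s =>
    Matrix.of fun k j => e.repr (ρ s (e (E k).1)) (E j).1
  -- vectors of the class
  have hin : ∀ s ∈ Δ, ∀ k : Fin d, ρ s (e (E k).1) = ∑ l, A s k l • e (E l).1 := by
    intro s hs k
    have h1 : PC e cls c (ρ s (e (E k).1)) = ρ s (e (E k).1) := by
      rw [hPC s hs, PC_basis, if_pos (E k).2]
    conv_lhs => rw [← h1, ← e.sum_repr (PC e cls c (ρ s (e (E k).1)))]
    have h2 : ∀ a, e.repr (PC e cls c (ρ s (e (E k).1))) a • e a =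
        if cls a = c then e.repr (ρ s (e (E k).1)) a • e a else 0 := by
      intro a
      rw [PC_repr]
      split_ifs
      · rfl
      · rw [zero_smul]
    rw [Finset.sum_congr rfl fun a _ => h2 a, ← Finset.sum_filter,
      Finset.sum_subtype (p := fun a => cls a = c) _ (fun a => by simp)]
    exact (Equiv.sum_comp E fun a : {x // cls x = c} => e.repr (ρ s (e (E k).1)) a.1 • e a.1).symm
  have hout : ∀ s ∈ Δ, ∀ a, cls a ≠ c → ∀ j, e.repr (ρ s (e a)) (E j).1 = 0 := by
    intro s hs a ha j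
    have h1 : PC e cls c (ρ s (e a)) = 0 := by rw [hPC s hs, PC_basis, if_neg ha, map_zero]
    have h2 := PC_repr (e := e) (cls := cls) c (ρ s (e a)) (E j).1
    rw [h1, if_pos (E j).2, map_zero, Finsupp.zero_apply] at h2
    exact h2.symm
  have hmat : ∀ s ∈ Δ, ∀ v : V, ∀ j, e.repr (ρ s v) (E j).1 =
      ∑ k, e.repr v (E k).1 * A s k j := by
    intro s hs v j
    conv_lhs => rw [← e.sum_repr v]
    rw [map_sum, map_sum, Finsupp.finsetSum_apply]
    have h2 : ∀ a, e.repr (ρ s (e.repr v a • e a)) (E j).1 =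
        if cls a = c then e.repr v a * e.repr (ρ s (e a)) (E j).1 else 0 := by
      intro a
      rw [map_smul, map_smul, Finsupp.smul_apply, smul_eq_mul]
      split_ifs with h
      · rfl
      · rw [hout s hs a h, mul_zero]
    rw [Finset.sum_congr rfl fun a _ => h2 a, ← Finset.sum_filter,
      Finset.sum_subtype (p := fun a => cls a = c) _ (fun a => by simp)]
    exact (Equiv.sum_comp E fun a : {x // cls x = c} =>
      e.repr v a.1 * e.repr (ρ s (e a.1)) (E j).1).symm
  have hdet : ∀ s ∈ Δ, ∀ v : Fin d → V, DC e E (fun l => ρ s (v l)) =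
      DC e E v * (A s).det := by
    intro s hs v
    rw [DC_apply, DC_apply, ← Matrix.det_mul]
    congr 1
    ext i j
    rw [Matrix.of_apply, Matrix.mul_apply, hmat s hs]
    rfl
  have hmul : ∀ s ∈ Δ, ∀ t ∈ Δ, (A (s * t)).det = (A s).det * (A t).det := by
    intro s hs t ht
    rw [mul_comm, ← Matrix.det_mul]
    congr 1
    ext k j
    change e.repr (ρ (s * t) (e (E k).1)) (E j).1 = _
    rw [map_mul, Module.End.mul_apply, hmat s hs, Matrix.mul_apply]
    rfl
  have hsq : ∀ s ∈ Δ, (A s).det * (A s).det = χ s ^ (m * d) * χ s ^ (m * d) := by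
    intro s hs
    -- the Gram matrix
    let J : Matrix (Fin d) (Fin d) Ω := Matrix.of fun j k => ω (e (E j).1) (e (E k).1)
    let π : Equiv.Perm (Fin d) :=
      ⟨fun j => E.symm ⟨inv (E j).1, hsd _ (E j).2⟩, fun j => E.symm ⟨inv (E j).1, hsd _ (E j).2⟩,
        fun j => by simp [F.hinv], fun j => by simp [F.hinv]⟩
    have hJ : J = Matrix.diagonal (fun j => jj (E j).1) *
        (1 : Matrix (Fin d) (Fin d) Ω).submatrix π id := by
      ext j k
      rw [Matrix.diagonal_mul, Matrix.submatrix_apply, Matrix.one_apply]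
      change ω (e (E j).1) (e (E k).1) = _
      rw [F.om]
      unfold JJ
      have h1 : ((E k).1 = inv (E j).1) ↔ (π j = id k) := by
        change _ ↔ E.symm ⟨inv (E j).1, hsd _ (E j).2⟩ = k
        rw [Equiv.symm_apply_eq, Subtype.ext_iff, eq_comm]
      simp only [h1]
      split_ifs
      · rw [mul_one]
      · rw [mul_zero]
    have hJ0 : J.det ≠ 0 := by
      rw [hJ, Matrix.det_mul, Matrix.det_diagonal, Matrix.det_permute, Matrix.det_one, mul_one]
      refine mul_ne_zero (Finset.prod_ne_zero_iff.2 fun j _ => F.jj_ne _) ?_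
      rcases Int.units_eq_one_or (Equiv.Perm.sign π) with h | h <;> rw [h] <;> simp
    have h1 : A s * J * (A s).transpose = (χ s ^ w (idx x₀)) • J := by
      ext j k
      rw [Matrix.mul_apply, Matrix.smul_apply, smul_eq_mul]
      have h2 : ω (ρ s (e (E j).1)) (ρ s (e (E k).1)) = χ s ^ w (idx x₀) * J j k := by
        have h3 := hP.sim (idx x₀) s (e (E j).1) (e (E k).1)
        rw [hP.comm, hPe, if_pos (hidx _ (E j).2)] at h3
        exact h3
      rw [← h2, hin s hs j, hin s hs k]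
      simp only [Matrix.mul_apply, Matrix.transpose_apply, map_sum, map_smul,
        LinearMap.sum_apply, LinearMap.smul_apply, smul_eq_mul, Finset.sum_mul, Finset.mul_sum]
      refine Finset.sum_congr rfl fun n _ => Finset.sum_congr rfl fun l _ => ?_
      change A s j l * J l n * A s k n = A s k n * (A s j l * J l n)
      ring
    have h2 := congrArg Matrix.det h1
    rw [Matrix.det_mul, Matrix.det_mul, Matrix.det_transpose, Matrix.det_smul,
      Fintype.card_fin] at h2
    have h3 : (A s).det * (A s).det * J.det = (χ s ^ w (idx x₀)) ^ d * J.det := by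
      rw [← h2]; ring
    rw [mul_right_cancel₀ hJ0 h3, hm, ← pow_mul, ← pow_add]
    congr 1
    ring
  obtain ⟨Δ', hΔ', hle, hone⟩ := sign_kernel hΔ (fun s => (A s).det * (χ s ^ (m * d))⁻¹)
    (fun s hs t ht => by
      rw [hmul s hs t ht, map_mul, mul_pow]
      have h1 := pow_ne_zero (m * d) (chi_ne χ s)
      have h2 := pow_ne_zero (m * d) (chi_ne χ t)
      field_simp)
    (fun s hs => by
      have h1 := pow_ne_zero (m * d) (chi_ne χ s)
      have h2 := hsq s hs
      field_simp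
      linear_combination h2)
  refine ⟨⟨((m * d : ℕ) : ℤ), Δ', hΔ', fun s hs v => ?_⟩, idx x₀, fun v => ?_, Or.inr
    ⟨⟨m, hm⟩, fun v a b hab hne => (DC e E).map_eq_zero_of_eq v hab hne⟩⟩
  · change DC e E (fun l => ρ s (v l)) = χ s ^ ((m * d : ℕ) : ℤ) * DC e E v
    have h1 := hone s hs
    have h2 := pow_ne_zero (m * d) (chi_ne χ s)
    have h3 : (A s).det = χ s ^ (m * d) := by
      field_simp at h1
      exact h1
    rw [hdet s (hle hs), h3, zpow_natCast, mul_comm]
  · change DC e E (fun l => P (idx x₀) (v l)) = DC e E v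
    rw [DC_apply, DC_apply]
    congr 1
    ext i j
    rw [Matrix.of_apply, Matrix.of_apply, P_repr hPe, if_pos (hidx _ (E j).2)]

end

end

end Pool.Agent.NH33.Qz
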