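import Pool.Agent.H204R3.GP.FFT

/-!
# Invariants of products of orthogonal, symplectic and general linear groups, in coordinates
-/

set_option autoImplicit false
set_option linter.unusedSectionVars false

namespace Pool.Agent.NH33.Qz

open Equiv Pool.Agent.H204R3.SP Pool.Agent.H204R3.GP

noncomputable section

variable {R : Type*} [Fintype R] [DecidableEq R] {Ω : Type*} [Field Ω]
  {Q : Type*} [DecidableEq Q] (cls : R → Q) (inv : R → R) (jj : R → Ω) (sg : Q → Ω)

/-- Properties of the classes. -/
structure CData : Prop where
  hinv : ∀ x, inv (inv x) = x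
  jj_inv : ∀ x, jj (inv x) = sg (cls x) * jj x
  jj_ne : ∀ x, jj x ≠ 0
  sg_one : ∀ c, sg c = 1 ∨ sg c = -1
  cls_inv : ∀ x y, cls x = cls y → cls (inv x) = cls (inv y)
  sg_inv : ∀ x, sg (cls (inv x)) = sg (cls x)

variable (κ : Type*) [Fintype κ] [DecidableEq κ]

/-- The coefficient functions of type `t` killed by the Lie algebra attached to the classes. -/
def InvS (t : κ → Q) : Submodule Ω ((κ → R) → Ω) where
  carrier := {F | (∀ (b c : R), cls (inv b) = cls c → ∀ (I : κ → R),
    ∑ k, (JJ inv jj b (I k) * F (Function.update I k c) -
    sg (cls b) * (JJ inv jj c (I k) * F (Function.update I k b))) = 0) ∧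
    ∀ I, F I ≠ 0 → ∀ k, cls (I k) = t k}
  zero_mem' := by
    refine ⟨fun b c _ I => ?_, fun I h => absurd rfl h⟩
    simp
  add_mem' := by
    rintro F G ⟨hF, hF'⟩ ⟨hG, hG'⟩
    refine ⟨fun b c hbc I => ?_, fun I hI => ?_⟩
    · have h1 := hF b c hbc I
      have h2 := hG b c hbc I
      have h3 := congrArg₂ (fun x y : Ω => x + y) h1 h2
      simp only [add_zero] at h3
      rw [← h3, ← Finset.sum_add_distrib]
      refine Finset.sum_congr rfl fun k _ => ?_
      simp only [Pi.add_apply]
      ring
    · by_cases h1 : F I = 0
      · refine hG' I fun h2 => hI ?_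
        rw [Pi.add_apply, h1, h2, add_zero]
      · exact hF' I h1
  smul_mem' := by
    rintro a F ⟨hF, hF'⟩
    refine ⟨fun b c hbc I => ?_, fun I hI => ?_⟩
    · have h1 := hF b c hbc I
      rw [← mul_zero a, ← h1, Finset.mul_sum]
      refine Finset.sum_congr rfl fun k _ => ?_
      simp only [Pi.smul_apply, smul_eq_mul]
      ring
    · refine hF' I fun h2 => hI ?_
      rw [Pi.smul_apply, h2, smul_zero]

variable {κ} {cls inv jj sg} (D : CData cls inv jj sg)

include D in
theorem sg_mul (c : Q) : sg c * sg c = 1 := by
  rcases D.sg_one c with h | h <;> rw [h] <;> norm_num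

include D in
theorem jj_inv_mul (x : R) : (jj (inv x))⁻¹ * jj x = sg (cls x) := by
  have h1 := sg_mul D (cls x)
  have h2 := D.jj_ne x
  have h3 : sg (cls x) ≠ 0 := left_ne_zero_of_mul_eq_one h1
  rw [D.jj_inv]
  field_simp
  rw [sq, h1]

include D in
theorem contr_memS {t : κ → Q} {p k : κ} (hpk : p ≠ k) (F : (κ → R) → Ω)
    (hF : F ∈ InvS cls inv jj sg κ t) :
    contr inv jj p k F ∈ InvS cls inv jj sg {l // l ≠ p ∧ l ≠ k} (fun l => t l.1) := by
  obtain ⟨hF, hF'⟩ := hF
  have hinv := D.hinv
  refine ⟨fun b c hbc I => ?_, fun I hI l => ?_⟩
  · set s := sg (cls b) with hs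
    have hsc : sg (cls c) = s := by rw [← hbc, D.sg_inv]
    have h1 : ∀ x, ∑ l : {l // l ≠ p ∧ l ≠ k}, (JJ inv jj b (I l) *
        F (fill p k (inv x) x (Function.update I l c)) - s * (JJ inv jj c (I l) *
        F (fill p k (inv x) x (Function.update I l b)))) =
        -((if x = b then jj b else 0) * F (fill p k c x I) -
          s * ((if x = c then jj c else 0) * F (fill p k b x I)) +
          ((if x = inv b then jj b else 0) * F (fill p k (inv x) c I) -
          s * ((if x = inv c then jj c else 0) * F (fill p k (inv x) b I)))) := by
      intro x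
      have h2 := hF b c hbc (fill p k (inv x) x I)
      rw [sum_split hpk, fill_p, fill_k hpk, fill_update_p hpk, fill_update_p hpk,
        fill_update_k hpk, fill_update_k hpk, JJ_inv_right hinv, JJ_inv_right hinv,
        JJ_right hinv b x, JJ_right hinv c x] at h2
      simp only [fill_l, ← fill_update] at h2
      have h3 : ∀ y : R, (if inv y = x then jj y else 0) = if x = inv y then jj y else 0 := by
        intro y
        by_cases h : inv y = x
        · rw [if_pos h, if_pos h.symm]
        · rw [if_neg h, if_neg (fun h' => h h'.symm)]
      rw [h3, h3] at h2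
      linear_combination h2
    have h4 : ∑ l : {l // l ≠ p ∧ l ≠ k}, (JJ inv jj b (I l) *
        contr inv jj p k F (Function.update I l c) - s * (JJ inv jj c (I l) *
        contr inv jj p k F (Function.update I l b))) =
        ∑ x, (jj x)⁻¹ * ∑ l : {l // l ≠ p ∧ l ≠ k}, (JJ inv jj b (I l) *
        F (fill p k (inv x) x (Function.update I l c)) - s * (JJ inv jj c (I l) *
        F (fill p k (inv x) x (Function.update I l b)))) := by
      simp only [contr, Finset.mul_sum]
      rw [Finset.sum_comm, ← Finset.sum_comm]
      rw [Finset.sum_comm]
      refine Finset.sum_congr rfl fun l _ => ?_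
      rw [← Finset.sum_sub_distrib]
      refine Finset.sum_congr rfl fun x _ => ?_
      ring
    rw [h4, Finset.sum_congr rfl (fun x _ => by rw [h1 x])]
    have h5 : ∀ x, (jj x)⁻¹ * -((if x = b then jj b else 0) * F (fill p k c x I) -
          s * ((if x = c then jj c else 0) * F (fill p k b x I)) +
          ((if x = inv b then jj b else 0) * F (fill p k (inv x) c I) -
          s * ((if x = inv c then jj c else 0) * F (fill p k (inv x) b I)))) =
        (if x = b then -F (fill p k c b I) else 0) + (if x = c then s * F (fill p k b c I) else 0) +
        ((if x = inv b then -(s * F (fill p k b c I)) else 0) +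
          (if x = inv c then s * s * F (fill p k c b I) else 0)) := by
      intro x
      have e1 : (jj x)⁻¹ * ((if x = b then jj b else 0) * F (fill p k c x I)) =
          if x = b then F (fill p k c b I) else 0 := by
        by_cases h : x = b
        · subst h
          rw [if_pos rfl, if_pos rfl, inv_mul_cancel_left₀ (D.jj_ne x)]
        · rw [if_neg h, if_neg h, zero_mul, mul_zero]
      have e2 : (jj x)⁻¹ * ((if x = c then jj c else 0) * F (fill p k b x I)) =
          if x = c then F (fill p k b c I) else 0 := by
        by_cases h : x = c
        · subst h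
          rw [if_pos rfl, if_pos rfl, inv_mul_cancel_left₀ (D.jj_ne x)]
        · rw [if_neg h, if_neg h, zero_mul, mul_zero]
      have e3 : (jj x)⁻¹ * ((if x = inv b then jj b else 0) * F (fill p k (inv x) c I)) =
          if x = inv b then s * F (fill p k b c I) else 0 := by
        by_cases h : x = inv b
        · subst h
          rw [if_pos rfl, if_pos rfl, hinv, ← mul_assoc, jj_inv_mul D]
        · rw [if_neg h, if_neg h, zero_mul, mul_zero]
      have e4 : (jj x)⁻¹ * ((if x = inv c then jj c else 0) * F (fill p k (inv x) b I)) =
          if x = inv c then s * F (fill p k c b I) else 0 := by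
        by_cases h : x = inv c
        · subst h
          rw [if_pos rfl, if_pos rfl, hinv, ← mul_assoc, jj_inv_mul D, hsc]
        · rw [if_neg h, if_neg h, zero_mul, mul_zero]
      have e5 : (jj x)⁻¹ * -((if x = b then jj b else 0) * F (fill p k c x I) -
          s * ((if x = c then jj c else 0) * F (fill p k b x I)) +
          ((if x = inv b then jj b else 0) * F (fill p k (inv x) c I) -
          s * ((if x = inv c then jj c else 0) * F (fill p k (inv x) b I)))) =
          -((jj x)⁻¹ * ((if x = b then jj b else 0) * F (fill p k c x I))) +
          s * ((jj x)⁻¹ * ((if x = c then jj c else 0) * F (fill p k b x I))) +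
          (-((jj x)⁻¹ * ((if x = inv b then jj b else 0) * F (fill p k (inv x) c I))) +
          s * ((jj x)⁻¹ * ((if x = inv c then jj c else 0) * F (fill p k (inv x) b I)))) := by
        ring
      rw [e5, e1, e2, e3, e4]
      split_ifs <;> ring
    rw [Finset.sum_congr rfl (fun x _ => h5 x)]
    simp only [Finset.sum_add_distrib, Finset.sum_ite_eq', Finset.mem_univ, if_true]
    rw [sg_mul D]
    ring
  · by_contra h
    apply hI
    unfold contr
    refine Finset.sum_eq_zero fun x _ => ?_
    by_cases h1 : F (fill p k (inv x) x I) = 0
    · rw [h1, mul_zero]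
    · exfalso
      have h2 := hF' _ h1 l.1
      rw [fill_l] at h2
      exact h h2

include D in
theorem contractionS {t : κ → Q} (F : (κ → R) → Ω) (hF : F ∈ InvS cls inv jj sg κ t) (p : κ)
    (I : κ → R) (hIp : cls (I p) = t p) :
    ∑ k ∈ Finset.univ.erase p, (if t k = t p then F (fun l => I (swap p k l)) else 0) +
      (((Finset.univ.filter (fun x => cls x = t p)).card : Ω) -
        (if cls (inv (I p)) = t p then sg (t p) else 0)) * F I -
      sg (t p) * ∑ k ∈ Finset.univ.erase p, JJ inv jj (I p) (I k) *
        ∑ x, (jj x)⁻¹ * F (Function.update (Function.update I p (inv x)) k x) = 0 := by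
  obtain ⟨hF, hF'⟩ := hF
  have hinv := D.hinv
  set s := sg (t p) with hs
  have hsx : ∀ x, cls (inv x) = t p → sg (cls x) = s := by
    intro x hx
    rw [hs, ← hx, D.sg_inv]
  have h1 : ∑ x, (if cls (inv x) = t p then ((jj x)⁻¹ * ∑ k, (JJ inv jj x (Function.update I p (inv x) k) *
      F (Function.update (Function.update I p (inv x)) k (I p)) -
      s * (JJ inv jj (I p) (Function.update I p (inv x) k) *
        F (Function.update (Function.update I p (inv x)) k x)))) else 0) = 0 := by
    refine Finset.sum_eq_zero fun x _ => ?_
    split_ifs with hx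
    · have h2 := hF x (I p) (by rw [hx, hIp]) (Function.update I p (inv x))
      rw [hsx x hx] at h2
      rw [h2, mul_zero]
    · rfl
  have h2 : ∀ x, ∑ k, (JJ inv jj x (Function.update I p (inv x) k) *
      F (Function.update (Function.update I p (inv x)) k (I p)) -
      s * (JJ inv jj (I p) (Function.update I p (inv x) k) *
        F (Function.update (Function.update I p (inv x)) k x))) =
      (jj x * F I - s * ((if x = I p then jj (I p) else 0) * F (Function.update I p x))) +
      ∑ k ∈ Finset.univ.erase p, (JJ inv jj x (I k) *
        F (Function.update (Function.update I p (inv x)) k (I p)) -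
        s * (JJ inv jj (I p) (I k) * F (Function.update (Function.update I p (inv x)) k x))) := by
    intro x
    rw [← Finset.add_sum_erase _ _ (Finset.mem_univ p)]
    congr 1
    · rw [Function.update_self, Function.update_idem, Function.update_idem,
        Function.update_eq_self, JJ_inv_right hinv, JJ_inv_right hinv, if_pos rfl]
    · refine Finset.sum_congr rfl fun k hk => ?_
      rw [Function.update_of_ne (Finset.ne_of_mem_erase hk)]
  have h2' : ∀ x, (if cls (inv x) = t p then ((jj x)⁻¹ * ∑ k, (JJ inv jj x (Function.update I p (inv x) k) *
      F (Function.update (Function.update I p (inv x)) k (I p)) -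
      s * (JJ inv jj (I p) (Function.update I p (inv x) k) *
        F (Function.update (Function.update I p (inv x)) k x)))) else 0) =
      (if cls (inv x) = t p then ((jj x)⁻¹ * (jj x * F I - s * ((if x = I p then jj (I p) else 0) *
        F (Function.update I p x)))) else 0) +
      (if cls (inv x) = t p then (jj x)⁻¹ * ∑ k ∈ Finset.univ.erase p, (JJ inv jj x (I k) *
        F (Function.update (Function.update I p (inv x)) k (I p)) -
        s * (JJ inv jj (I p) (I k) * F (Function.update (Function.update I p (inv x)) k x)))
        else 0) := by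
    intro x
    by_cases hx : cls (inv x) = t p
    · rw [if_pos hx, if_pos hx, if_pos hx, h2 x, mul_add]
    · rw [if_neg hx, if_neg hx, if_neg hx, add_zero]
  rw [Finset.sum_congr rfl (fun x _ => h2' x), Finset.sum_add_distrib] at h1
  have h3 : ∑ x, (if cls (inv x) = t p then ((jj x)⁻¹ * (jj x * F I -
        s * ((if x = I p then jj (I p) else 0) * F (Function.update I p x)))) else 0) =
      (((Finset.univ.filter (fun x => cls x = t p)).card : Ω) -
        (if cls (inv (I p)) = t p then s else 0)) * F I := by
    have h4 : ∀ x, (if cls (inv x) = t p then ((jj x)⁻¹ * (jj x * F I -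
        s * ((if x = I p then jj (I p) else 0) * F (Function.update I p x)))) else 0) =
        (if cls (inv x) = t p then F I else 0) +
          (if x = I p then (if cls (inv (I p)) = t p then -(s * F I) else 0) else 0) := by
      intro x
      by_cases h : x = I p
      · subst h
        rw [if_pos rfl, if_pos rfl, Function.update_eq_self]
        have := D.jj_ne (I p)
        split_ifs
        · field_simp
          ring
        · rw [add_zero]
      · rw [if_neg h, if_neg h, zero_mul, mul_zero, add_zero, sub_zero,
          inv_mul_cancel_left₀ (D.jj_ne x)]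
    rw [Finset.sum_congr rfl (fun x _ => h4 x), Finset.sum_add_distrib,
      Finset.sum_ite_eq' Finset.univ (I p), if_pos (Finset.mem_univ _)]
    have h5 : ∑ x, (if cls (inv x) = t p then F I else 0) =
        ((Finset.univ.filter (fun x => cls x = t p)).card : Ω) * F I := by
      let E : R ≃ R := ⟨inv, inv, hinv, hinv⟩
      rw [← Equiv.sum_comp E]
      change ∑ x, (if cls (inv (inv x)) = t p then F I else 0) = _
      simp only [hinv]
      rw [← Finset.sum_filter, Finset.sum_const, nsmul_eq_mul]
    rw [h5]
    split_ifs <;> ring
  have h5 : ∑ x, (if cls (inv x) = t p then (jj x)⁻¹ * ∑ k ∈ Finset.univ.erase p, (JJ inv jj x (I k) *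
        F (Function.update (Function.update I p (inv x)) k (I p)) -
        s * (JJ inv jj (I p) (I k) * F (Function.update (Function.update I p (inv x)) k x)))
        else 0) =
      ∑ k ∈ Finset.univ.erase p, (if t k = t p then F (fun l => I (swap p k l)) else 0) -
      s * ∑ k ∈ Finset.univ.erase p, JJ inv jj (I p) (I k) *
        ∑ x, (jj x)⁻¹ * F (Function.update (Function.update I p (inv x)) k x) := by
    have h6 : ∀ x, (if cls (inv x) = t p then (jj x)⁻¹ * ∑ k ∈ Finset.univ.erase p,
        (JJ inv jj x (I k) * F (Function.update (Function.update I p (inv x)) k (I p)) -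
        s * (JJ inv jj (I p) (I k) * F (Function.update (Function.update I p (inv x)) k x)))
        else 0) =
        ∑ k ∈ Finset.univ.erase p, ((if x = inv (I k) then (if cls (I k) = t p then
          F (fun l => I (swap p k l)) else 0) else 0) -
        s * (JJ inv jj (I p) (I k) * ((jj x)⁻¹ *
          F (Function.update (Function.update I p (inv x)) k x)))) := by
      intro x
      by_cases hx : cls (inv x) = t p
      · rw [if_pos hx, Finset.mul_sum]
        refine Finset.sum_congr rfl fun k hk => ?_
        have hkp := Finset.ne_of_mem_erase hk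
        rw [mul_sub]
        congr 1
        · rw [JJ_right hinv]
          by_cases h : inv x = I k
          · rw [if_pos h, if_pos (by rw [← h, hinv]), h, inv_mul_cancel_left₀ (D.jj_ne x),
              if_pos (by rw [← h]; exact hx)]
            congr 1
            funext l
            by_cases hl : l = k
            · subst hl
              rw [Function.update_self, swap_apply_right]
            · rw [Function.update_of_ne hl]
              by_cases hl2 : l = p
              · subst hl2
                rw [Function.update_self, swap_apply_left]
              · rw [Function.update_of_ne hl2, swap_apply_of_ne_of_ne hl2 hl]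
          · rw [if_neg h, if_neg (fun h2 => h (by rw [h2, hinv])), zero_mul, mul_zero]
        · ring
      · rw [if_neg hx]
        symm
        refine Finset.sum_eq_zero fun k hk => ?_
        have hkp := (Finset.ne_of_mem_erase hk).symm
        have h7 : F (Function.update (Function.update I p (inv x)) k x) = 0 := by
          by_contra h8
          apply hx
          have h9 := hF' _ h8 p
          rwa [Function.update_of_ne hkp, Function.update_self] at h9
        rw [h7, mul_zero, mul_zero, mul_zero, sub_zero]
        split_ifs with h8 h9
        · exfalso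
          apply hx
          rw [h8, hinv]
          exact h9
        · rfl
        · rfl
    rw [Finset.sum_congr rfl (fun x _ => h6 x), Finset.sum_comm]
    simp only [Finset.sum_sub_distrib, ← Finset.mul_sum]
    congr 1
    refine Finset.sum_congr rfl fun k hk => ?_
    have hkp := (Finset.ne_of_mem_erase hk).symm
    rw [Finset.sum_ite_eq', if_pos (Finset.mem_univ _)]
    by_cases h7 : F (fun l => I (swap p k l)) = 0
    · rw [h7]
      split_ifs <;> rfl
    · have h8 := hF' _ h7 p
      have h9 := hF' _ h7 k
      simp only [swap_apply_left] at h8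
      simp only [swap_apply_right] at h9
      rw [if_pos h8, if_pos (by rw [← h9, hIp])]
  rw [h3, h5] at h1
  linear_combination h1

theorem InvS_stable (t : κ → Q) (C : Q) (σ : Perm {k // t k = C}) (F : (κ → R) → Ω)
    (hF : F ∈ InvS cls inv jj sg κ t) : pactC t C σ F ∈ InvS cls inv jj sg κ t := by
  obtain ⟨hF, hF'⟩ := hF
  refine ⟨fun b c hbc I => ?_, fun I hI k => ?_⟩
  · have h1 := hF b c hbc (fun k => I (Perm.ofSubtype σ k))
    rw [← h1]
    refine (Fintype.sum_equiv (Perm.ofSubtype σ) _ _ fun k => ?_).symm
    rw [pactC_apply, pactC_apply, update_comp, update_comp]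
  · rw [pactC_apply] at hI
    have h1 := hF' _ hI ((Perm.ofSubtype σ)⁻¹ k)
    rw [perm_inv] at h1
    rw [h1, ← type_ofSubtype t C σ, perm_inv]

end

end Pool.Agent.NH33.Qz
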