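import Pool.Agent.NH33.Qz.Spec

/-!
# The general theorem
-/

set_option autoImplicit false
set_option linter.unusedSectionVars false
set_option linter.deprecated false

namespace Pool.Agent.NH33.Qz

open Module Polynomial TensorProduct Pool.Agent.H204R3.SP Pool.Agent.H204R3.GP

noncomputable section

variable {k : Type*} [Field k] [CharZero k] {Γ : Type*} [Group Γ] {H : Type*} [AddCommGroup H]
  [Module k H] [FiniteDimensional k H] {ι : Type} [Fintype ι] {V : ι → Type*}
  [∀ i, AddCommGroup (V i)] [∀ i, Module k (V i)] [∀ i, FiniteDimensional k (V i)]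
  {ρ : ∀ i, Representation k Γ (V i)} {χ : Γ →* k} {Ψ : Set (Γ →* k)} {w : ι → ℕ}
  {τ : Representation k Γ H}
  {ω : ∀ i, V i →ₗ[k] V i →ₗ[k] k} {γ : Γ}

/-- The form on the direct sum. -/
def omt (ω : ∀ i, V i →ₗ[k] V i →ₗ[k] k) : (∀ i, V i) →ₗ[k] (∀ i, V i) →ₗ[k] k :=
  ∑ i, (ω i).compl₁₂ (LinearMap.proj i) (LinearMap.proj i)

theorem omt_apply (u v : ∀ i, V i) : omt ω u v = ∑ i, ω i (u i) (v i) := by
  unfold omt
  rw [LinearMap.sum_apply, LinearMap.sum_apply]
  rfl

theorem pol_total [DecidableEq ι] (hV : ∀ i, IsRealization (ρ i) χ Ψ (w i) (ω i)) :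
    Pol (total ρ) χ w (prj (k := k) (V := V)) (omt ω) := by
  have hprj : ∀ i u v, omt ω (prj (k := k) i u) v = ω i (u i) (v i) := by
    intro i u v
    rw [omt_apply, Finset.sum_eq_single i]
    · rw [prj_apply, Pi.single_eq_same]
    · intro j _ hj
      rw [prj_apply, Pi.single_eq_of_ne hj, map_zero, LinearMap.zero_apply]
    · intro h
      exact absurd (Finset.mem_univ i) h
  have hprj' : ∀ i u v, omt ω u (prj (k := k) i v) = ω i (u i) (v i) := by
    intro i u v
    rw [omt_apply, Finset.sum_eq_single i]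
    · rw [prj_apply, Pi.single_eq_same]
    · intro j _ hj
      rw [prj_apply, Pi.single_eq_of_ne hj, map_zero]
    · intro h
      exact absurd (Finset.mem_univ i) h
  refine
    { idem := fun i v => ?_
      orth := fun i j hij v => ?_
      sum := fun v => ?_
      comm := fun i s v => ?_
      adj := fun i u v => ?_
      symm := fun i u v => ?_
      sim := fun i s u v => ?_
      nondeg := fun u hu => ?_ }
  · rw [prj_apply, prj_apply, Pi.single_eq_same]
  · rw [prj_apply, prj_apply, Pi.single_eq_of_ne hij, Pi.single_zero]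
  · funext j
    rw [Finset.sum_apply, Finset.sum_eq_single j]
    · rw [prj_apply, Pi.single_eq_same]
    · intro i _ hi
      rw [prj_apply, Pi.single_eq_of_ne (Ne.symm hi)]
    · intro h
      exact absurd (Finset.mem_univ j) h
  · rw [prj_apply, prj_apply]
    funext j
    by_cases h : j = i
    · subst h
      rw [Pi.single_eq_same, total_apply, total_apply, Pi.single_eq_same]
    · rw [Pi.single_eq_of_ne h, total_apply, Pi.single_eq_of_ne h, map_zero]
  · rw [hprj, hprj']
  · rw [hprj, hprj', (hV i).symm]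
  · rw [hprj, hprj, total_apply, total_apply, (hV i).sim]
  · funext i
    apply (hV i).nondeg
    intro x
    have h1 := hu (Pi.single i x)
    have h2 := hprj' i u (Pi.single i x)
    rw [prj_apply, Pi.single_eq_same, h1] at h2
    exact h2.symm

/-- The relations, transferred to a smaller field. -/
theorem free_transfer (hfree : IsFree ρ χ Ψ w τ γ) {Ω : Type*} [Field Ω] [Algebra k Ω]
    (φ : Ω →ₐ[k] AlgebraicClosure k) {R : ι → Finset Ω}
    (hR : ∀ i x, x ∈ R i ↔ x ∈ (ρ i γ).charpoly.aroots Ω)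
    (hspl : ∀ i, ((ρ i γ).charpoly.map (algebraMap k Ω)).Splits)
    {inv : (Σ i, R i) → (Σ i, R i)} (hidx : ∀ x, (inv x).1 = x.1)
    (hmul : ∀ x : (Σ i, R i), (x.2 : Ω) * (inv x).2 = algebraMap k Ω (χ γ) ^ w x.1)
    (hne : ∀ x : (Σ i, R i), (x.2 : Ω) ≠ 0)
    (n : (Σ i, R i) → ℕ) (c : ℤ) (N : ℕ) (hN : N ≠ 0) {β : AlgebraicClosure k}
    (hβ : β = 1 ∨ (∃ ψ ∈ Ψ, β = algebraMap k _ (ψ γ)) ∨
      β ∈ (τ γ).charpoly.aroots (AlgebraicClosure k))
    (hrel : (φ (∏ x : (Σ i, R i), (x.2 : Ω) ^ n x)) ^ N =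
      (algebraMap k _ (χ γ) ^ c * β) ^ N) (x : Σ i, R i) : n x = n (inv x) := by
  classical
  have hφ : Function.Injective φ := φ.toRingHom.injective
  let n' : ι → AlgebraicClosure k → ℕ := fun i y =>
    if h : ∃ x : R i, φ x = y then n ⟨i, h.choose⟩ else 0
  have hn' : ∀ (i : ι) (x : R i), n' i (φ x) = n ⟨i, x⟩ := by
    intro i x
    have h : ∃ x' : R i, φ x' = φ x := ⟨x, rfl⟩
    have h1 : h.choose = x := Subtype.ext (hφ h.choose_spec)
    simp only [n']
    rw [dif_pos h, h1]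
  have hmap : ∀ i, (ρ i γ).charpoly.aroots (AlgebraicClosure k) =
      ((ρ i γ).charpoly.aroots Ω).map φ := by
    intro i
    have h1 := (hspl i).roots_map_of_injective (i := (φ : Ω →+* AlgebraicClosure k)) hφ
    rw [Polynomial.map_map, AlgHom.comp_algebraMap] at h1
    exact h1
  have hnod : ∀ i, ((ρ i γ).charpoly.aroots Ω).Nodup := fun i => nodup_roots (hfree.separable i).map
  have hprod : ∀ i, (((ρ i γ).charpoly.aroots (AlgebraicClosure k)).map
      (fun x => x ^ n' i x)).prod = ∏ x : R i, φ (x : Ω) ^ n ⟨i, x⟩ := by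
    intro i
    rw [hmap, Multiset.map_map]
    have h1 : R i = ((ρ i γ).charpoly.aroots Ω).toFinset := by
      ext y
      rw [hR, Multiset.mem_toFinset]
    have h2 : ∏ x : R i, φ (x : Ω) ^ n ⟨i, x⟩ = ∏ x : R i, φ (x : Ω) ^ n' i (φ x) :=
      Finset.prod_congr rfl fun x _ => by rw [hn']
    rw [h2, Finset.prod_coe_sort (R i) (fun x => φ x ^ n' i (φ x)), h1]
    change _ = (((ρ i γ).charpoly.aroots Ω).dedup.map (fun x => φ x ^ n' i (φ x))).prod
    rw [(hnod i).dedup]
    rfl
  have h1 := hfree.free n' c N β hN hβ (by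
    rw [Finset.prod_congr rfl (fun i _ => hprod i), ← hrel]
    congr 1
    rw [map_prod, Fintype.prod_sigma]
    exact Finset.prod_congr rfl fun i _ => Finset.prod_congr rfl fun x _ => by rw [map_pow])
  obtain ⟨i, x⟩ := x
  have h2 := h1 i (φ x) (by
    rw [hmap]
    exact Multiset.mem_map_of_mem _ ((hR i x).1 x.2))
  rw [hn'] at h2
  rw [h2]
  have h3 := hmul ⟨i, x⟩
  have h4 := hidx ⟨i, x⟩
  have h0 := hne ⟨i, x⟩
  rcases hv : inv ⟨i, x⟩ with ⟨j, y⟩
  rw [hv] at h3 h4
  change j = i at h4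
  subst h4
  change (x : Ω) * (y : Ω) = algebraMap k Ω (χ γ) ^ w j at h3
  change (x : Ω) ≠ 0 at h0
  have h5 : algebraMap k (AlgebraicClosure k) (χ γ) ^ w j / φ x = φ y := by
    rw [div_eq_iff ((map_ne_zero φ).2 h0), ← map_mul, mul_comm, h3, map_pow, AlgHom.commutes]
  rw [h5, hn']

/-- The sum with the trivial representation. -/
def plusOne (τ : Representation k Γ H) : Representation k Γ (H × k) where
  toFun s := (τ s).prodMap LinearMap.id
  map_one' := by
    rw [map_one]
    rfl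
  map_mul' s t := by
    rw [map_mul]
    rfl

/-- **The general theorem**, for the direct sum. -/
theorem main_span [DecidableEq ι] (hV : ∀ i, IsRealization (ρ i) χ Ψ (w i) (ω i))
    (hsemi : ∀ i, IsSemi (ρ i)) (hfree : IsFree ρ χ Ψ w τ γ) {κ : Type} [Fintype κ] [DecidableEq κ]
    {c : ℤ} {f : MultilinearMap k (fun _ : κ => ∀ i, V i) H}
    (hf : IsTateC (total ρ) χ τ c f) :
    (fun v => f v) ∈ Submodule.span k (ProdF (total ρ) χ τ w (prj (k := k) (V := V)) κ) := by
  classical
  let g : Polynomial k := ∏ i, (ρ i γ).charpoly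
  have hg : g ≠ 0 := Finset.prod_ne_zero_iff.2 fun i _ => (LinearMap.charpoly_monic _).ne_zero
  let Ω := g.SplittingField
  have hspl : ∀ i, ((ρ i γ).charpoly.map (algebraMap k Ω)).Splits := by
    intro i
    refine Splits.of_dvd (SplittingField.splits g) ?_ ?_
    · exact (Polynomial.map_ne_zero_iff (algebraMap k Ω).injective).2 hg
    · exact Polynomial.map_dvd _ (Finset.dvd_prod_of_mem _ (Finset.mem_univ i))
  let φ : Ω →ₐ[k] AlgebraicClosure k := IsAlgClosed.lift
  have hφ : Function.Injective φ := φ.toRingHom.injective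
  obtain ⟨R, e, hR, he, hPe⟩ := exists_basis_total (Ω := Ω) ρ γ hfree.separable hspl
  let bV := Module.finBasis k (∀ i, V i)
  have hP : Pol (bcr (total ρ) Ω) (bcc χ Ω) w (fun i => (prj (k := k) (V := V) i).baseChange Ω)
      (bcb Ω (omt ω)) := (pol_total hV).baseChange bV
  have hmem : ∀ x : (Σ i, R i), φ (x.2 : Ω) ∈ (ρ x.1 γ).charpoly.aroots (AlgebraicClosure k) := by
    intro x
    have h1 := (hR x.1 x.2).1 x.2.2
    rw [aroots, mem_roots (((LinearMap.charpoly_monic _).map _).ne_zero), IsRoot,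
      eval_map_algebraMap] at h1 ⊢
    rw [aeval_algHom_apply, h1, map_zero]
  obtain ⟨inv, jj, hmul, F⟩ := exists_frame hP γ he hPe
    (fun x y hxy hval => by
      obtain ⟨i, x⟩ := x
      obtain ⟨j, y⟩ := y
      change i = j at hxy
      subst hxy
      change (x : Ω) = (y : Ω) at hval
      rw [Subtype.ext hval])
    (fun x y hxy hx hy => by
      have h1 := hmem x
      have h2 := hmem y
      obtain ⟨i, x⟩ := x
      obtain ⟨j, y⟩ := y
      change i = j at hxy
      subst hxy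
      have h3 := hfree.one i _ h1 _ h2 (by
        have h4 := congrArg φ hx
        rw [map_mul, ← pow_two, map_pow, bcc_apply, AlgHom.commutes] at h4
        exact h4) (by
        have h4 := congrArg φ hy
        rw [map_mul, ← pow_two, map_pow, bcc_apply, AlgHom.commutes] at h4
        exact h4)
      have h4 : x = y := Subtype.ext (hφ h3)
      rw [h4])
  let h0 : Ω ⊗[k] (H × k) := (1 : Ω) ⊗ₜ[k] ((0 : H), (1 : k))
  have hh0 : h0 ≠ 0 := by
    intro h
    have h1 := congrArg (TensorProduct.map (LinearMap.id : Ω →ₗ[k] Ω) (LinearMap.snd k H k)) h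
    rw [map_zero, TensorProduct.map_tmul, LinearMap.id_apply, LinearMap.snd_apply] at h1
    have h2 := congrArg (TensorProduct.rid k Ω) h1
    rw [TensorProduct.rid_tmul, one_smul, map_zero] at h2
    exact one_ne_zero h2
  have hh1 : ∀ s, bcr (plusOne τ) Ω s h0 = h0 := by
    intro s
    rw [bcr_tmul]
    congr 1
    change ((τ s) 0, (1 : k)) = _
    rw [map_zero]
  have G : LieData inv e (fun x => x.1) (bcb Ω (omt ω))
      (lieH (bcr (total ρ) Ω) (bcc χ Ω) (bcr (plusOne τ) Ω)) := by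
    refine lieData γ he hPe ?_ hP hh0 hh1
    intro n c N hN h hh hT
    have h1 : bcr (plusOne τ) Ω (γ ^ N) = ((plusOne τ γ).baseChange Ω) ^ N := map_pow _ _ _
    rw [h1] at hT
    obtain ⟨β, hβ, hβN⟩ := exists_root_of_pow φ (plusOne τ γ) hh hN hT
    have hβ' : β = 1 ∨ (∃ ψ ∈ Ψ, β = algebraMap k _ (ψ γ)) ∨
        β ∈ (τ γ).charpoly.aroots (AlgebraicClosure k) := by
      have h2 : (plusOne τ γ).charpoly = (τ γ).charpoly * (X - 1) := by
        have h3 : (plusOne τ γ) = (τ γ).prodMap (1 : k →ₗ[k] k) := rfl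
        rw [h3, LinearMap.charpoly_prodMap, LinearMap.charpoly_one, finrank_self, pow_one]
      rw [aroots, mem_roots (((LinearMap.charpoly_monic _).map _).ne_zero), h2, IsRoot,
        Polynomial.map_mul, eval_mul] at hβ
      rcases mul_eq_zero.1 hβ with h3 | h3
      · right
        right
        rw [aroots, mem_roots (((LinearMap.charpoly_monic _).map _).ne_zero)]
        exact h3
      · left
        rw [Polynomial.map_sub, map_X, Polynomial.map_one, eval_sub, eval_X, eval_one] at h3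
        exact sub_eq_zero.1 h3
    refine free_transfer hfree φ hR hspl (fun x => F.idx_inv x) hmul (fun x => root_ne_zero γ he x)
      n c N hN hβ' ?_
    rw [mul_pow, hβN, map_pow, ← mul_pow, map_mul, ← mul_assoc, map_inv₀, map_zpow₀, bcc_apply,
      AlgHom.commutes, mul_inv_cancel₀, one_mul]
    exact zpow_ne_zero _ ((map_ne_zero (algebraMap k (AlgebraicClosure k))).2 (chi_ne χ γ))
  have hS : SemiUnder (Set.range (total ρ)) := (semi_total ρ hsemi).semiUnder
  have hss : ∀ U : Submodule Ω (Ω ⊗[k] (∀ i, V i)), (∀ s, ∀ u ∈ U, bcr (total ρ) Ω s u ∈ U) →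
      ∃ Q : Module.End Ω (Ω ⊗[k] (∀ i, V i)), (∀ v, Q v ∈ U) ∧ (∀ u ∈ U, Q u = u) ∧
        ∀ s v, Q (bcr (total ρ) Ω s v) = bcr (total ρ) Ω s (Q v) := by
    intro U hU
    obtain ⟨Q, h1, h2, h3⟩ := exists_proj_baseChange (Ω := Ω) _ hS U
      (by rintro _ ⟨s, rfl⟩; exact hU s)
    exact ⟨Q, h1, h2, fun s v => h3 _ ⟨s, rfl⟩ v⟩
  have hall : ∀ f : MultilinearMap Ω (fun _ : κ => Ω ⊗[k] (∀ i, V i)) (Ω ⊗[k] (H × k)),
      IsTateC (bcr (total ρ) Ω) (bcc χ Ω) (bcr (plusOne τ) Ω) c f → (fun v => f v) ∈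
        Submodule.span Ω (ProdF (bcr (total ρ) Ω) (bcc χ Ω) (bcr (plusOne τ) Ω) w
          (fun i => (prj (k := k) (V := V) i).baseChange Ω) κ) :=
    fun f hf => span_of_tate hPe hP F G (fun x => rfl) hss hh0 hh1 hf
  let f' : MultilinearMap k (fun _ : κ => ∀ i, V i) (H × k) :=
    (LinearMap.inl k H k).compMultilinearMap f
  have hf' : IsTateC (total ρ) χ (plusOne τ) c f' := by
    obtain ⟨Δ, hΔ, h1⟩ := hf
    refine ⟨Δ, hΔ, fun s hs v => ?_⟩
    change (f (fun l => total ρ s (v l)), (0 : k)) = χ s ^ c • (τ s (f v), (0 : k))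
    rw [h1 s hs, Prod.smul_mk, smul_zero]
  have h1 := descent bV hall hf'
  let T : ((κ → ∀ i, V i) → H × k) →ₗ[k] ((κ → ∀ i, V i) → H) :=
    { toFun := fun F v => (F v).1
      map_add' := fun _ _ => rfl
      map_smul' := fun _ _ => rfl }
  have h2 : (Submodule.span k (ProdF (total ρ) χ (plusOne τ) w (prj (k := k) (V := V)) κ)).map T ≤
      Submodule.span k (ProdF (total ρ) χ τ w (prj (k := k) (V := V)) κ) := by
    rw [Submodule.map_span, Submodule.span_le]
    rintro _ ⟨_, ⟨J, _, d, σ, Φ, h, hΦ, ⟨c, Δ, hΔ, hh⟩, rfl⟩, rfl⟩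
    refine Submodule.subset_span ⟨J, inferInstance, d, σ, Φ, h.1, hΦ, ⟨c, Δ, hΔ, fun s hs => ?_⟩,
      rfl⟩
    exact congrArg Prod.fst (hh s hs)
  exact h2 (Submodule.mem_map_of_mem (f := T) h1)

end

end Pool.Agent.NH33.Qz
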