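import Pool.Agent.NH33.Qz.Root

/-!
# The classes of basis vectors
-/

set_option autoImplicit false
set_option linter.unusedSectionVars false

namespace Pool.Agent.NH33.Qz

open Module Pool.Agent.H204R3.SP

noncomputable section

variable {R : Type*} [Fintype R] [DecidableEq R] {inv : R → R}
  {Ω : Type*} [Field Ω] {V : Type*} [AddCommGroup V] [Module Ω V]
  (e : Basis R Ω V) {jj eps : R → Ω} {ι : Type*} {idx : R → ι} {ω : V →ₗ[Ω] V →ₗ[Ω] Ω}

/-- One step. -/
def Step (𝔤 : Submodule Ω (Module.End Ω V)) (x z : R) : Prop :=
  ∃ X ∈ 𝔤, e.repr (X (e x)) z ≠ 0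

/-- The indices which can be reached. -/
abbrev Reach (𝔤 : Submodule Ω (Module.End Ω V)) : R → R → Prop := Relation.ReflTransGen (Step e 𝔤)

variable {e} {𝔤 : Submodule Ω (Module.End Ω V)}

theorem reach_idx (G : LieData inv e idx ω 𝔤) {x z : R} (h : Reach e 𝔤 x z) : idx z = idx x := by
  induction h with
  | refl => rfl
  | tail _ h2 ih =>
    obtain ⟨X, hX, hc⟩ := h2
    rw [G.block X hX _ _ hc, ih]

variable [CharZero Ω] (F : Frame inv e jj eps idx ω) (G : LieData inv e idx ω 𝔤)

include F G in
theorem good_of_reach {x z : R} (h : Reach e 𝔤 x z) :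
    z = x ∨ (TT e eps ω (inv x) z ∈ 𝔤 ∧ (eps x = 1 → z = inv x →
      ∃ y, y ≠ x ∧ y ≠ inv x ∧ TT e eps ω (inv x) y ∈ 𝔤 ∧ TT e eps ω (inv y) (inv x) ∈ 𝔤)) := by
  induction h with
  | refl => exact Or.inl rfl
  | @tail z b h1 h2 ih =>
    have hzx := reach_idx G h1
    obtain ⟨X, hX, hc⟩ := h2
    have hbz : idx b = idx z := G.block X hX _ _ hc
    have hbx : idx b = idx x := by rw [hbz, hzx]
    by_cases hb : b = x
    · exact Or.inl hb
    by_cases hb2 : b = z
    · rw [hb2]
      exact ih
    have hroot : TT e eps ω (inv z) b ∈ 𝔤 := root_mem F G hX (Ne.symm hb2) hc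
    right
    by_cases hz : z = x
    · subst hz
      refine ⟨hroot, fun h3 h4 => ?_⟩
      subst h4
      exact absurd (no_self F G hX h3) hc
    · obtain ⟨h3, h4⟩ := ih.resolve_left hz
      rcases F.eps_one x with hx | hx
      · -- the orthogonal case
        by_cases hbi : b = inv x
        · subst hbi
          have hself : TT e eps ω (inv x) (inv x) = 0 := TT_self F (by rw [eps_inv F, hx])
          refine ⟨by rw [hself]; exact Submodule.zero_mem _, fun _ _ => ?_⟩
          exact ⟨z, hz, Ne.symm hb2, h3, hroot⟩
        · refine ⟨?_, fun _ h => absurd h hbi⟩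
          by_cases hzi : z = inv x
          · subst hzi
            obtain ⟨y, hy1, hy2, hy3, hy4⟩ := h4 hx rfl
            by_cases hby : b = y
            · rw [hby]
              exact hy3
            by_cases hby2 : b = inv y
            · rw [hby2]
              have hyx : idx (inv y) = idx (inv x) := by
                have h5 := G.block _ hy3 x y (by
                  rw [TT_repr F, JJ_self F.hinv, if_pos rfl, mul_one]
                  by_cases h6 : inv x = y
                  · exact absurd h6.symm hy2
                  · rw [if_neg h6, mul_zero, mul_zero, sub_zero]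
                    exact F.jj_ne _)
                rw [F.idx_inv, F.idx_inv, h5]
              rw [TT_comm F hyx.symm]
              exact Submodule.neg_mem _ (Submodule.smul_mem _ _ hy4)
            · have h5 : TT e eps ω (inv y) b ∈ 𝔤 :=
                root_trans_so F G (x := y) (z := inv x) (b := b) hy2 (Ne.symm hbi)
                  (Ne.symm hby) (fun h => hy1 (by
                    rw [← F.hinv x, h, F.hinv])) (by rw [F.hinv]; exact hb) hby2 hy4 hroot
              exact root_trans_so F G (x := x) (z := y) (b := b) (Ne.symm hy1) (Ne.symm hby)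
                (Ne.symm hb) hy2 hby2 hbi hy3 h5
          · have hbzi : b ≠ inv z := by
              rintro rfl
              have ez : eps z = 1 := by rw [F.eps_idx z x hzx, hx]
              exact hc (no_self F G hX ez)
            exact root_trans_so F G (x := x) (z := z) (b := b) (Ne.symm hz) (Ne.symm hb2)
              (Ne.symm hb) hzi hbzi hbi h3 hroot
      · refine ⟨?_, fun h => ?_⟩
        · exact root_trans_sp F G hx hzx hbx (Ne.symm hz) (Ne.symm hb2) (Ne.symm hb) h3 hroot
        · rw [hx] at h
          have h5 : (2 : Ω) = 0 := by linear_combination -h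
          exact absurd h5 two_ne_zero

include F G in
theorem TT_mem {a b : R} (h : Reach e 𝔤 (inv a) b) : TT e eps ω a b ∈ 𝔤 := by
  rcases good_of_reach F G h with h1 | ⟨h1, -⟩
  · subst h1
    have h2 : TT e eps ω a (inv a) = (-jj a) • DD e inv a := by
      refine ext_repr e fun c d => ?_
      rw [LinearMap.smul_apply, map_smul, Finsupp.smul_apply, TT_repr F, DD_repr, e.repr_self,
        Finsupp.single_apply, smul_eq_mul]
      have e1 : JJ inv jj a c = if c = inv a then jj a else 0 := rfl
      have e2 : JJ inv jj (inv a) c = if c = a then jj (inv a) else 0 := by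
        unfold JJ
        rw [F.hinv]
      have e3 : eps a * jj (inv a) = jj a := (jj_inv' F a).symm
      rw [e1, e2]
      unfold dd
      by_cases hcd : c = d
      · subst hcd
        rw [if_pos rfl]
        have e4 : (inv a = c) ↔ (c = inv a) := eq_comm
        have e5 : (a = c) ↔ (c = a) := eq_comm
        simp only [e4, e5]
        split_ifs <;> simp <;> first | linear_combination e3 | linear_combination -e3
      · rw [if_neg hcd, mul_zero, mul_zero]
        have e4 : (if c = inv a then jj a else 0) * (if inv a = d then (1 : Ω) else 0) = 0 := by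
          by_cases h3 : c = inv a
          · rw [if_neg (fun h4 : inv a = d => hcd (h3.trans h4)), mul_zero]
          · rw [if_neg h3, zero_mul]
        have e5 : (if c = a then jj (inv a) else 0) * (if a = d then (1 : Ω) else 0) = 0 := by
          by_cases h3 : c = a
          · rw [if_neg (fun h4 : a = d => hcd (h3.trans h4)), mul_zero]
          · rw [if_neg h3, zero_mul]
        rw [e4, e5, mul_zero, sub_zero]
    rw [h2]
    exact Submodule.smul_mem _ _ (G.torus a)
  · rwa [F.hinv] at h1

include F G in
theorem reach_inv {x z : R} (h : Step e 𝔤 x z) : Step e 𝔤 (inv z) (inv x) := by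
  obtain ⟨X, hX, hc⟩ := h
  refine ⟨X, hX, fun h0 => hc ?_⟩
  have h1 := skew_repr F G hX x z
  rw [h0, zero_mul, add_zero] at h1
  exact (mul_eq_zero.1 h1).resolve_right (F.jj_ne z)

include F G in
theorem reach_inv' {x z : R} (h : Reach e 𝔤 x z) : Reach e 𝔤 (inv z) (inv x) := by
  induction h with
  | refl => exact Relation.ReflTransGen.refl
  | tail _ h2 ih => exact Relation.ReflTransGen.head (reach_inv F G h2) ih

/-! ### Stable subspaces -/

variable (P : ι → Module.End Ω V)

/-- Subspaces which are stable under the Lie algebra and the projections to the parts. -/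
structure Stab (𝔤 : Submodule Ω (Module.End Ω V)) (P : ι → Module.End Ω V)
    (U : Submodule Ω V) : Prop where
  lie : ∀ X ∈ 𝔤, ∀ u ∈ U, X u ∈ U
  part : ∀ i, ∀ u ∈ U, P i u ∈ U

variable {P} [DecidableEq ι] (hPe : ∀ i x, P i (e x) = if idx x = i then e x else 0)

include hPe in
theorem P_repr (i : ι) (v : V) (a : R) :
    e.repr (P i v) a = if idx a = i then e.repr v a else 0 := by
  conv_lhs => rw [← e.sum_repr v]
  rw [map_sum, map_sum, Finsupp.finsetSum_apply, Finset.sum_eq_single a]
  · rw [map_smul, hPe, map_smul, Finsupp.smul_apply]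
    split_ifs
    · rw [e.repr_self, Finsupp.single_eq_same, smul_eq_mul, mul_one]
    · rw [map_zero, Finsupp.zero_apply, smul_zero]
  · intro b _ hb
    rw [map_smul, hPe, map_smul, Finsupp.smul_apply]
    split_ifs
    · rw [e.repr_self, Finsupp.single_eq_of_ne hb.symm, smul_zero]
    · rw [map_zero, Finsupp.zero_apply, smul_zero]
  · intro h
    exact absurd (Finset.mem_univ _) h

include F G hPe in
theorem basis_mem {U : Submodule Ω V} (hU : Stab 𝔤 P U) {v : V} (hv : v ∈ U) {z : R}
    (hz : e.repr v z ≠ 0) : e z ∈ U := by
  -- first for the elements which are not fixed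
  have h1 : ∀ v ∈ U, ∀ z, inv z ≠ z → e.repr v z ≠ 0 → e z ∈ U := by
    intro v hv z hne hz
    have h1 : DD e inv z (DD e inv z v) + DD e inv z v ∈ U :=
      Submodule.add_mem _ (hU.lie _ (G.torus z) _ (hU.lie _ (G.torus z) _ hv))
        (hU.lie _ (G.torus z) _ hv)
    have h2 : DD e inv z (DD e inv z v) + DD e inv z v = (2 * e.repr v z) • e z := by
      refine e.repr.injective (Finsupp.ext fun b => ?_)
      rw [map_add, Finsupp.add_apply, DD_repr, DD_repr, map_smul, Finsupp.smul_apply, e.repr_self,
        Finsupp.single_apply, smul_eq_mul]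
      unfold dd
      by_cases hb : b = z
      · subst hb
        rw [if_pos rfl, if_neg (Ne.symm hne)]
        ring
      · rw [if_neg hb, if_neg (Ne.symm hb)]
        by_cases hb2 : b = inv z
        · rw [if_pos hb2]
          ring
        · rw [if_neg hb2]
          ring
    rw [h2] at h1
    exact (Submodule.smul_mem_iff _ (mul_ne_zero two_ne_zero hz)).1 h1
  by_cases hne : inv z = z
  · have h2 : P (idx z) v ∈ U := hU.part _ _ hv
    have h3 : P (idx z) v = e.repr v z • e z +
        ∑ a ∈ Finset.univ.erase z, e.repr (P (idx z) v) a • e a := by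
      conv_lhs => rw [← e.sum_repr (P (idx z) v)]
      rw [← Finset.add_sum_erase _ _ (Finset.mem_univ z), P_repr hPe, if_pos rfl]
    have h4 : ∑ a ∈ Finset.univ.erase z, e.repr (P (idx z) v) a • e a ∈ U := by
      refine Submodule.sum_mem _ fun a ha => ?_
      by_cases h5 : e.repr (P (idx z) v) a = 0
      · rw [h5, zero_smul]
        exact Submodule.zero_mem _
      · refine Submodule.smul_mem _ _ (h1 _ h2 a ?_ h5)
        intro h6
        rw [P_repr hPe] at h5
        by_cases h7 : idx a = idx z
        · exact (Finset.ne_of_mem_erase ha) (F.fix a z h6 hne h7)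
        · rw [if_neg h7] at h5
          exact h5 rfl
    have h5 : e.repr v z • e z = P (idx z) v -
        ∑ a ∈ Finset.univ.erase z, e.repr (P (idx z) v) a • e a := eq_sub_iff_add_eq.2 h3.symm
    have h6 := Submodule.sub_mem _ h2 h4
    rw [← h5] at h6
    exact (Submodule.smul_mem_iff _ hz).1 h6
  · exact h1 v hv z hne hz

end

end Pool.Agent.NH33.Qz
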