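import Pool.Agent.H204R3.SP.Full

/-!
# Root vectors in orthogonal and symplectic Lie algebras
-/

set_option autoImplicit false
set_option linter.unusedSectionVars false

namespace Pool.Agent.NH33.Qz

open Module Pool.Agent.H204R3.SP

noncomputable section

variable {R : Type*} [Fintype R] [DecidableEq R] (inv : R → R)

/-- The weight, as an integer. -/
def ddz (y a : R) : ℤ := (if a = y then 1 else 0) - (if a = inv y then 1 else 0)

theorem ddz_cast {Ω : Type*} [Field Ω] (y a : R) : ((ddz inv y a : ℤ) : Ω) = dd inv y a := by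
  unfold ddz dd
  push_cast
  rfl

theorem ddz_le (y a : R) : -1 ≤ ddz inv y a ∧ ddz inv y a ≤ 1 := by
  unfold ddz
  split_ifs <;> omega

variable {Ω : Type*} [Field Ω] {V : Type*} [AddCommGroup V] [Module Ω V]
  (e : Basis R Ω V) (jj eps : R → Ω) {ι : Type*} (idx : R → ι) (ω : V →ₗ[Ω] V →ₗ[Ω] Ω)

/-- A basis of weight vectors for a form which is symmetric or alternating on each of its parts. -/
structure Frame : Prop where
  hinv : ∀ x, inv (inv x) = x
  eps_one : ∀ x, eps x = 1 ∨ eps x = -1
  jj_inv : ∀ x, jj (inv x) = eps x * jj x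
  jj_ne : ∀ x, jj x ≠ 0
  idx_inv : ∀ x, idx (inv x) = idx x
  eps_idx : ∀ x y, idx x = idx y → eps x = eps y
  fix : ∀ x y, inv x = x → inv y = y → idx x = idx y → x = y
  om : ∀ x y, ω (e x) (e y) = JJ inv jj x y

/-- A Lie algebra of endomorphisms which preserve the form and the parts, and which contains the
torus. -/
structure LieData (𝔤 : Submodule Ω (Module.End Ω V)) : Prop where
  bracket : ∀ X ∈ 𝔤, ∀ Y ∈ 𝔤, X * Y - Y * X ∈ 𝔤
  torus : ∀ y, DD e inv y ∈ 𝔤
  skew : ∀ X ∈ 𝔤, ∀ u w, ω (X u) w + ω u (X w) = 0
  block : ∀ X ∈ 𝔤, ∀ x z, e.repr (X (e x)) z ≠ 0 → idx z = idx x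

/-- The basic elements of the Lie algebra. -/
def TT (p q : R) : Module.End Ω V :=
  (ω (e p)).smulRight (e q) - eps p • (ω (e q)).smulRight (e p)

variable {inv e jj eps idx ω}

section frame

variable (F : Frame inv e jj eps idx ω)

include F in
theorem TT_repr (p q a b : R) :
    e.repr (TT e eps ω p q (e a)) b =
      JJ inv jj p a * (if q = b then 1 else 0) -
        eps p * (JJ inv jj q a * (if p = b then 1 else 0)) := by
  unfold TT
  rw [LinearMap.sub_apply, LinearMap.smul_apply, LinearMap.smulRight_apply,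
    LinearMap.smulRight_apply, map_sub, map_smul, map_smul, map_smul, Finsupp.sub_apply,
    Finsupp.smul_apply, Finsupp.smul_apply, Finsupp.smul_apply, F.om, F.om, e.repr_self,
    e.repr_self, Finsupp.single_apply, Finsupp.single_apply, smul_eq_mul, smul_eq_mul, smul_eq_mul]

theorem JJ_self (hinv : ∀ x, inv (inv x) = x) (x : R) : JJ inv jj (inv x) x = jj (inv x) := by
  unfold JJ
  rw [if_pos (hinv x).symm]

theorem ext_repr (e : Basis R Ω V) {A B : Module.End Ω V}
    (h : ∀ a b, e.repr (A (e a)) b = e.repr (B (e a)) b) : A = B :=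
  e.ext fun a => e.repr.injective (Finsupp.ext fun b => h a b)

include F in
theorem eps_inv (x : R) : eps (inv x) = eps x := F.eps_idx _ _ (F.idx_inv x)

include F in
theorem eps_mul (x : R) : eps x * eps x = 1 := by
  rcases F.eps_one x with h | h <;> rw [h] <;> norm_num

include F in
theorem jj_inv' (x : R) : jj x = eps x * jj (inv x) := by
  rw [F.jj_inv, ← mul_assoc, eps_mul F, one_mul]

include F in
theorem TT_comm {p q : R} (h : idx p = idx q) :
    TT e eps ω p q = -(eps p • TT e eps ω q p) := by
  refine ext_repr e fun a b => ?_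
  rw [LinearMap.neg_apply, LinearMap.smul_apply, map_neg, map_smul, Finsupp.neg_apply,
    Finsupp.smul_apply, TT_repr F, TT_repr F, smul_eq_mul, F.eps_idx q p h.symm]
  have h1 := eps_mul F p
  linear_combination (-(JJ inv jj p a * (if q = b then 1 else 0))) * h1

theorem wt_inj (F : Frame inv e jj eps idx ω) {a x : R} (h : ∀ y, ddz inv y a = ddz inv y x)
    (hidx : idx a = idx x) : a = x := by
  by_contra hne
  have hne' : x ≠ a := fun h => hne h.symm
  by_cases ha : a = inv a
  · by_cases hx : x = inv x
    · exact hne (F.fix a x ha.symm hx.symm hidx)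
    · have h1 := h x
      unfold ddz at h1
      rw [if_neg hne, if_pos rfl, if_neg hx] at h1
      split_ifs at h1 <;> omega
  · have h1 := h a
    unfold ddz at h1
    rw [if_pos rfl, if_neg ha, if_neg hne'] at h1
    split_ifs at h1 <;> omega

theorem weights (F : Frame inv e jj eps idx ω) {x z a b : R} (hxz : x ≠ z)
    (hidx : idx z = idx x) (hab : idx b = idx a)
    (h : ∀ y, ddz inv y b - ddz inv y a = ddz inv y z - ddz inv y x) :
    (a = x ∧ b = z) ∨ (a = inv z ∧ b = inv x) := by
  have hzx : z ≠ x := hxz.symm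
  have hdd : ∀ y c : R, ddz inv y (inv c) = - ddz inv y c := by
    intro y c
    unfold ddz
    have e1 : (inv c = y) ↔ (c = inv y) := by
      constructor
      · rintro rfl; exact (F.hinv c).symm
      · rintro rfl; exact F.hinv y
    have e2 : (inv c = inv y) ↔ (c = y) := by
      constructor
      · intro h; rw [← F.hinv c, h, F.hinv]
      · rintro rfl; rfl
    simp only [e1, e2]
    ring
  by_cases hz : z = inv z
  · -- `z` is fixed
    have hx : x ≠ inv x := fun hx => hzx (F.fix z x hz.symm hx.symm hidx)
    have hz0 : ∀ y, ddz inv y z = 0 := by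
      intro y
      have h1 := hdd y z
      rw [← hz] at h1
      omega
    have h1 := h x
    rw [hz0] at h1
    have hcase : b = inv x ∨ a = x := by
      by_contra hcon
      rw [not_or] at hcon
      unfold ddz at h1
      rw [if_neg hcon.1, if_neg hcon.2, if_pos rfl, if_neg hx] at h1
      split_ifs at h1 <;> omega
    rcases hcase with hb | ha
    · right
      have hia : idx a = idx z := by rw [← hab, hb, F.idx_inv, hidx]
      have ha : a = z := by
        refine wt_inj F (fun y => ?_) hia
        have h2 := h y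
        rw [hb, hdd, hz0] at h2
        rw [hz0]
        omega
      exact ⟨ha.trans hz, hb⟩
    · left
      refine ⟨ha, wt_inj F (fun y => ?_) (by rw [hab, ha, hidx])⟩
      have h2 := h y
      rw [ha] at h2
      omega
  · have h1 := h z
    have hcase : b = z ∨ a = inv z := by
      by_contra hcon
      rw [not_or] at hcon
      unfold ddz at h1
      rw [if_neg hcon.1, if_neg hcon.2, if_pos rfl, if_neg hz, if_neg hxz] at h1
      split_ifs at h1 <;> omega
    rcases hcase with hb | ha
    · left
      refine ⟨wt_inj F (fun y => ?_) (by rw [← hab, hb, hidx]), hb⟩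
      have h2 := h y
      rw [hb] at h2
      omega
    · right
      refine ⟨ha, wt_inj F (fun y => ?_) (by rw [hab, ha, F.idx_inv, F.idx_inv, hidx])⟩
      have h2 := h y
      rw [ha, hdd] at h2
      rw [hdd]
      omega

end frame

section mask

variable {𝔤 : Submodule Ω (Module.End Ω V)}
  (hbr : ∀ X ∈ 𝔤, ∀ Y ∈ 𝔤, X * Y - Y * X ∈ 𝔤) (hD : ∀ y, DD e inv y ∈ 𝔤)

include hbr hD in
theorem maskF (y : R) (S : Finset ℤ) {X : Module.End Ω V} (hX : X ∈ 𝔤) :
    ∃ Y ∈ 𝔤, ∀ a b, e.repr (Y (e a)) b =
      (∏ c ∈ S, ((ddz inv y b - ddz inv y a - c : ℤ) : Ω)) * e.repr (X (e a)) b := by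
  induction S using Finset.induction_on with
  | empty => exact ⟨X, hX, fun a b => by rw [Finset.prod_empty, one_mul]⟩
  | insert c S hc ih =>
    obtain ⟨Y, hY, hYc⟩ := ih
    refine ⟨(DD e inv y * Y - Y * DD e inv y) - (c : Ω) • Y,
      Submodule.sub_mem _ (hbr _ (hD y) _ hY) (Submodule.smul_mem _ _ hY), fun a b => ?_⟩
    have h1 : ((DD e inv y * Y - Y * DD e inv y) - (c : Ω) • Y) (e a) =
        DD e inv y (Y (e a)) - Y (DD e inv y (e a)) - (c : Ω) • Y (e a) := rfl
    rw [h1, DD_basis, map_smul, map_sub, map_sub, Finsupp.sub_apply, Finsupp.sub_apply, DD_repr,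
      map_smul, map_smul, Finsupp.smul_apply, Finsupp.smul_apply, smul_eq_mul, smul_eq_mul, hYc a b,
      Finset.prod_insert hc]
    push_cast
    rw [ddz_cast, ddz_cast]
    ring

variable [CharZero Ω]

include hbr hD in
theorem mask_one (y : R) (m : ℤ) {X : Module.End Ω V} (hX : X ∈ 𝔤) :
    ∃ Y ∈ 𝔤, ∃ K : Ω, K ≠ 0 ∧ ∀ a b, e.repr (Y (e a)) b =
      if ddz inv y b - ddz inv y a = m then K * e.repr (X (e a)) b else 0 := by
  obtain ⟨Y, hY, hYc⟩ := maskF hbr hD y ((Finset.Icc (-2 : ℤ) 2).erase m) hX
  refine ⟨Y, hY, ∏ c ∈ (Finset.Icc (-2 : ℤ) 2).erase m, ((m - c : ℤ) : Ω), ?_, fun a b => ?_⟩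
  · rw [Finset.prod_ne_zero_iff]
    intro c hc
    rw [Int.cast_ne_zero]
    have := Finset.ne_of_mem_erase hc
    omega
  · rw [hYc]
    split_ifs with h
    · rw [h]
    · rw [Finset.prod_eq_zero (i := ddz inv y b - ddz inv y a), zero_mul]
      · rw [Finset.mem_erase, Finset.mem_Icc]
        have h1 := ddz_le inv y a
        have h2 := ddz_le inv y b
        refine ⟨h, by omega, by omega⟩
      · rw [sub_self, Int.cast_zero]

include hbr hD in
theorem mask_all (m : R → ℤ) {X : Module.End Ω V} (hX : X ∈ 𝔤) :
    ∃ Y ∈ 𝔤, ∃ K : Ω, K ≠ 0 ∧ ∀ a b, e.repr (Y (e a)) b =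
      if ∀ y, ddz inv y b - ddz inv y a = m y then K * e.repr (X (e a)) b else 0 := by
  have key : ∀ T : Finset R, ∃ Y ∈ 𝔤, ∃ K : Ω, K ≠ 0 ∧ ∀ a b, e.repr (Y (e a)) b =
      if ∀ y ∈ T, ddz inv y b - ddz inv y a = m y then K * e.repr (X (e a)) b else 0 := by
    intro T
    induction T using Finset.induction_on with
    | empty =>
      refine ⟨X, hX, 1, one_ne_zero, fun a b => ?_⟩
      rw [if_pos (fun y hy => absurd hy (Finset.notMem_empty y)), one_mul]
    | insert y T hy ih =>
      obtain ⟨Y, hY, K, hK, hYc⟩ := ih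
      obtain ⟨Z, hZ, K', hK', hZc⟩ := mask_one hbr hD y (m y) hY
      refine ⟨Z, hZ, K' * K, mul_ne_zero hK' hK, fun a b => ?_⟩
      rw [hZc, hYc]
      simp only [Finset.forall_mem_insert]
      by_cases h1 : ddz inv y b - ddz inv y a = m y
      · by_cases h2 : ∀ y ∈ T, ddz inv y b - ddz inv y a = m y
        · rw [if_pos h1, if_pos h2, if_pos ⟨h1, h2⟩, mul_assoc]
        · rw [if_pos h1, if_neg h2, if_neg (fun h => h2 h.2), mul_zero]
      · rw [if_neg h1, if_neg (fun h => h1 h.1)]
  obtain ⟨Y, hY, K, hK, h⟩ := key Finset.univ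
  refine ⟨Y, hY, K, hK, fun a b => ?_⟩
  rw [h]
  simp only [Finset.mem_univ, true_implies]

end mask

section root

variable [CharZero Ω] (F : Frame inv e jj eps idx ω) {𝔤 : Submodule Ω (Module.End Ω V)}
  (G : LieData inv e idx ω 𝔤)

include F in
theorem om_repr (v : V) (b : R) : ω v (e b) = e.repr v (inv b) * jj (inv b) := by
  conv_lhs => rw [← e.sum_repr v]
  rw [map_sum, LinearMap.sum_apply, Finset.sum_eq_single (inv b)]
  · rw [map_smul, LinearMap.smul_apply, F.om, smul_eq_mul, JJ_self F.hinv]
  · intro a _ ha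
    rw [map_smul, LinearMap.smul_apply, F.om]
    unfold JJ
    rw [if_neg, smul_zero]
    rintro rfl
    exact ha (F.hinv a).symm
  · intro h
    exact absurd (Finset.mem_univ _) h

include F in
theorem om_repr' (v : V) (a : R) : ω (e a) v = e.repr v (inv a) * jj a := by
  conv_lhs => rw [← e.sum_repr v]
  rw [map_sum, Finset.sum_eq_single (inv a)]
  · rw [map_smul, F.om, smul_eq_mul]
    unfold JJ
    rw [if_pos rfl]
  · intro b _ hb
    rw [map_smul, F.om]
    unfold JJ
    rw [if_neg hb, smul_zero]
  · intro h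
    exact absurd (Finset.mem_univ _) h

include F G in
theorem skew_repr {X : Module.End Ω V} (hX : X ∈ 𝔤) (x z : R) :
    e.repr (X (e x)) z * jj z + e.repr (X (e (inv z))) (inv x) * jj x = 0 := by
  have h1 := G.skew X hX (e x) (e (inv z))
  rw [om_repr F, om_repr' F, F.hinv] at h1
  exact h1

include F G in
theorem no_self {X : Module.End Ω V} (hX : X ∈ 𝔤) {x : R} (hx : eps x = 1) :
    e.repr (X (e x)) (inv x) = 0 := by
  have h1 := skew_repr F G hX x (inv x)
  rw [F.hinv, F.jj_inv, hx, one_mul] at h1
  have h2 : (2 : Ω) * (e.repr (X (e x)) (inv x) * jj x) = 0 := by linear_combination h1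
  have h3 := (mul_eq_zero.1 h2).resolve_left two_ne_zero
  exact (mul_eq_zero.1 h3).resolve_right (F.jj_ne x)

include F G in
/-- If an element of the Lie algebra has a nonzero matrix coefficient from `e x` to `e z`, the
corresponding root vector is in the Lie algebra. -/
theorem root_mem {X : Module.End Ω V} (hX : X ∈ 𝔤) {x z : R} (hxz : x ≠ z)
    (hc : e.repr (X (e x)) z ≠ 0) : TT e eps ω (inv x) z ∈ 𝔤 := by
  obtain ⟨Y, hY, K, hK, hYc⟩ := mask_all G.bracket G.torus
    (fun y => ddz inv y z - ddz inv y x) hX
  have hidx : idx z = idx x := G.block X hX x z hc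
  have hY0 : ∀ a b, e.repr (Y (e a)) b ≠ 0 → (a = x ∧ b = z) ∨ (a = inv z ∧ b = inv x) := by
    intro a b hab
    rw [hYc] at hab
    split_ifs at hab with h
    · exact weights F hxz hidx (G.block X hX a b (right_ne_zero_of_mul hab)) h
    · exact absurd rfl hab
  have hYxz : e.repr (Y (e x)) z ≠ 0 := by
    rw [hYc, if_pos fun _ => rfl]
    exact mul_ne_zero hK hc
  have hskew := skew_repr F G hY x z
  have hjx := F.jj_ne x
  have heps := eps_mul F x
  have hepsz : eps z = eps x := F.eps_idx _ _ hidx
  -- the multiple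
  by_cases hz : z = inv x
  · subst hz
    rcases F.eps_one x with h1 | h1
    · exact absurd (no_self F G hX h1) hc
    · have h2 : TT e eps ω (inv x) (inv x) = (2 * jj (inv x) / e.repr (Y (e x)) (inv x)) • Y := by
        refine ext_repr e fun a b => ?_
        rw [LinearMap.smul_apply, map_smul, Finsupp.smul_apply, TT_repr F, eps_inv F, h1,
          smul_eq_mul]
        by_cases hab : a = x ∧ b = inv x
        · obtain ⟨rfl, rfl⟩ := hab
          rw [if_pos rfl, JJ_self F.hinv]
          field_simp
          ring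
        · have h3 : e.repr (Y (e a)) b = 0 := by
            by_contra h4
            rcases hY0 a b h4 with h5 | h5
            · exact hab h5
            · rw [F.hinv] at h5
              exact hab h5
          rw [h3, mul_zero]
          by_cases ha : a = x
          · have hb : ¬ inv x = b := fun h => hab ⟨ha, h.symm⟩
            rw [if_neg hb]
            ring
          · have h4 : JJ inv jj (inv x) a = 0 := by
              unfold JJ
              rw [F.hinv, if_neg ha]
            rw [h4]
            ring
      rw [h2]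
      exact Submodule.smul_mem _ _ hY
  · have h2 : TT e eps ω (inv x) z = (jj (inv x) / e.repr (Y (e x)) z) • Y := by
      refine ext_repr e fun a b => ?_
      rw [LinearMap.smul_apply, map_smul, Finsupp.smul_apply, TT_repr F, eps_inv F, smul_eq_mul]
      by_cases ha : a = x
      · subst ha
        have h3 : JJ inv jj z a = 0 := by
          unfold JJ
          rw [if_neg]
          intro h
          exact hz (by rw [h, F.hinv])
        rw [JJ_self F.hinv, h3, zero_mul, mul_zero, sub_zero]
        by_cases hb : z = b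
        · subst hb
          rw [if_pos rfl]
          field_simp
        · rw [if_neg hb, mul_zero]
          have h4 : e.repr (Y (e a)) b = 0 := by
            by_contra h5
            rcases hY0 a b h5 with h6 | h6
            · exact hb h6.2.symm
            · exact hz (by rw [h6.1, F.hinv])
          rw [h4, mul_zero]
      · have h3 : JJ inv jj (inv x) a = 0 := by
          unfold JJ
          rw [F.hinv, if_neg ha]
        rw [h3, zero_mul, zero_sub]
        by_cases hab : a = inv z ∧ b = inv x
        · obtain ⟨rfl, rfl⟩ := hab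
          have h4 : JJ inv jj z (inv z) = jj z := by
            unfold JJ
            rw [if_pos rfl]
          rw [h4, if_pos rfl, mul_one]
          have h5 : e.repr (Y (e (inv z))) (inv x) = -(e.repr (Y (e x)) z * jj z) / jj x := by
            field_simp
            linear_combination hskew
          rw [h5, F.jj_inv]
          field_simp
        · have h4 : e.repr (Y (e a)) b = 0 := by
            by_contra h5
            rcases hY0 a b h5 with h6 | h6
            · exact ha h6.1
            · exact hab h6
          rw [h4, mul_zero]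
          by_cases ha2 : a = inv z
          · have hb : ¬ inv x = b := fun h => hab ⟨ha2, h.symm⟩
            rw [if_neg hb]
            ring
          · have h5 : JJ inv jj z a = 0 := by
              unfold JJ
              rw [if_neg ha2]
            rw [h5]
            ring
    rw [h2]
    exact Submodule.smul_mem _ _ hY

include F in
theorem TT_self {x : R} (hx : eps x = 1) : TT e eps ω x x = 0 := by
  refine ext_repr e fun a b => ?_
  rw [TT_repr F, hx, LinearMap.zero_apply, map_zero, Finsupp.zero_apply]
  ring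

include F in
theorem TT_basis (p q a : R) : TT e eps ω p q (e a) =
    JJ inv jj p a • e q - (eps p * JJ inv jj q a) • e p := by
  unfold TT
  rw [LinearMap.sub_apply, LinearMap.smul_apply, LinearMap.smulRight_apply,
    LinearMap.smulRight_apply, F.om, F.om, smul_smul]

include F G in
/-- Composition of roots, in the orthogonal case. -/
theorem root_trans_so {x z b : R} (hxz : x ≠ z) (hzb : z ≠ b) (hxb : x ≠ b)
    (hzx : z ≠ inv x) (hbz : b ≠ inv z) (hbx : b ≠ inv x)
    (h1 : TT e eps ω (inv x) z ∈ 𝔤) (h2 : TT e eps ω (inv z) b ∈ 𝔤) :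
    TT e eps ω (inv x) b ∈ 𝔤 := by
  refine root_mem F G (G.bracket _ h2 _ h1) hxb ?_
  have hB : (TT e eps ω (inv z) b * TT e eps ω (inv x) z -
      TT e eps ω (inv x) z * TT e eps ω (inv z) b) (e x) =
      TT e eps ω (inv z) b (TT e eps ω (inv x) z (e x)) -
      TT e eps ω (inv x) z (TT e eps ω (inv z) b (e x)) := rfl
  have e1 : JJ inv jj z x = 0 := by
    unfold JJ
    rw [if_neg]
    intro h
    exact hzx (by rw [h, F.hinv])
  have e2 : JJ inv jj (inv z) x = 0 := by
    unfold JJ
    rw [F.hinv, if_neg hxz]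
  have e3 : JJ inv jj b x = 0 := by
    unfold JJ
    rw [if_neg]
    intro h
    exact hbx (by rw [h, F.hinv])
  have hBx : TT e eps ω (inv x) z (e x) = jj (inv x) • e z := by
    rw [TT_basis F, e1, JJ_self F.hinv, mul_zero, zero_smul, sub_zero]
  have hAx : TT e eps ω (inv z) b (e x) = 0 := by
    rw [TT_basis F, e2, e3, mul_zero, zero_smul, zero_smul, sub_zero]
  rw [hB, hBx, hAx, map_zero, sub_zero, map_smul, map_smul,
    Finsupp.smul_apply, TT_repr F, if_pos rfl, JJ_self F.hinv, mul_one, smul_eq_mul]
  have e4 : JJ inv jj b z = 0 := by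
    unfold JJ
    rw [if_neg]
    intro h
    exact hbz (by rw [h, F.hinv])
  rw [e4, zero_mul, mul_zero, sub_zero]
  exact mul_ne_zero (F.jj_ne _) (F.jj_ne _)

include F G in
/-- Composition of roots, in the symplectic case. -/
theorem root_trans_sp {x z b : R} (hx : eps x = -1) (hz : idx z = idx x) (hb : idx b = idx x)
    (hxz : x ≠ z) (hzb : z ≠ b) (hxb : x ≠ b)
    (h1 : TT e eps ω (inv x) z ∈ 𝔤) (h2 : TT e eps ω (inv z) b ∈ 𝔤) :
    TT e eps ω (inv x) b ∈ 𝔤 := by
  refine root_mem F G (G.bracket _ h2 _ h1) hxb ?_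
  have hB : (TT e eps ω (inv z) b * TT e eps ω (inv x) z -
      TT e eps ω (inv x) z * TT e eps ω (inv z) b) (e x) =
      TT e eps ω (inv z) b (TT e eps ω (inv x) z (e x)) -
      TT e eps ω (inv x) z (TT e eps ω (inv z) b (e x)) := rfl
  have ez : eps z = -1 := by rw [F.eps_idx z x hz, hx]
  have eb : eps b = -1 := by rw [F.eps_idx b x hb, hx]
  have ex' : eps (inv x) = -1 := by rw [eps_inv F, hx]
  have ez' : eps (inv z) = -1 := by rw [eps_inv F, ez]
  have e2 : JJ inv jj (inv z) x = 0 := by
    unfold JJ
    rw [F.hinv, if_neg hxz]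
  have jx : jj (inv x) = - jj x := by rw [F.jj_inv, hx, neg_one_mul]
  have jz : jj (inv z) = - jj z := by rw [F.jj_inv, ez, neg_one_mul]
  have hBx : TT e eps ω (inv x) z (e x) = (-jj x) • e z + JJ inv jj z x • e (inv x) := by
    rw [TT_basis F, JJ_self F.hinv, ex', jx, neg_one_mul, neg_smul (JJ inv jj z x),
      sub_neg_eq_add]
  have hAx : TT e eps ω (inv z) b (e x) = JJ inv jj b x • e (inv z) := by
    rw [TT_basis F, e2, ez', neg_one_mul, zero_smul, neg_smul, sub_neg_eq_add, zero_add]
  rw [hB, hBx, hAx, map_add, map_smul, map_smul, map_smul, map_sub, map_add, map_smul, map_smul,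
    map_smul, Finsupp.sub_apply, Finsupp.add_apply, Finsupp.smul_apply, Finsupp.smul_apply,
    Finsupp.smul_apply, TT_repr F, TT_repr F, TT_repr F, JJ_self F.hinv,
    if_pos rfl, if_neg hzb, ex', ez', jz]
  simp only [smul_eq_mul, JJ, F.hinv]
  have hjz := F.jj_ne z
  have hjx := F.jj_ne x
  have hjb := F.jj_ne b
  by_cases c1 : x = inv z
  · have c1' : inv x = z := by rw [c1, F.hinv]
    have c2 : ¬ inv z = b := fun h => hxb (c1.trans h)
    have c3 : ¬ z = inv b := fun h => c2 (by rw [h, F.hinv])
    have c4 : ¬ x = inv b := fun h => hzb (by rw [← F.hinv b, ← h, c1'])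
    have c5 : ¬ inv x = inv b := fun h => hxb (by rw [← F.hinv x, h, F.hinv])
    have c6 : jj x = -jj z := by rw [c1, jz]
    simp only [c1', c2, c3, c4, if_false, if_true, if_pos c1, c6]
    simp only [mul_zero, mul_one, sub_zero]
    have h4 : ∀ t : Ω, t = -(2 * (jj z * jj z)) → t ≠ 0 := by
      rintro t rfl
      exact neg_ne_zero.2 (mul_ne_zero two_ne_zero (mul_ne_zero hjz hjz))
    refine h4 _ ?_
    simp only [jz]
    simp
    ring
  · by_cases c2 : inv z = b
    · subst c2
      have h3 : ¬ x = inv (inv z) := by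
        rw [F.hinv]
        exact hxz
      have h4 : ∀ t : Ω, t = 2 * (jj x * jj z) → t ≠ 0 := by
        rintro t rfl
        exact mul_ne_zero two_ne_zero (mul_ne_zero hjx hjz)
      refine h4 _ ?_
      simp only [c1, F.hinv, if_false, if_true, hxz, jz]
      ring
    · have c3 : ¬ z = inv b := fun h => c2 (by rw [h, F.hinv])
      by_cases c4 : x = inv b
      · have c5 : inv x = b := by rw [c4, F.hinv]
        have c6 : jj b = -jj x := by rw [← c5, jx]
        have h4 : ∀ t : Ω, t = 2 * (jj x * jj z) → t ≠ 0 := by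
          rintro t rfl
          exact mul_ne_zero two_ne_zero (mul_ne_zero hjx hjz)
        refine h4 _ ?_
        simp only [c1, c2, c3, if_false, if_pos c4, if_pos c5, c6, if_true]
        ring
      · have h4 : ∀ t : Ω, t = jj x * jj z → t ≠ 0 := by
          rintro t rfl
          exact mul_ne_zero hjx hjz
        refine h4 _ ?_
        simp only [c1, c2, c3, c4, if_false]
        ring

end root

end

end Pool.Agent.NH33.Qz
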