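import Pool.Agent.NH33.Qz.Defs
import Pool.Agent.NH33.Qz.Eig
import Pool.Agent.H204R3.GP.Semi

/-!
# Semisimplicity
-/

set_option autoImplicit false
set_option linter.unusedSectionVars false
set_option linter.deprecated false

namespace Pool.Agent.NH33.Qz

open Module Polynomial TensorProduct Pool.Agent.H204R3.SP Pool.Agent.H204R3.GP

noncomputable section

theorem IsSemi.semiUnder {k V Γ : Type*} [Field k] [AddCommGroup V] [Module k V] [Group Γ]
    {ρ : Representation k Γ V} (h : IsSemi ρ) : SemiUnder (Set.range ρ) := by
  intro U hU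
  obtain ⟨U', hU', h1⟩ := h U (fun s => hU _ ⟨s, rfl⟩)
  exact ⟨U', by rintro _ ⟨s, rfl⟩; exact hU' s, h1⟩

section pi

variable {k Γ : Type*} [Field k] [Group Γ] {ι : Type*} {V : ι → Type*}
  [∀ i, AddCommGroup (V i)] [∀ i, Module k (V i)]

theorem total_apply (ρ : ∀ i, Representation k Γ (V i)) (s : Γ) (v : ∀ i, V i) (i : ι) :
    total ρ s v i = ρ i s (v i) := rfl

theorem semi_total [Finite ι] (ρ : ∀ i, Representation k Γ (V i)) (h : ∀ i, IsSemi (ρ i)) :
    IsSemi (total ρ) := by
  classical
  let A := MonoidAlgebra k Γ
  let _ : ∀ i, Module A (V i) := fun i => Module.compHom (V i) (ρ i).asAlgebraHom.toRingHom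
  have hAV : ∀ (i : ι) (a : A) (v : V i), a • v = (ρ i).asAlgebraHom a v := fun _ _ _ => rfl
  have hss : ∀ i, IsSemisimpleModule A (V i) := by
    intro i
    refine { exists_isCompl := fun N => ?_ }
    have hk : ∀ (c : k) (x : V i), c • x = (algebraMap k A c) • x := by
      intro c x
      rw [hAV, AlgHom.commutes]
      rfl
    have hs : ∀ (s : Γ) (x : V i), ρ i s x = (MonoidAlgebra.of k Γ s : A) • x := by
      intro s x
      rw [hAV, Representation.asAlgebraHom_of]
    let U0 : Submodule k (V i) :=
      { carrier := N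
        add_mem' := fun ha hb => N.add_mem ha hb
        zero_mem' := N.zero_mem
        smul_mem' := fun c x hx => by
          rw [hk]
          exact N.smul_mem _ hx }
    obtain ⟨U', hU'1, hU'2⟩ := h i U0 (fun s u hu => by
      rw [hs]
      exact N.smul_mem _ hu)
    have hA : ∀ a : A, ∀ u ∈ U', a • u ∈ U' := by
      intro a
      induction a using MonoidAlgebra.induction_on with
      | of s =>
        intro u hu
        rw [← hs]
        exact hU'1 s u hu
      | add a b ha hb =>
        intro u hu
        rw [add_smul]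
        exact U'.add_mem (ha u hu) (hb u hu)
      | smul c a ha =>
        intro u hu
        have h1 : (c • a) • u = c • (a • u) := by
          rw [hAV, hAV, map_smul, LinearMap.smul_apply]
        rw [h1]
        exact U'.smul_mem c (ha u hu)
    refine ⟨{ carrier := U'
              add_mem' := fun ha hb => U'.add_mem ha hb
              zero_mem' := U'.zero_mem
              smul_mem' := fun a x hx => hA a x hx }, ?_⟩
    constructor
    · rw [Submodule.disjoint_def]
      intro x hx hx'
      exact (Submodule.disjoint_def.1 hU'2.disjoint) x hx hx'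
    · rw [codisjoint_iff, eq_top_iff]
      intro x _
      have h1 : x ∈ U0 ⊔ U' := by
        rw [hU'2.sup_eq_top]
        trivial
      obtain ⟨y, hy, z, hz, rfl⟩ := Submodule.mem_sup.1 h1
      exact Submodule.add_mem_sup hy hz
  have hpi : IsSemisimpleModule A (∀ i, V i) := inferInstance
  intro U hU
  have hs : ∀ (s : Γ) (x : ∀ i, V i), total ρ s x = (MonoidAlgebra.of k Γ s : A) • x := by
    intro s x
    funext i
    rw [Pi.smul_apply, hAV, Representation.asAlgebraHom_of]
    rfl
  have hk : ∀ (c : k) (x : ∀ i, V i), c • x = (algebraMap k A c) • x := by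
    intro c x
    funext i
    rw [Pi.smul_apply, Pi.smul_apply, hAV, AlgHom.commutes]
    rfl
  have hA : ∀ a : A, ∀ u ∈ U, a • u ∈ U := by
    intro a
    induction a using MonoidAlgebra.induction_on with
    | of s =>
      intro u hu
      rw [← hs]
      exact hU s u hu
    | add a b ha hb =>
      intro u hu
      rw [add_smul]
      exact U.add_mem (ha u hu) (hb u hu)
    | smul c a ha =>
      intro u hu
      have h1 : (c • a) • u = c • (a • u) := by
        funext i
        rw [Pi.smul_apply, Pi.smul_apply, Pi.smul_apply, hAV, hAV, map_smul, LinearMap.smul_apply]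
      rw [h1]
      exact U.smul_mem c (ha u hu)
  obtain ⟨N', hN'⟩ := hpi.exists_isCompl
    { carrier := U
      add_mem' := fun ha hb => U.add_mem ha hb
      zero_mem' := U.zero_mem
      smul_mem' := fun a x hx => hA a x hx }
  refine ⟨{ carrier := N'
            add_mem' := fun ha hb => N'.add_mem ha hb
            zero_mem' := N'.zero_mem
            smul_mem' := fun c x hx => by
              rw [hk]
              exact N'.smul_mem _ hx }, fun s u hu => by
      rw [hs]
      exact N'.smul_mem _ hu, ?_⟩
  constructor
  · rw [Submodule.disjoint_def]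
    intro x hx hx'
    exact (Submodule.disjoint_def.1 hN'.disjoint) x hx hx'
  · rw [codisjoint_iff, eq_top_iff]
    intro x _
    have h1 : x ∈ ({ carrier := U
                     add_mem' := fun ha hb => U.add_mem ha hb
                     zero_mem' := U.zero_mem
                     smul_mem' := fun a x hx => hA a x hx } : Submodule A (∀ i, V i)) ⊔ N' := by
      rw [hN'.sup_eq_top]
      trivial
    obtain ⟨y, hy, z, hz, rfl⟩ := Submodule.mem_sup.1 h1
    exact Submodule.add_mem_sup (S := U) hy hz

end pi

section det

variable {k K Γ : Type*} [Field k] [CharZero k] [Field K] [Algebra k K] [IsAlgClosed K] [Group Γ]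
  {V : Type*} [AddCommGroup V] [Module k V] [FiniteDimensional k V]

/-- Base change of an injection. -/
theorem baseChange_inj {U : Type*} [AddCommGroup U] [Module k U] (i : U →ₗ[k] V)
    (hi : Function.Injective i) : Function.Injective (i.baseChange K) :=
  Module.Flat.lTensor_preserves_injective_linearMap (M := K) i hi

/-- **Semisimplicity from the determinants.** -/
theorem semi_of_det {ρ : Representation k Γ V} {χ : Γ →* k} {Ψ : Set (Γ →* k)} {w : ℕ}
    {ω : V →ₗ[k] V →ₗ[k] k}
    (hsymm : ∀ u v, ω u v = (-1) ^ w * ω v u)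
    (hsim : ∀ s u v, ω (ρ s u) (ρ s v) = χ s ^ w * ω u v)
    (hnd : ∀ u, (∀ v, ω u v = 0) → u = 0)
    (γ : Γ) (hsep : (ρ γ).charpoly.Separable) (hdet : HasDeterminants ρ χ Ψ)
    (hrel : ∀ (n : K → ℕ) (c : ℤ), ∀ ψ ∈ Ψ,
      (((ρ γ).charpoly.aroots K).map (fun x => x ^ n x)).prod =
        algebraMap k K (χ γ) ^ c * algebraMap k K (ψ γ) →
      ∀ x ∈ (ρ γ).charpoly.aroots K, n x = n (algebraMap k K (χ γ) ^ w / x)) :
    IsSemi ρ := by
  classical
  intro U hU
  have hnd' : ∀ u, (∀ v, ω v u = 0) → u = 0 := by
    intro u hu
    apply hnd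
    intro v
    rw [hsymm, hu, mul_zero]
  -- the orthogonal space
  let U' : Submodule k V :=
    { carrier := {v | ∀ u ∈ U, ω v u = 0}
      add_mem' := fun ha hb u hu => by rw [map_add, LinearMap.add_apply, ha u hu, hb u hu, add_zero]
      zero_mem' := fun u _ => by rw [map_zero, LinearMap.zero_apply]
      smul_mem' := fun c x hx u hu => by
        rw [map_smul, LinearMap.smul_apply, hx u hu, smul_zero] }
  have hU' : ∀ s, ∀ u ∈ U', ρ s u ∈ U' := by
    intro s u hu v hv
    have h1 := hsim s u (ρ s⁻¹ v)
    rw [rho_inv', hu _ (hU s⁻¹ v hv), mul_zero] at h1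
    exact h1
  let U0 : Submodule k V := U ⊓ U'
  have hU0 : ∀ s, ∀ u ∈ U0, ρ s u ∈ U0 := fun s u hu => ⟨hU s u hu.1, hU' s u hu.2⟩
  -- the orthogonal space has the complementary dimension
  have hdisj : U0 = ⊥ → IsCompl U U' := by
    intro h0
    have hB : LinearMap.BilinForm.Nondegenerate ω := ⟨hnd, hnd'⟩
    have hrefl : LinearMap.BilinForm.IsRefl ω := by
      intro u v huv
      rw [hsymm, huv, mul_zero]
    have h1 : LinearMap.BilinForm.orthogonal ω U = U' := by
      ext v
      constructor
      · intro h u hu
        exact hrefl _ _ (h u hu)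
      · intro h u hu
        exact hrefl _ _ (h u hu)
    have h2 := LinearMap.BilinForm.finrank_orthogonal (B := ω) hB U
    rw [h1] at h2
    have h3 : Disjoint U U' := disjoint_iff.2 h0
    refine ⟨h3, ?_⟩
    rw [codisjoint_iff]
    apply Submodule.eq_top_of_finrank_eq
    have h4 := Submodule.finrank_sup_add_finrank_inf_eq U U'
    have h5 : U ⊓ U' = ⊥ := h0
    rw [h5, finrank_bot, add_zero] at h4
    have h6 := Submodule.finrank_le U
    omega
  refine ⟨U', hU', hdisj ?_⟩
  -- the restriction of the Frobenius
  let g : U0 →ₗ[k] U0 := (ρ γ).restrict (hU0 γ)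
  let i : U0 →ₗ[k] V := U0.subtype
  let gK : Module.End K (K ⊗[k] U0) := g.baseChange K
  let TK : Module.End K (K ⊗[k] V) := (ρ γ).baseChange K
  let iK : (K ⊗[k] U0) →ₗ[K] (K ⊗[k] V) := i.baseChange K
  have hiK : Function.Injective iK := baseChange_inj i Subtype.val_injective
  have hcomm : ∀ z, iK (gK z) = TK (iK z) := by
    intro z
    induction z with
    | zero => simp only [map_zero]
    | add a b ha hb => simp only [map_add, ha, hb]
    | tmul a b => rfl
  have hiso : ∀ z z', bcb K ω (iK z) (iK z') = 0 := by
    intro z z'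
    induction z with
    | zero => simp only [map_zero, LinearMap.zero_apply]
    | add a b ha hb => simp only [map_add, LinearMap.add_apply, ha, hb, add_zero]
    | tmul a b =>
      induction z' with
      | zero => simp only [map_zero]
      | add c d hc hd => simp only [map_add, hc, hd, add_zero]
      | tmul c d =>
        change bcb K ω (a ⊗ₜ[k] (b : V)) (c ⊗ₜ[k] (d : V)) = 0
        rw [bcb_tmul, b.2.2 _ d.2.1, zero_smul]
  have hsplit : TK.charpoly.Splits := IsAlgClosed.splits _
  have hcp : TK.charpoly = (ρ γ).charpoly.map (algebraMap k K) := LinearMap.charpoly_baseChange _ _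
  obtain ⟨e, he⟩ := exists_eigenbasisR TK (by rw [hcp]; exact hsep.map) hsplit
  set q : K := algebraMap k K (χ γ) with hq
  have hsimK : ∀ u v, bcb K ω (TK u) (TK v) = q ^ w * bcb K ω u v := by
    intro u v
    induction u with
    | zero => simp only [map_zero, LinearMap.zero_apply, mul_zero]
    | add u u' hu hu' => simp only [map_add, LinearMap.add_apply, hu, hu', mul_add]
    | tmul a u =>
      induction v with
      | zero => simp only [map_zero, mul_zero]
      | add v v' hv hv' => simp only [map_add, hv, hv', mul_add]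
      | tmul c v =>
        change bcb K ω (a ⊗ₜ[k] ρ γ u) (c ⊗ₜ[k] ρ γ v) = _
        rw [bcb_tmul, bcb_tmul, hsim, mul_smul, Algebra.smul_def (χ γ ^ w), map_pow]
  have hndK : ∀ u, (∀ v, bcb K ω u v = 0) → u = 0 := by
    intro u hu
    apply bcb_nondeg (finBasis k V) ω hnd' hnd
    intro v
    have hsK : ∀ a b, bcb K ω a b = (-1) ^ w * bcb K ω b a := by
      intro a b
      induction a with
      | zero => simp only [map_zero, LinearMap.zero_apply, mul_zero]
      | add a a' ha ha' => simp only [map_add, LinearMap.add_apply, ha, ha', mul_add]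
      | tmul x a =>
        induction b with
        | zero => simp only [map_zero, LinearMap.zero_apply, mul_zero]
        | add b b' hb hb' => simp only [map_add, LinearMap.add_apply, hb, hb', mul_add]
        | tmul y b =>
          have h1 : ((-1 : K) ^ w) = algebraMap k K ((-1) ^ w) := by
            rw [map_pow, map_neg, map_one]
          rw [bcb_tmul, bcb_tmul, hsymm, mul_comm x y, mul_smul, Algebra.smul_def ((-1 : k) ^ w), h1]
    rw [hsK, hu, mul_zero]
  -- two eigenvectors with product `q ^ w` are not orthogonal
  have hpair : ∀ (x y : K) (u v : K ⊗[k] V), u ≠ 0 → v ≠ 0 → TK u = x • u → TK v = y • v →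
      x * y = q ^ w → bcb K ω u v ≠ 0 := by
    intro x y u v hu hv hxu hyv hxy h0
    have hx0 : x ≠ 0 := by
      rintro rfl
      rw [zero_mul] at hxy
      exact pow_ne_zero w ((map_ne_zero (algebraMap k K)).2 (chi_ne χ γ)) hxy.symm
    apply hu
    apply hndK
    intro z
    rw [← e.sum_repr z, map_sum]
    refine Finset.sum_eq_zero fun r _ => ?_
    rw [map_smul]
    by_cases hr : (r : K) = y
    · -- `v` is a multiple of `e r`
      have h1 : v = e.repr v r • e r := by
        conv_lhs => rw [← e.sum_repr v]
        refine Finset.sum_eq_single r (fun t _ ht => ?_) (fun h => absurd (Finset.mem_univ r) h)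
        have h2 : e.repr (TK v) t = (t : K) * e.repr v t := by
          conv_lhs => rw [← e.sum_repr v]
          rw [map_sum, map_sum, Finsupp.finsetSum_apply]
          have h3 : ∀ z, (e.repr (TK (e.repr v z • e z))) t =
              if z = t then (t : K) * e.repr v z else 0 := by
            intro z
            rw [map_smul, he, map_smul, map_smul, e.repr_self, Finsupp.smul_apply,
              Finsupp.smul_apply, Finsupp.single_apply, smul_eq_mul, smul_eq_mul]
            split_ifs with h
            · rw [h]; ring
            · ring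
          rw [Finset.sum_congr rfl (fun z _ => h3 z), Finset.sum_ite_eq',
            if_pos (Finset.mem_univ _)]
        rw [hyv, map_smul, Finsupp.smul_apply, smul_eq_mul] at h2
        have h3 : (y - t) * e.repr v t = 0 := by linear_combination h2
        rcases mul_eq_zero.1 h3 with h4 | h4
        · exfalso
          apply ht
          apply Subtype.ext
          rw [hr]
          exact (sub_eq_zero.1 h4).symm
        · rw [h4, zero_smul]
      have h2 : e.repr v r ≠ 0 := by
        intro h3
        rw [h3, zero_smul] at h1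
        exact hv h1
      rw [h1, map_smul, smul_eq_mul] at h0
      rw [(mul_eq_zero.1 h0).resolve_left h2, smul_zero]
    · have h1 := hsimK u (e r)
      rw [hxu, he, map_smul, map_smul, LinearMap.smul_apply, smul_eq_mul, smul_eq_mul, ← hxy] at h1
      have h2 : x * ((r : K) - y) * bcb K ω u (e r) = 0 := by linear_combination h1
      rcases mul_eq_zero.1 h2 with h3 | h3
      · rcases mul_eq_zero.1 h3 with h4 | h4
        · exact absurd h4 hx0
        · exact absurd (sub_eq_zero.1 h4) hr
      · rw [h3, smul_zero]
  -- the eigenvalues of the restriction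
  have heig : ∀ x ∈ gK.charpoly.roots, ∃ z, z ≠ 0 ∧ gK z = x • z := by
    intro x hx
    rw [mem_roots (LinearMap.charpoly_monic gK).ne_zero,
      ← Module.End.hasEigenvalue_iff_isRoot_charpoly] at hx
    obtain ⟨z, hz⟩ := hx.exists_hasEigenvector
    exact ⟨z, hz.2, hz.apply_eq_smul⟩
  have heig' : ∀ x ∈ gK.charpoly.roots, x ∈ (ρ γ).charpoly.aroots K := by
    intro x hx
    obtain ⟨z, hz, hz'⟩ := heig x hx
    have h1 : TK.HasEigenvalue x := by
      apply Module.End.hasEigenvalue_of_hasEigenvector (x := iK z)
      refine Module.End.hasEigenvector_iff.2 ⟨?_, ?_⟩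
      · rw [Module.End.mem_eigenspace_iff, ← hcomm, hz', map_smul]
      · intro h
        exact hz (hiK (h.trans (map_zero iK).symm))
    rw [Module.End.hasEigenvalue_iff_isRoot_charpoly] at h1
    rw [aroots, mem_roots (((LinearMap.charpoly_monic _).map _).ne_zero), ← hcp]
    exact h1
  obtain ⟨N, c, hN, ψ, hψ, hNc⟩ := hdet U0 hU0
  have hnodup : ((ρ γ).charpoly.aroots K).Nodup := nodup_roots hsep.map
  have h1 : (((ρ γ).charpoly.aroots K).map
      (fun x => x ^ (N * gK.charpoly.roots.count x))).prod = q ^ c * algebraMap k K (ψ γ) := by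
    have h2 : gK.det = algebraMap k K (LinearMap.det g) := by
      rw [← LinearMap.det_baseChange]
    have h3 : gK.det = gK.charpoly.roots.prod :=
      Module.End.det_eq_prod_roots_charpoly_of_splits (IsAlgClosed.splits _)
    have h4 : gK.charpoly.roots.prod = ∏ x ∈ ((ρ γ).charpoly.aroots K).toFinset,
        x ^ (gK.charpoly.roots.count x) :=
      Finset.prod_multiset_count_of_subset _ _ fun x hx => by
        rw [Multiset.mem_toFinset] at hx ⊢
        exact heig' x hx
    have h5 : (((ρ γ).charpoly.aroots K).map
        (fun x => x ^ (N * gK.charpoly.roots.count x))).prod =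
        ∏ x ∈ ((ρ γ).charpoly.aroots K).toFinset, x ^ (N * gK.charpoly.roots.count x) := by
      change _ = (((ρ γ).charpoly.aroots K).dedup.map
        (fun x => x ^ (N * gK.charpoly.roots.count x))).prod
      rw [hnodup.dedup]
    rw [h5]
    have h6 : ∏ x ∈ ((ρ γ).charpoly.aroots K).toFinset, x ^ (N * gK.charpoly.roots.count x) =
        (∏ x ∈ ((ρ γ).charpoly.aroots K).toFinset, x ^ (gK.charpoly.roots.count x)) ^ N := by
      rw [← Finset.prod_pow]
      refine Finset.prod_congr rfl fun x _ => ?_
      rw [mul_comm, pow_mul]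
    rw [h6, ← h4, ← h3, h2, ← map_pow, hNc, map_mul, map_zpow₀]
  have h2 := hrel _ c ψ hψ h1
  -- conclusion
  by_contra h0
  have h3 : gK.charpoly.roots ≠ 0 := by
    intro h4
    have h5 : gK.charpoly.natDegree = finrank K (K ⊗[k] U0) := LinearMap.charpoly_natDegree _
    rw [(IsAlgClosed.splits gK.charpoly).natDegree_eq_card_roots, h4, Multiset.card_zero,
      Module.finrank_baseChange] at h5
    exact h0 (Submodule.finrank_eq_zero.1 h5.symm)
  obtain ⟨x, hx⟩ := Multiset.exists_mem_of_ne_zero h3
  have h4 := h2 x (heig' x hx)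
  have h5 : 0 < gK.charpoly.roots.count (q ^ w / x) := by
    have h6 := Multiset.count_pos.2 hx
    have h7 : N * gK.charpoly.roots.count x ≠ 0 := mul_ne_zero hN h6.ne'
    rw [h4] at h7
    exact Nat.pos_of_ne_zero (right_ne_zero_of_mul h7)
  rw [Multiset.count_pos] at h5
  obtain ⟨z, hz, hz'⟩ := heig x hx
  obtain ⟨z2, hz2, hz2'⟩ := heig _ h5
  have hx0 : x ≠ 0 := by
    rintro rfl
    obtain ⟨z, hz, hz'⟩ := heig 0 hx
    apply hz
    apply hiK
    rw [map_zero]
    apply hndK
    intro v
    have h6 := hsimK (iK z) v
    rw [← hcomm, hz', zero_smul, map_zero, map_zero, LinearMap.zero_apply] at h6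
    rcases mul_eq_zero.1 h6.symm with h7 | h7
    · exact absurd h7 (pow_ne_zero w ((map_ne_zero (algebraMap k K)).2 (chi_ne χ γ)))
    · exact h7
  refine hpair x (q ^ w / x) (iK z) (iK z2) (fun h => hz (hiK (h.trans (map_zero iK).symm)))
    (fun h => hz2 (hiK (h.trans (map_zero iK).symm))) (by rw [← hcomm, hz', map_smul])
    (by rw [← hcomm, hz2', map_smul]) (mul_div_cancel₀ _ hx0) (hiso z z2)

end det

end

end Pool.Agent.NH33.Qz
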