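import Pool.Agent.NH33.Qz.Forms

/-!
# Tate forms with values in a representation are combinations of products
-/

set_option autoImplicit false
set_option linter.unusedSectionVars false

namespace Pool.Agent.NH33.Qz

open Module Pool.Agent.H204R3.SP

noncomputable section

section prod

variable {Ω : Type*} [Field Ω] {V : Type*} [AddCommGroup V] [Module Ω V]

/-- The product of multilinear forms in disjoint sets of variables. -/
def prodS {J : Type} [Fintype J] {d : J → ℕ}
    (Φ : ∀ j, MultilinearMap Ω (fun _ : Fin (d j) => V) Ω) :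
    MultilinearMap Ω (fun _ : (Σ j, Fin (d j)) => V) Ω where
  toFun v := ∏ j, Φ j (fun a => v ⟨j, a⟩)
  map_update_add' := by
    intro _ v x y z
    obtain ⟨j, a⟩ := x
    classical
    have h1 : ∀ u : V, (fun b => Function.update v ⟨j, a⟩ u ⟨j, b⟩) =
        Function.update (fun b => v ⟨j, b⟩) a u := by
      intro u
      funext b
      by_cases h : b = a
      · subst h
        rw [Function.update_self, Function.update_self]
      · rw [Function.update_of_ne h, Function.update_of_ne]
        intro h2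
        exact h (eq_of_heq (Sigma.mk.inj_iff.1 h2).2)
    have h2 : ∀ (u : V) (j' : J), j' ≠ j →
        (fun b => Function.update v ⟨j, a⟩ u ⟨j', b⟩) = fun b => v ⟨j', b⟩ := by
      intro u j' hj
      funext b
      rw [Function.update_of_ne]
      intro h3
      exact hj (Sigma.mk.inj_iff.1 h3).1
    have h3 : ∀ u : V, ∏ j', Φ j' (fun b => Function.update v ⟨j, a⟩ u ⟨j', b⟩) =
        Φ j (Function.update (fun b => v ⟨j, b⟩) a u) *
          ∏ j' ∈ Finset.univ.erase j, Φ j' (fun b => v ⟨j', b⟩) := by
      intro u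
      rw [← Finset.mul_prod_erase _ _ (Finset.mem_univ j), h1]
      congr 1
      refine Finset.prod_congr rfl fun j' hj' => ?_
      rw [h2 u j' (Finset.ne_of_mem_erase hj')]
    convert! (show ∏ j', Φ j' (fun b => Function.update v ⟨j, a⟩ (y + z) ⟨j', b⟩) =
      ∏ j', Φ j' (fun b => Function.update v ⟨j, a⟩ y ⟨j', b⟩) +
      ∏ j', Φ j' (fun b => Function.update v ⟨j, a⟩ z ⟨j', b⟩) from ?_)
    rw [h3, h3, h3, MultilinearMap.map_update_add, add_mul]
  map_update_smul' := by
    intro _ v x c y
    obtain ⟨j, a⟩ := x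
    classical
    have h1 : ∀ u : V, (fun b => Function.update v ⟨j, a⟩ u ⟨j, b⟩) =
        Function.update (fun b => v ⟨j, b⟩) a u := by
      intro u
      funext b
      by_cases h : b = a
      · subst h
        rw [Function.update_self, Function.update_self]
      · rw [Function.update_of_ne h, Function.update_of_ne]
        intro h2
        exact h (eq_of_heq (Sigma.mk.inj_iff.1 h2).2)
    have h2 : ∀ (u : V) (j' : J), j' ≠ j →
        (fun b => Function.update v ⟨j, a⟩ u ⟨j', b⟩) = fun b => v ⟨j', b⟩ := by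
      intro u j' hj
      funext b
      rw [Function.update_of_ne]
      intro h3
      exact hj (Sigma.mk.inj_iff.1 h3).1
    have h3 : ∀ u : V, ∏ j', Φ j' (fun b => Function.update v ⟨j, a⟩ u ⟨j', b⟩) =
        Φ j (Function.update (fun b => v ⟨j, b⟩) a u) *
          ∏ j' ∈ Finset.univ.erase j, Φ j' (fun b => v ⟨j', b⟩) := by
      intro u
      rw [← Finset.mul_prod_erase _ _ (Finset.mem_univ j), h1]
      congr 1
      refine Finset.prod_congr rfl fun j' hj' => ?_
      rw [h2 u j' (Finset.ne_of_mem_erase hj')]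
    convert! (show ∏ j', Φ j' (fun b => Function.update v ⟨j, a⟩ (c • y) ⟨j', b⟩) =
      c • ∏ j', Φ j' (fun b => Function.update v ⟨j, a⟩ y ⟨j', b⟩) from ?_)
    rw [h3, h3, MultilinearMap.map_update_smul, smul_eq_mul, smul_eq_mul, mul_assoc]

end prod

section

variable {Ω : Type*} [Field Ω] {V : Type*} [AddCommGroup V] [Module Ω V]
  {H : Type*} [AddCommGroup H] [Module Ω H]
  {Γ : Type*} [Group Γ] (ρ : Representation Ω Γ V) (χ : Γ →* Ω) (τ : Representation Ω Γ H)
  {ι : Type} (w : ι → ℕ) (P : ι → Module.End Ω V)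

/-- A vector on which a subgroup of finite index acts through a power of `χ`. -/
def IsTateV (h : H) : Prop :=
  ∃ (c : ℤ) (Δ : Subgroup Γ), Δ.FiniteIndex ∧ ∀ s ∈ Δ, τ s h = χ s ^ c • h

/-- The products of basic forms and of a Tate vector. -/
def ProdF (κ : Type) : Set ((κ → V) → H) :=
  {g | ∃ (J : Type) (_ : Fintype J) (d : J → ℕ) (σ : (Σ j, Fin (d j)) ≃ κ)
    (Φ : ∀ j, MultilinearMap Ω (fun _ : Fin (d j) => V) Ω) (h : H),
    (∀ j, IsBasicF ρ χ w P (Φ j)) ∧ IsTateV χ τ h ∧
    g = fun v => (∏ j, Φ j (fun a => v (σ ⟨j, a⟩))) • h}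

/-- The products of basic forms, as multilinear forms. -/
def ProdM (κ : Type) : Set (MultilinearMap Ω (fun _ : κ => V) Ω) :=
  {ψ | ∃ (J : Type) (_ : Fintype J) (d : J → ℕ) (σ : (Σ j, Fin (d j)) ≃ κ)
    (Φ : ∀ j, MultilinearMap Ω (fun _ : Fin (d j) => V) Ω),
    (∀ j, IsBasicF ρ χ w P (Φ j)) ∧ ψ = (prodS Φ).domDomCongr σ}

variable {ρ χ w P}

theorem prod_zpow_sum {J : Type} (S : Finset J) {x : Ω} (hx : x ≠ 0) (c : J → ℤ) :
    ∏ j ∈ S, x ^ c j = x ^ ∑ j ∈ S, c j := by
  classical
  induction S using Finset.induction_on with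
  | empty => rw [Finset.prod_empty, Finset.sum_empty, zpow_zero]
  | insert j S hj ih => rw [Finset.prod_insert hj, Finset.sum_insert hj, ih, zpow_add₀ hx]

theorem prodM_tate {κ : Type} {ψ : MultilinearMap Ω (fun _ : κ => V) Ω}
    (h : ψ ∈ ProdM ρ χ w P κ) : IsTateS ρ χ ψ := by
  obtain ⟨J, _, d, σ, Φ, hΦ, rfl⟩ := h
  choose c Δ hΔ hc using fun j => (hΦ j).1
  refine ⟨∑ j, c j, ⨅ j, Δ j, Subgroup.finiteIndex_iInf hΔ, fun s hs v => ?_⟩
  change ∏ j, Φ j (fun a => ρ s (v (σ ⟨j, a⟩))) = _ * ∏ j, Φ j (fun a => v (σ ⟨j, a⟩))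
  rw [Finset.prod_congr rfl fun j _ => hc j s ((Subgroup.mem_iInf.1 hs) j)
    (fun a => v (σ ⟨j, a⟩)), Finset.prod_mul_distrib, prod_zpow_sum _ (chi_ne χ s)]

variable {τ} [FiniteDimensional Ω V] [FiniteDimensional Ω H]

/-- From the components to the form. -/
theorem tate_expansion {κ : Type} [Finite κ] {c : ℤ} {f : MultilinearMap Ω (fun _ : κ => V) H}
    (hf : IsTateC ρ χ τ c f)
    (hdual : ∀ ℓ : H →ₗ[Ω] Ω, ℓ.compMultilinearMap f ∈ Submodule.span Ω (ProdM ρ χ w P κ)) :
    (fun v => f v) ∈ Submodule.span Ω (ProdF ρ χ τ w P κ) := by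
  classical
  obtain ⟨b, hb, hspan, hli⟩ := exists_linearIndependent Ω (ProdM ρ χ w P κ)
  have hbfin : b.Finite := hli.setFinite
  have _ : Fintype b := hbfin.fintype
  let h := Module.finBasis Ω H
  have h1 : ∀ a, ∃ y : b → Ω, ∑ j, y j • (j : MultilinearMap Ω (fun _ : κ => V) Ω) =
      (h.coord a).compMultilinearMap f := by
    intro a
    have h2 := hdual (h.coord a)
    rw [← hspan] at h2
    have h3 : b = Set.range (fun j : b => (j : MultilinearMap Ω (fun _ : κ => V) Ω)) := by
      rw [Subtype.range_coe]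
    rw [h3] at h2
    exact (Submodule.mem_span_range_iff_exists_fun Ω).1 h2
  choose y hy using h1
  -- the vectors
  let z : b → H := fun j => ∑ a, y a j • h a
  have hfz : ∀ v, f v = ∑ j : b, (j : MultilinearMap Ω (fun _ : κ => V) Ω) v • z j := by
    intro v
    rw [← h.sum_repr (f v)]
    have h2 : ∀ a, h.repr (f v) a = ∑ j : b, y a j * (j : MultilinearMap Ω (fun _ : κ => V) Ω) v := by
      intro a
      have h3 := congrArg (fun F : MultilinearMap Ω (fun _ : κ => V) Ω => F v) (hy a)
      simp only [MultilinearMap.sum_apply, MultilinearMap.smul_apply, smul_eq_mul] at h3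
      rw [h3]
      rfl
    simp only [h2, Finset.sum_smul, z, Finset.smul_sum, smul_smul]
    rw [Finset.sum_comm]
    refine Finset.sum_congr rfl fun j _ => Finset.sum_congr rfl fun a _ => ?_
    rw [mul_comm]
  -- independence
  have hind : ∀ u : b → H, (∀ v, ∑ j : b, (j : MultilinearMap Ω (fun _ : κ => V) Ω) v • u j = 0) →
      ∀ j, u j = 0 := by
    intro u hu j
    rw [← LinearEquiv.map_eq_zero_iff h.repr]
    ext a
    rw [Finsupp.zero_apply]
    have h2 : ∑ j : b, h.repr (u j) a • (j : MultilinearMap Ω (fun _ : κ => V) Ω) = 0 := by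
      ext v
      have h3 := congrArg (fun x => h.repr x a) (hu v)
      simp only [map_sum, map_smul, Finsupp.finsetSum_apply, Finsupp.smul_apply, smul_eq_mul,
        map_zero, Finsupp.zero_apply] at h3
      rw [MultilinearMap.sum_apply, MultilinearMap.zero_apply, ← h3]
      refine Finset.sum_congr rfl fun j _ => ?_
      rw [MultilinearMap.smul_apply, smul_eq_mul, mul_comm]
    exact (Fintype.linearIndependent_iff.1 hli) _ h2 j
  -- the vectors are Tate vectors
  have hz : ∀ j, IsTateV χ τ (z j) := by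
    intro j
    obtain ⟨Δ, hΔ, hΔf⟩ := hf
    choose cj Δj hΔj hcj using fun j : b => prodM_tate (hb j.2)
    refine ⟨cj j - c, Δ ⊓ ⨅ j, Δj j, ?_, fun s hs => ?_⟩
    · have h2 := Subgroup.finiteIndex_iInf hΔj
      exact inferInstance
    · obtain ⟨hs1, hs2⟩ := Subgroup.mem_inf.1 hs
      have h2 := hind (fun j => χ s ^ cj j • z j - χ s ^ c • τ s (z j)) (fun v => by
        simp only [smul_sub, Finset.sum_sub_distrib]
        have h3 := hΔf s hs1 v
        rw [hfz, hfz] at h3
        simp only [map_sum, map_smul, Finset.smul_sum] at h3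
        rw [sub_eq_zero]
        have h4 : ∀ j : b, (j : MultilinearMap Ω (fun _ : κ => V) Ω) (fun l => ρ s (v l)) • z j =
            (j : MultilinearMap Ω (fun _ : κ => V) Ω) v • χ s ^ cj j • z j := by
          intro j
          rw [hcj j s ((Subgroup.mem_iInf.1 hs2) j), smul_smul, mul_comm]
        rw [← Finset.sum_congr rfl fun j _ => h4 j, h3]
        refine Finset.sum_congr rfl fun j _ => ?_
        rw [smul_comm]) j
      have h3 : χ s ^ cj j • z j = χ s ^ c • τ s (z j) := sub_eq_zero.1 h2
      have h4 := chi_ne χ s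
      rw [zpow_sub₀ h4, div_eq_inv_mul, mul_smul, h3, smul_smul,
        inv_mul_cancel₀ (zpow_ne_zero _ h4), one_smul]
  have h2 : (fun v => f v) = ∑ j : b, (fun v => (j : MultilinearMap Ω (fun _ : κ => V) Ω) v • z j) := by
    funext v
    rw [hfz, Finset.sum_apply]
  rw [h2]
  refine Submodule.sum_mem _ fun j _ => Submodule.subset_span ?_
  obtain ⟨J, _, d, σ, Φ, hΦ, hj⟩ := hb j.2
  refine ⟨J, inferInstance, d, σ, Φ, z j, hΦ, hz j, ?_⟩
  funext v
  rw [hj]
  rfl

end

section

variable {R : Type*} [Fintype R] [DecidableEq R] {inv : R → R}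
  {Ω : Type*} [Field Ω] {V : Type*} [AddCommGroup V] [Module Ω V]
  {H : Type*} [AddCommGroup H] [Module Ω H]
  {e : Basis R Ω V} {jj eps : R → Ω} {ι : Type} [Fintype ι] {idx : R → ι}
  {ω : V →ₗ[Ω] V →ₗ[Ω] Ω} [CharZero Ω]
  {P : ι → Module.End Ω V} [DecidableEq ι] (hPe : ∀ i x, P i (e x) = if idx x = i then e x else 0)
  {Γ : Type*} [Group Γ] {ρ : Representation Ω Γ V} {χ : Γ →* Ω} {w : ι → ℕ}
  {τ : Representation Ω Γ H}
  (hP : Pol ρ χ w P ω) (F : Frame inv e jj eps idx ω)
  (G : LieData inv e idx ω (lieH ρ χ τ)) (heps : ∀ x, eps x = (-1) ^ w (idx x))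
  (hss : ∀ U : Submodule Ω V, (∀ s, ∀ u ∈ U, ρ s u ∈ U) →
    ∃ Q : Module.End Ω V, (∀ v, Q v ∈ U) ∧ (∀ u ∈ U, Q u = u) ∧ ∀ s v, Q (ρ s v) = ρ s (Q v))
  {h0 : H} (hh : h0 ≠ 0) (hh0 : ∀ s, τ s h0 = h0)

/-- The equivalence relation of the classes. -/
def stdS (hsymm : ∀ x z, Reach e (lieH ρ χ τ) x z → Reach e (lieH ρ χ τ) z x) : Setoid R where
  r := Reach e (lieH ρ χ τ)
  iseqv := ⟨fun _ => Relation.ReflTransGen.refl, fun h => hsymm _ _ h, fun h h' => h.trans h'⟩

include hPe hP F G heps hss hh hh0 in
theorem dual_mem {κ : Type} [Fintype κ] [DecidableEq κ] {c : ℤ}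
    {f : MultilinearMap Ω (fun _ : κ => V) H} (hf : IsTateC ρ χ τ c f) (ℓ : H →ₗ[Ω] Ω) :
    ℓ.compMultilinearMap f ∈ Submodule.span Ω (ProdM ρ χ w P κ) := by
  classical
  have hconj : ∀ (s : Γ) (X : Module.End Ω V), X ∈ lieH ρ χ τ → ρ s * X * ρ s⁻¹ ∈ lieH ρ χ τ :=
    fun s X hX => lieH_conj ρ χ τ s hX
  have hsymm : ∀ x z, Reach e (lieH ρ χ τ) x z → Reach e (lieH ρ χ τ) z x := fun x z h =>
    reach_symm F G hPe hconj hP.comm hss
      (fun Q hQ X hX v => lie_comm hP hh hh0 hX (Δ := ⊤) inferInstance (fun s _ v => hQ s v) v)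
      hP.sum hP.idem hP.orth h
  let S : Setoid R := stdS hsymm
  let cls : R → Quotient S := Quotient.mk S
  have hcls : ∀ x z, cls x = cls z ↔ Reach e (lieH ρ χ τ) x z := fun x z => Quotient.eq
  have hsurj : ∀ c : Quotient S, ∃ x, cls x = c := fun c => Quotient.exists_rep c
  have _ : Fintype (Quotient S) := Fintype.ofFinite _
  let sg : Quotient S → Ω := Quotient.lift eps (fun a b h => F.eps_idx a b (reach_idx G h).symm)
  have hsg : ∀ x, sg (cls x) = eps x := fun x => rfl
  have D : CData cls inv jj sg :=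
    { hinv := F.hinv
      jj_inv := fun x => by rw [hsg, F.jj_inv]
      jj_ne := F.jj_ne
      sg_one := fun c => by
        obtain ⟨x, rfl⟩ := hsurj c
        rw [hsg]
        exact F.eps_one x
      cls_inv := fun x y h => by
        rw [hcls] at h ⊢
        exact hsymm _ _ (reach_inv' F G h)
      sg_inv := fun x => by rw [hsg, hsg, eps_inv F] }
  obtain ⟨Δ, hΔ, hPC⟩ := PC_comm F G hPe hP hcls hconj
  -- coefficients
  let coef : MultilinearMap Ω (fun _ : κ => V) Ω →ₗ[Ω] ((κ → R) → Ω) :=
    { toFun := fun φ I => φ (fun k => e (I k))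
      map_add' := fun _ _ => rfl
      map_smul' := fun _ _ => rfl }
  have hinj : Function.Injective coef := fun φ φ' h =>
    Basis.ext_multilinear (fun _ => e) fun I => congrFun h I
  set φ := ℓ.compMultilinearMap f with hφ
  have hrel : ∀ b c, cls (inv b) = cls c → ∀ I : κ → R,
      ∑ k, (JJ inv jj b (I k) * coef φ (Function.update I k c) -
        sg (cls b) * (JJ inv jj c (I k) * coef φ (Function.update I k b))) = 0 := by
    intro b c' hbc I
    have h2 : TT e eps ω b c' ∈ lieH ρ χ τ := TT_mem F G ((hcls _ _).1 hbc)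
    have h3 := congrArg ℓ (h2 κ c f hf (fun k => e (I k)))
    rw [map_zero, map_sum] at h3
    rw [← h3]
    refine Finset.sum_congr rfl fun k _ => ?_
    rw [TT_basis F, MultilinearMap.map_update_sub, MultilinearMap.map_update_smul,
      MultilinearMap.map_update_smul, map_sub, map_smul, map_smul, smul_eq_mul, smul_eq_mul, hsg]
    have h4 : ∀ z : R, coef φ (Function.update I k z) =
        ℓ (f (Function.update (fun k => e (I k)) k (e z))) := by
      intro z
      change ℓ (f (fun l => e (Function.update I k z l))) = _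
      congr 2
      funext l
      by_cases hl : l = k
      · subst hl
        rw [Function.update_self, Function.update_self]
      · rw [Function.update_of_ne hl, Function.update_of_ne hl]
    rw [h4, h4]
    ring
  let Ft : (κ → Quotient S) → ((κ → R) → Ω) := fun t I =>
    if (fun k => cls (I k)) = t then coef φ I else 0
  have hF : coef φ = ∑ t, Ft t := by
    funext I
    rw [Finset.sum_apply]
    simp only [Ft]
    rw [Finset.sum_ite_eq, if_pos (Finset.mem_univ _)]
  have hFt : ∀ t, Ft t ∈ InvS cls inv jj sg κ t := by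
    intro t
    refine ⟨fun b c hbc I => ?_, fun I hI k => ?_⟩
    · have htype : ∀ (k : κ) (z : R), cls (I k) = cls z →
          (fun l => cls (Function.update I k z l)) = fun l => cls (I l) := by
        intro k z hz
        funext l
        by_cases hl : l = k
        · subst hl
          rw [Function.update_self, hz]
        · rw [Function.update_of_ne hl]
      have h1 : ∀ k, JJ inv jj b (I k) * Ft t (Function.update I k c) -
          sg (cls b) * (JJ inv jj c (I k) * Ft t (Function.update I k b)) =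
          if (fun k => cls (I k)) = t then JJ inv jj b (I k) * coef φ (Function.update I k c) -
            sg (cls b) * (JJ inv jj c (I k) * coef φ (Function.update I k b)) else 0 := by
        intro k
        have e1 : JJ inv jj b (I k) * Ft t (Function.update I k c) =
            if (fun k => cls (I k)) = t then JJ inv jj b (I k) *
              coef φ (Function.update I k c) else 0 := by
          by_cases h : I k = inv b
          · have h2 := htype k c (by rw [h, hbc])
            simp only [Ft]
            rw [h2]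
            split_ifs
            · rfl
            · rw [mul_zero]
          · have h2 : JJ inv jj b (I k) = 0 := by
              unfold JJ
              rw [if_neg h]
            rw [h2, zero_mul, zero_mul]
            split_ifs <;> rfl
        have e2 : JJ inv jj c (I k) * Ft t (Function.update I k b) =
            if (fun k => cls (I k)) = t then JJ inv jj c (I k) *
              coef φ (Function.update I k b) else 0 := by
          by_cases h : I k = inv c
          · have h2 := htype k b (by rw [h, ← D.cls_inv _ _ hbc, D.hinv])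
            simp only [Ft]
            rw [h2]
            split_ifs
            · rfl
            · rw [mul_zero]
          · have h2 : JJ inv jj c (I k) = 0 := by
              unfold JJ
              rw [if_neg h]
            rw [h2, zero_mul, zero_mul]
            split_ifs <;> rfl
        rw [e1, e2]
        split_ifs
        · rfl
        · rw [mul_zero, sub_zero]
      rw [Finset.sum_congr rfl (fun k _ => h1 k)]
      by_cases hI : (fun k => cls (I k)) = t
      · simp only [if_pos hI]
        exact hrel b c hbc I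
      · simp only [if_neg hI]
        exact Finset.sum_const_zero
    · by_contra h
      apply hI
      simp only [Ft]
      rw [if_neg]
      rintro rfl
      exact h rfl
  have h1 : coef φ ∈ GenB (Basic cls inv jj sg) κ := by
    rw [hF]
    exact Submodule.sum_mem _ fun t _ => fftS D _ κ rfl t (hFt t)
  have h3 : GenB (Basic cls inv jj sg) κ ≤ (Submodule.span Ω (ProdM ρ χ w P κ)).map coef := by
    unfold GenB
    rw [Submodule.span_le]
    rintro _ ⟨J, _, d, σ, ψ, hψ, rfl⟩
    have h4 : ∀ j, ∃ Φ : MultilinearMap Ω (fun _ : Fin (d j) => V) Ω, IsBasicF ρ χ w P Φ ∧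
        ∀ I : Fin (d j) → R, Φ (fun l => e (I l)) = ψ j I := by
      intro j
      have h5 : ∀ (d : ℕ) (ψ : (Fin d → R) → Ω), Basic cls inv jj sg d ψ →
          ∃ Φ : MultilinearMap Ω (fun _ : Fin d => V) Ω, IsBasicF ρ χ w P Φ ∧
            ∀ I : Fin d → R, Φ (fun l => e (I l)) = ψ I := by
        intro d ψ hψ
        cases hψ with
        | pair c =>
          obtain ⟨x, rfl⟩ := hsurj c
          exact ⟨_, basic_pair G hPe hP hcls hΔ hPC x, fun I => pair_value F _ I⟩
        | det c _ E hsd hsc =>
          obtain ⟨x, rfl⟩ := hsurj c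
          refine ⟨_, basic_det F G hPe hP hcls hΔ hPC E hsd rfl ?_, fun I => det_value E I⟩
          rw [hsg, heps] at hsc
          by_contra h6
          rw [Nat.not_even_iff_odd] at h6
          rw [h6.neg_one_pow] at hsc
          have h7 : (2 : Ω) = 0 := by linear_combination -hsc
          exact two_ne_zero h7
      exact h5 _ _ (hψ j)
    choose Φ hΦ hΦψ using h4
    refine ⟨(prodS Φ).domDomCongr σ, Submodule.subset_span ⟨J, inferInstance, d, σ, Φ, hΦ, rfl⟩, ?_⟩
    funext I
    change ∏ j, Φ j (fun a => e (I (σ ⟨j, a⟩))) = ∏ j, ψ j (fun a => I (σ ⟨j, a⟩))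
    exact Finset.prod_congr rfl fun j _ => hΦψ j fun a => I (σ ⟨j, a⟩)
  obtain ⟨φ', hφ', hφφ⟩ := h3 h1
  rw [← hinj hφφ]
  exact hφ'

include hPe hP F G heps hss hh hh0 in
/-- **Tate forms are combinations of products of basic forms and Tate vectors.** -/
theorem span_of_tate [FiniteDimensional Ω V] [FiniteDimensional Ω H] {κ : Type} [Fintype κ]
    [DecidableEq κ] {c : ℤ} {f : MultilinearMap Ω (fun _ : κ => V) H}
    (hf : IsTateC ρ χ τ c f) : (fun v => f v) ∈ Submodule.span Ω (ProdF ρ χ τ w P κ) :=
  tate_expansion hf fun ℓ => dual_mem hPe hP F G heps hss hh hh0 hf ℓ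

end

end

end Pool.Agent.NH33.Qz
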