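import Pool.Agent.NH33.Qz.Semi

/-!
# The eigenbasis of the direct sum, and the eigenvalues of powers
-/

set_option autoImplicit false
set_option linter.unusedSectionVars false
set_option linter.deprecated false

namespace Pool.Agent.NH33.Qz

open Module Polynomial TensorProduct Pool.Agent.H204R3.SP Pool.Agent.H204R3.GP

noncomputable section

section spec

variable {k : Type*} [Field k] {H : Type*} [AddCommGroup H] [Module k H] [FiniteDimensional k H]
  {Ω K : Type*} [Field Ω] [Algebra k Ω] [Field K] [Algebra k K] [IsAlgClosed K] (φ : Ω →ₐ[k] K)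

/-- An eigenvector of a power gives an eigenvalue. -/
theorem exists_root_of_pow (T : Module.End k H) {h : Ω ⊗[k] H} (hh : h ≠ 0) {N : ℕ} (hN : N ≠ 0)
    {μ : Ω} (hT : (T.baseChange Ω ^ N) h = μ • h) :
    ∃ β ∈ T.charpoly.aroots K, β ^ N = φ μ := by
  let F : (Ω ⊗[k] H) →ₗ[k] (K ⊗[k] H) := LinearMap.rTensor H φ.toLinearMap
  have hF : Function.Injective F :=
    Module.Flat.rTensor_preserves_injective_linearMap (M := H) φ.toLinearMap φ.toRingHom.injective
  have hFs : ∀ (a : Ω) (z : Ω ⊗[k] H), F (a • z) = φ a • F z := by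
    intro a z
    induction z with
    | zero => rw [smul_zero, map_zero, smul_zero]
    | add x y hx hy => rw [smul_add, map_add, map_add, smul_add, hx, hy]
    | tmul x y =>
      rw [TensorProduct.smul_tmul']
      change (φ (a • x)) ⊗ₜ[k] y = φ a • (φ x ⊗ₜ[k] y)
      rw [TensorProduct.smul_tmul', smul_eq_mul, smul_eq_mul, map_mul]
  have hFT : ∀ z : Ω ⊗[k] H, F (T.baseChange Ω z) = T.baseChange K (F z) := by
    intro z
    induction z with
    | zero => simp only [map_zero]
    | add x y hx hy => simp only [map_add, hx, hy]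
    | tmul x y => rfl
  have hFN : ∀ (n : ℕ) (z : Ω ⊗[k] H), F ((T.baseChange Ω ^ n) z) = (T.baseChange K ^ n) (F z) := by
    intro n
    induction n with
    | zero => intro z; rfl
    | succ n ih =>
      intro z
      rw [pow_succ, pow_succ, Module.End.mul_apply, Module.End.mul_apply, ih, hFT]
  have h1 : (T.baseChange K ^ N) (F h) = φ μ • F h := by
    rw [← hFN, hT, hFs]
  have h2 : F h ≠ 0 := fun h0 => hh (hF (h0.trans (map_zero F).symm))
  have h3 : Module.End.HasEigenvalue ((T.baseChange K ^ N : Module.End K (K ⊗[k] H))) (φ μ) :=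
    Module.End.hasEigenvalue_of_hasEigenvector
      (Module.End.hasEigenvector_iff.2 ⟨Module.End.mem_eigenspace_iff.2 h1, h2⟩)
  have h4 := h3.mem_spectrum
  rw [spectrum.map_pow_of_pos _ (Nat.pos_of_ne_zero hN)] at h4
  obtain ⟨β, hβ, hβN⟩ := h4
  refine ⟨β, ?_, hβN⟩
  rw [← Module.End.hasEigenvalue_iff_mem_spectrum,
    Module.End.hasEigenvalue_iff_isRoot_charpoly, LinearMap.charpoly_baseChange] at hβ
  rw [aroots, mem_roots (((LinearMap.charpoly_monic _).map _).ne_zero)]
  exact hβ

end spec

section basis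

variable {k Ω : Type*} [Field k] [Field Ω] [Algebra k Ω] [CharZero k] {Γ : Type*} [Group Γ]
  {ι : Type} [Fintype ι] [DecidableEq ι] {V : ι → Type*} [∀ i, AddCommGroup (V i)]
  [∀ i, Module k (V i)] [∀ i, FiniteDimensional k (V i)]

/-- The projection to a summand. -/
def prj (i : ι) : Module.End k (∀ i, V i) := (LinearMap.single k V i).comp (LinearMap.proj i)

theorem prj_apply (i : ι) (v : ∀ i, V i) :
    prj (k := k) (V := V) i v = Pi.single (M := V) i (v i) := rfl

/-- The eigenbasis of the direct sum. -/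
theorem exists_basis_total (ρ : ∀ i, Representation k Γ (V i)) (γ : Γ)
    (hsep : ∀ i, (ρ i γ).charpoly.Separable)
    (hspl : ∀ i, ((ρ i γ).charpoly.map (algebraMap k Ω)).Splits) :
    ∃ (R : ι → Finset Ω) (e : Basis (Σ i, R i) Ω (Ω ⊗[k] (∀ i, V i))),
      (∀ i x, x ∈ R i ↔ x ∈ (ρ i γ).charpoly.aroots Ω) ∧
      (∀ x, bcr (total ρ) Ω γ (e x) = (x.2 : Ω) • e x) ∧
      ∀ i x, (prj (k := k) (V := V) i).baseChange Ω (e x) = if x.1 = i then e x else 0 := by
  classical
  have h1 : ∀ i, ∃ e : Basis (Rt ((ρ i γ).baseChange Ω).charpoly) Ω (Ω ⊗[k] V i),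
      ∀ x, (ρ i γ).baseChange Ω (e x) = (x : Ω) • e x := fun i =>
    exists_eigenbasisR _ (by rw [LinearMap.charpoly_baseChange]; exact (hsep i).map)
      (by rw [LinearMap.charpoly_baseChange]; exact hspl i)
  choose e0 he0 using h1
  let E : (Ω ⊗[k] (∀ i, V i)) ≃ₗ[Ω] (∀ i, Ω ⊗[k] V i) := TensorProduct.piRight k Ω Ω V
  let e : Basis (Σ i, Rt ((ρ i γ).baseChange Ω).charpoly) Ω (Ω ⊗[k] (∀ i, V i)) :=
    (Pi.basis e0).map E.symm
  have hE : ∀ (z : Ω ⊗[k] (∀ i, V i)) (T : ∀ i, Module.End k (V i)) (S : Module.End k (∀ i, V i)),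
      (∀ v i, S v i = T i (v i)) → E (S.baseChange Ω z) = fun i => (T i).baseChange Ω (E z i) := by
    intro z T S hS
    induction z with
    | zero =>
      rw [map_zero, map_zero]
      funext i
      rw [Pi.zero_apply, map_zero]
    | add x y hx hy =>
      rw [map_add, map_add, map_add, hx, hy]
      funext i
      rw [Pi.add_apply, Pi.add_apply, map_add]
    | tmul a v =>
      funext i
      change a ⊗ₜ[k] (S v i) = a ⊗ₜ[k] (T i (v i))
      rw [hS]
  have hEe : ∀ x, E (e x) = Pi.single x.1 (e0 x.1 x.2) := by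
    intro x
    change E (E.symm (Pi.basis e0 x)) = _
    rw [LinearEquiv.apply_symm_apply, Pi.basis_apply]
  refine ⟨fun i => ((ρ i γ).baseChange Ω).charpoly.roots.toFinset, e, fun i x => ?_, fun x => ?_,
    fun i x => ?_⟩
  · rw [Multiset.mem_toFinset, LinearMap.charpoly_baseChange]
  · apply E.injective
    change E ((total ρ γ).baseChange Ω (e x)) = _
    rw [hE _ (fun i => ρ i γ) _ (fun v i => rfl), map_smul, hEe]
    funext j
    rw [Pi.smul_apply]
    by_cases h : j = x.1
    · subst h
      rw [Pi.single_eq_same]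
      exact he0 _ _
    · rw [Pi.single_eq_of_ne h, map_zero, smul_zero]
  · apply E.injective
    rw [hE _ (fun j => if j = i then LinearMap.id else 0) _ (fun v j => by
      rw [prj_apply]
      by_cases h : j = i
      · subst h
        rw [Pi.single_eq_same, if_pos rfl]
        rfl
      · rw [Pi.single_eq_of_ne h, if_neg h]
        rfl)]
    by_cases hxi : x.1 = i
    · rw [if_pos hxi, hEe]
      funext j
      by_cases h : j = i
      · rw [if_pos h]
        exact LinearMap.congr_fun (LinearMap.baseChange_id) _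
      · rw [if_neg h, LinearMap.baseChange_zero, LinearMap.zero_apply, Pi.single_eq_of_ne]
        rw [hxi]
        exact h
    · rw [if_neg hxi, map_zero, hEe]
      funext j
      rw [Pi.zero_apply]
      by_cases h : j = i
      · rw [Pi.single_eq_of_ne, map_zero]
        rintro rfl
        exact hxi h
      · rw [if_neg h, LinearMap.baseChange_zero, LinearMap.zero_apply]

end basis

end

end Pool.Agent.NH33.Qz
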